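import Mathlib

/-!
# Packing independent sets (for Turán numbers of disjoint cliques)

Everything is done inside finsets `W` of a vertex type `V` of a graph `H`.
`E2 H W` is twice the number of edges of `H` inside `W`.
-/

namespace Pool.R83.DisjCliques

open Finset

variable {V : Type*} [DecidableEq V] (H : SimpleGraph V) [DecidableRel H.Adj]

/-- degree of `v` inside `W` -/
def dg (W : Finset V) (v : V) : ℕ := (W.filter (H.Adj v)).card

/-- twice the number of edges of `H` inside `W` -/
def E2 (W : Finset V) : ℤ := ∑ v ∈ W, (dg H W v : ℤ)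

/-- independent set -/
def Indep (I : Finset V) : Prop := ∀ x ∈ I, ∀ y ∈ I, ¬ H.Adj x y

/-- `W` contains `k` pairwise disjoint independent `p`-sets -/
def Pack (p : ℕ) : ℕ → Finset V → Prop
  | 0, _ => True
  | k + 1, W => ∃ I ⊆ W, I.card = p ∧ Indep H I ∧ Pack p k (W \ I)

omit [DecidableRel H.Adj] in
lemma Pack.mono {p k : ℕ} {W W' : Finset V} (h : W ⊆ W') (hp : Pack H p k W) :
    Pack H p k W' := by
  induction k generalizing W W' with
  | zero => trivial
  | succ k ih =>
    obtain ⟨I, hI, hc, hi, hP⟩ := hp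
    exact ⟨I, hI.trans h, hc, hi, ih (sdiff_subset_sdiff h (Subset.refl I)) hP⟩

omit [DecidableEq V] in
lemma dg_mono {W W' : Finset V} (h : W' ⊆ W) (v : V) : dg H W' v ≤ dg H W v :=
  card_le_card (filter_subset_filter _ h)

omit [DecidableEq V] in
lemma dg_eq_sum (W : Finset V) (v : V) :
    (dg H W v : ℤ) = ∑ w ∈ W, if H.Adj v w then (1 : ℤ) else 0 := by
  unfold dg
  rw [card_filter]
  push_cast
  rfl

lemma E2_sdiff_le {W R : Finset V} (hR : R ⊆ W) :
    E2 H (W \ R) + ∑ r ∈ R, (dg H W r : ℤ) ≤ E2 H W := by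
  unfold E2
  rw [← sum_sdiff hR]
  have : ∑ v ∈ W \ R, (dg H (W \ R) v : ℤ) ≤ ∑ v ∈ W \ R, (dg H W v : ℤ) := by
    apply sum_le_sum
    intro v _
    exact_mod_cast dg_mono H sdiff_subset v
  linarith

lemma E2_sdiff_indep {W I : Finset V} (hI : I ⊆ W) (hi : Indep H I) :
    E2 H (W \ I) = E2 H W - 2 * ∑ r ∈ I, (dg H W r : ℤ) := by
  have h1 : E2 H W = ∑ v ∈ W \ I, (dg H W v : ℤ) + ∑ v ∈ I, (dg H W v : ℤ) := by
    unfold E2
    rw [← sum_sdiff hI]
  have h2 : ∀ v, (dg H W v : ℤ) = dg H (W \ I) v + dg H I v := by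
    intro v
    rw [dg_eq_sum, dg_eq_sum, dg_eq_sum, ← sum_sdiff hI]
  have h3 : ∑ v ∈ W \ I, (dg H I v : ℤ) = ∑ v ∈ I, (dg H W v : ℤ) := by
    have h4 : ∀ v ∈ I, (dg H W v : ℤ) = dg H (W \ I) v := by
      intro v hv
      rw [h2 v]
      have : dg H I v = 0 := by
        unfold dg
        rw [card_eq_zero, filter_eq_empty_iff]
        intro w hw
        exact hi v hv w hw
      rw [this]
      simp
    rw [sum_congr rfl h4]
    simp_rw [dg_eq_sum]
    rw [sum_comm]
    apply sum_congr rfl
    intro x _
    apply sum_congr rfl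
    intro y _
    simp only [H.adj_comm]
  have h5 : ∑ v ∈ W \ I, (dg H W v : ℤ) = E2 H (W \ I) + ∑ v ∈ I, (dg H W v : ℤ) := by
    rw [← h3]
    unfold E2
    rw [← sum_add_distrib]
    exact sum_congr rfl (fun v _ => h2 v)
  linarith

lemma int_mul_succ_nonneg (c : ℤ) : 0 ≤ c * (c + 1) := by
  rcases le_or_gt 0 c with h0 | h0
  · positivity
  · have : c + 1 ≤ 0 := by omega
    nlinarith

/-- The Turán-type lemma: few edges give an independent `p`-set. -/
lemma exists_indep (c : ℤ) (p : ℕ) (W : Finset V)
    (h : E2 H W < 2 * c * W.card - ((p : ℤ) - 1) * (c * (c + 1))) :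
    ∃ I ⊆ W, I.card = p ∧ Indep H I := by
  induction p generalizing W with
  | zero => exact ⟨∅, by simp, rfl, by intro x hx; simp at hx⟩
  | succ p ih =>
    have hcc := int_mul_succ_nonneg c
    have hne : W.Nonempty := by
      by_contra hW
      rw [not_nonempty_iff_eq_empty] at hW
      subst hW
      simp only [E2, sum_empty, card_empty, Nat.cast_zero, mul_zero, Nat.cast_add, Nat.cast_one,
        add_sub_cancel_right, zero_sub, Left.neg_pos_iff] at h
      have : (0 : ℤ) ≤ p * (c * (c + 1)) := by positivity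
      linarith
    obtain ⟨v, hv, hmin⟩ := exists_min_image W (dg H W) hne
    set R := insert v (W.filter (H.Adj v)) with hRdef
    have hRW : R ⊆ W := by
      intro x hx
      rw [hRdef, mem_insert, mem_filter] at hx
      rcases hx with rfl | hx
      · exact hv
      · exact hx.1
    have hRc : R.card = dg H W v + 1 := by
      rw [hRdef, card_insert_of_notMem]
      · rfl
      · simp
    have h1 := E2_sdiff_le H hRW
    have h2 : (R.card : ℤ) * dg H W v ≤ ∑ r ∈ R, (dg H W r : ℤ) := by
      rw [← nsmul_eq_mul]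
      apply card_nsmul_le_sum
      intro x hx
      exact_mod_cast hmin x (hRW hx)
    have h3 : ((W \ R).card : ℤ) = W.card - R.card := by
      rw [card_sdiff_of_subset hRW, Nat.cast_sub (card_le_card hRW)]
    rw [hRc] at h2 h3
    set d : ℤ := ((dg H W v : ℕ) : ℤ) with hd
    have h4 : E2 H (W \ R) < 2 * c * (W \ R).card - ((p : ℤ) - 1) * (c * (c + 1)) := by
      push_cast at h h2 h3
      rw [h3]
      have h6 : 0 ≤ (d - c) * (d - c + 1) := int_mul_succ_nonneg _
      nlinarith
    obtain ⟨I, hI, hIc, hIi⟩ := ih (W \ R) h4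
    have hvI : v ∉ I := by
      intro hvI
      have := hI hvI
      simp [hRdef] at this
    refine ⟨insert v I, ?_, ?_, ?_⟩
    · intro x hx
      rw [mem_insert] at hx
      rcases hx with rfl | hx
      · exact hv
      · exact (mem_sdiff.mp (hI hx)).1
    · rw [card_insert_of_notMem hvI, hIc]
    · have key : ∀ x ∈ I, ¬ H.Adj v x := by
        intro x hx hadj
        have h7 := mem_sdiff.mp (hI hx)
        apply h7.2
        rw [hRdef, mem_insert, mem_filter]
        exact Or.inr ⟨h7.1, hadj⟩
      intro x hx y hy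
      rw [mem_insert] at hx hy
      rcases hx with rfl | hx
      · rcases hy with rfl | hy
        · exact H.irrefl
        · exact key y hy
      · rcases hy with rfl | hy
        · intro hadj
          exact key x hx hadj.symm
        · exact hIi x hx y hy

/-- arithmetic core -/
lemma arith_pt (D δ d : ℤ) (h0 : 0 ≤ δ) (h1 : δ ≤ d) (h2 : d ≤ D) :
    d * max (2 * (d - δ)) (D - δ) ≤ (d - δ) * (2 * D - δ) + δ * (D - δ) := by
  rcases max_cases (2 * (d - δ)) (D - δ) with ⟨h, _⟩ | ⟨h, _⟩ <;> rw [h]
  · nlinarith [mul_nonneg (sub_nonneg.mpr h2) (by linarith : (0 : ℤ) ≤ 2 * d - δ)]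
  · nlinarith [mul_nonneg (by linarith : (0 : ℤ) ≤ D) (sub_nonneg.mpr h1)]

/-- The key degree estimate for a maximum-degree-sum independent `p`-set. -/
lemma degree_bound {p : ℕ} (hp : 1 ≤ p) {W I : Finset V} (hI : I ⊆ W) (hIc : I.card = p)
    (hi : Indep H I) (D : ℤ) (hD : ∀ v ∈ W, (dg H W v : ℤ) ≤ D)
    (hmax : ∀ J ⊆ W, J.card = p → Indep H J →
      ∑ r ∈ J, dg H W r ≤ ∑ r ∈ I, dg H W r) :
    ∃ δ : ℤ, 0 ≤ δ ∧ δ ≤ D ∧
      2 * E2 H W ≤ 2 * (∑ r ∈ I, (dg H W r : ℤ)) + 2 * (W.card - p) * δ
        + (∑ r ∈ I, (dg H W r : ℤ)) * (2 * D - δ) - p * δ * D := by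
  have hIne : I.Nonempty := by
    rw [← card_pos]; omega
  obtain ⟨i0, hi0, hmin⟩ := exists_min_image I (dg H W) hIne
  refine ⟨dg H W i0, by positivity, hD i0 (hI hi0), ?_⟩
  set δ : ℤ := ((dg H W i0 : ℕ) : ℤ) with hδ
  have hδ0 : 0 ≤ δ := by positivity
  have hδD : δ ≤ D := hD i0 (hI hi0)
  -- exchange
  have exch : ∀ x ∈ W \ I, ∀ i ∈ I, (∀ j ∈ I, j ≠ i → ¬ H.Adj x j) →
      (dg H W x : ℤ) ≤ dg H W i := by
    intro x hx i hii hno
    rw [mem_sdiff] at hx
    have hxe : x ∉ I.erase i := fun h => hx.2 (mem_of_mem_erase h)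
    have h1 := hmax (insert x (I.erase i)) ?_ ?_ ?_
    · rw [sum_insert hxe] at h1
      have h2 := sum_erase_add I (dg H W) hii
      have : dg H W x ≤ dg H W i := by omega
      exact_mod_cast this
    · intro y hy
      rw [mem_insert] at hy
      rcases hy with rfl | hy
      · exact hx.1
      · exact hI (mem_of_mem_erase hy)
    · rw [card_insert_of_notMem hxe, card_erase_of_mem hii, hIc]
      omega
    · intro a ha b hb
      rw [mem_insert, mem_erase] at ha hb
      rcases ha with rfl | ha
      · rcases hb with rfl | hb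
        · exact H.irrefl
        · exact hno b hb.2 hb.1
      · rcases hb with rfl | hb
        · intro hadj
          exact hno a ha.2 ha.1 hadj.symm
        · exact hi a ha.2 b hb.2
  -- pointwise charge
  have charge : ∀ x ∈ W \ I, 2 * ((dg H W x : ℤ) - δ) ≤
      ∑ i ∈ I, if H.Adj x i then max (2 * ((dg H W i : ℤ) - δ)) (D - δ) else 0 := by
    intro x hx
    have hnn : ∀ i ∈ I, (0 : ℤ) ≤
        if H.Adj x i then max (2 * ((dg H W i : ℤ) - δ)) (D - δ) else 0 := by
      intro i _
      split_ifs
      · exact le_max_of_le_right (by linarith)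
      · exact le_refl _
    by_cases hA : ∃ i ∈ I, H.Adj x i
    · obtain ⟨i, hiI, hadj⟩ := hA
      by_cases hB : ∃ j ∈ I, j ≠ i ∧ H.Adj x j
      · obtain ⟨j, hjI, hji, hadj2⟩ := hB
        have hsub : ({i, j} : Finset V) ⊆ I := by
          intro y hy
          rw [mem_insert, mem_singleton] at hy
          rcases hy with rfl | rfl
          · exact hiI
          · exact hjI
        have h1 := sum_le_sum_of_subset_of_nonneg hsub (fun y hy _ => hnn y hy)
        rw [sum_pair (Ne.symm hji), if_pos hadj, if_pos hadj2] at h1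
        have h2 := hD x (mem_sdiff.mp hx).1
        have h3 := le_max_right (2 * ((dg H W i : ℤ) - δ)) (D - δ)
        have h4 := le_max_right (2 * ((dg H W j : ℤ) - δ)) (D - δ)
        linarith
      · push Not at hB
        have h1 := exch x hx i hiI hB
        have h2 := single_le_sum hnn hiI
        rw [if_pos hadj] at h2
        have h3 := le_max_left (2 * ((dg H W i : ℤ) - δ)) (D - δ)
        linarith
    · push Not at hA
      have h1 := exch x hx i0 hi0 (fun j hj _ => hA j hj)
      have h2 := sum_nonneg hnn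
      linarith
  have hsum := sum_le_sum charge
  rw [sum_comm] at hsum
  have h5 : ∀ i ∈ I, (∑ x ∈ W \ I, if H.Adj x i then
      max (2 * ((dg H W i : ℤ) - δ)) (D - δ) else 0) ≤
      ((dg H W i : ℤ) - δ) * (2 * D - δ) + δ * (D - δ) := by
    intro i hiI
    have h6 : (∑ x ∈ W \ I, if H.Adj x i then
      max (2 * ((dg H W i : ℤ) - δ)) (D - δ) else 0) ≤
        (dg H W i : ℤ) * max (2 * ((dg H W i : ℤ) - δ)) (D - δ) := by
      rw [← sum_filter, sum_const, nsmul_eq_mul]
      apply mul_le_mul_of_nonneg_right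
      · have : (filter (fun x => H.Adj x i) (W \ I)).card ≤ dg H W i := by
          unfold dg
          apply card_le_card
          intro x hx
          rw [mem_filter] at hx ⊢
          exact ⟨(mem_sdiff.mp hx.1).1, hx.2.symm⟩
        exact_mod_cast this
      · exact le_max_of_le_right (by linarith)
    refine h6.trans (arith_pt D δ _ hδ0 ?_ (hD i (hI hiI)))
    rw [hδ]
    exact_mod_cast hmin i hiI
  have h7 := hsum.trans (sum_le_sum h5)
  have h8 : ∑ i ∈ I, (((dg H W i : ℤ) - δ) * (2 * D - δ) + δ * (D - δ)) =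
      (∑ r ∈ I, (dg H W r : ℤ)) * (2 * D - δ) - p * δ * D := by
    rw [sum_add_distrib, ← sum_mul, sum_sub_distrib, sum_const, sum_const, hIc]
    simp only [nsmul_eq_mul]
    ring
  rw [h8, ← mul_sum, sum_sub_distrib, sum_const] at h7
  have h9 : ((W \ I).card : ℤ) = W.card - p := by
    rw [card_sdiff_of_subset hI, Nat.cast_sub (card_le_card hI), hIc]
  have h10 : E2 H W = ∑ v ∈ W \ I, (dg H W v : ℤ) + ∑ v ∈ I, (dg H W v : ℤ) := by
    unfold E2
    rw [← sum_sdiff hI]
  rw [nsmul_eq_mul, h9] at h7
  rw [h10]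
  linarith

omit [DecidableRel H.Adj] in
lemma pack_zero (k : ℕ) (W : Finset V) : Pack H 0 k W := by
  induction k generalizing W with
  | zero => trivial
  | succ k ih => exact ⟨∅, by simp, rfl, by intro x hx; simp at hx, ih _⟩

/-- final arithmetic of the inductive step (all quantities doubled) -/
lemma arith_step (e S N c δ n p k : ℤ) (hk : 2 ≤ k) (hc : 2 * k - 1 ≤ c)
    (hN : N = n - k + 1) (hδ0 : 0 ≤ δ) (hδ1 : δ ≤ c - 1)
    (h : e < 2 * c * N - (p - 1) * (c * (c + 1)))
    (hb : 2 * e ≤ 2 * S + 2 * (n - p) * δ + S * (2 * (c - 1) - δ) - p * δ * (c - 1)) :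
    e - 2 * S < (c - 2) * (2 * N - (p - 1) * (c + 1)) := by
  obtain ⟨Z, hZ⟩ : ∃ Z : ℤ, Z = 2 * N - (p - 1) * (c + 1) - S := ⟨_, rfl⟩
  have h1 : 2 * N - (p - 1) * (c + 1) = Z + S := by rw [hZ]; ring
  have h2 : 2 * c * N - (p - 1) * (c * (c + 1)) = c * (Z + S) := by rw [← h1]; ring
  rw [h1]
  rw [h2] at h
  rcases le_or_gt Z 0 with hZ0 | hZ0
  · nlinarith
  · have h3 : 2 * e - 4 * S ≤ 2 * (c - 2) * S + δ * (Z + 2 * k - 3 - c) := by
      have : 2 * S + 2 * (n - p) * δ + S * (2 * (c - 1) - δ) - p * δ * (c - 1) - 4 * S =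
          2 * (c - 2) * S + δ * (Z + 2 * k - 3 - c) := by
        rw [hZ, hN]; ring
      linarith
    have h4 : δ * (Z + 2 * k - 3 - c) < 2 * (c - 2) * Z := by
      rcases le_or_gt (Z + 2 * k - 3 - c) 0 with h5 | h5
      · have h6 : δ * (Z + 2 * k - 3 - c) ≤ 0 := mul_nonpos_of_nonneg_of_nonpos hδ0 h5
        have h7 : 0 < 2 * (c - 2) * Z := by
          apply mul_pos _ hZ0
          linarith
        linarith
      · have h6 : δ * (Z + 2 * k - 3 - c) ≤ (c - 1) * (Z + 2 * k - 3 - c) :=
          mul_le_mul_of_nonneg_right hδ1 h5.le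
        have h7 : (c - 1) * (Z + 2 * k - 3 - c) ≤ (c - 1) * (Z - 2) := by
          apply mul_le_mul_of_nonneg_left
          · linarith
          · linarith
        have h8 : 0 ≤ (c - 3) * Z := by
          apply mul_nonneg
          · linarith
          · linarith
        nlinarith
    nlinarith

/-- **Main packing theorem**: if `2e(H[W]) < 2cN - (p-1)c(c+1)` with `N = |W|-k+1`, `k ≥ 1` and
`c ≥ 2k-1`, then `W` contains `k` pairwise disjoint independent `p`-sets. -/
theorem pack_of_few_edges (p k : ℕ) (hk : 1 ≤ k) (c : ℤ) (hc : 2 * (k : ℤ) - 1 ≤ c)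
    (W : Finset V)
    (h : E2 H W < 2 * c * ((W.card : ℤ) - k + 1) - ((p : ℤ) - 1) * (c * (c + 1))) :
    Pack H p k W := by
  rcases Nat.eq_zero_or_pos p with rfl | hp
  · exact pack_zero H k W
  induction k, hk using Nat.le_induction generalizing c W with
  | base =>
    obtain ⟨I, hI, hIc, hIi⟩ := exists_indep H c p W (by simpa using h)
    exact ⟨I, hI, hIc, hIi, trivial⟩
  | succ k hk ih =>
    have hk1 : (1 : ℤ) ≤ k := by exact_mod_cast hk
    push_cast at hc
    induction W using Finset.strongInduction with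
    | H W ihW =>
      by_cases hA : ∃ v ∈ W, c ≤ dg H W v
      · obtain ⟨v, hv, hcv⟩ := hA
        have hss : W \ {v} ⊂ W := by
          refine ⟨sdiff_subset, fun h' => ?_⟩
          have := h' hv
          simp at this
        have hvs : ({v} : Finset V) ⊆ W := by simpa using hv
        refine (ihW (W \ {v}) hss ?_).mono H sdiff_subset
        have hind : Indep H {v} := by
          intro x hx y hy
          rw [mem_singleton] at hx hy
          subst hx; subst hy
          exact H.irrefl
        rw [E2_sdiff_indep H hvs hind, sum_singleton, card_sdiff_of_subset hvs, card_singleton,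
          Nat.cast_sub (card_pos.mpr ⟨v, hv⟩)]
        push_cast at h ⊢
        linarith
      · push Not at hA
        -- existence of an independent `p`-set
        have hex : ∃ I ⊆ W, I.card = p ∧ Indep H I := by
          apply exists_indep H c p W
          push_cast at h
          have : 0 ≤ c * k := mul_nonneg (by linarith) (by linarith)
          nlinarith
        classical
        set F := W.powerset.filter (fun I => I.card = p ∧ Indep H I) with hF
        have hFne : F.Nonempty := by
          obtain ⟨I, h1, h2, h3⟩ := hex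
          exact ⟨I, by rw [hF, mem_filter, mem_powerset]; exact ⟨h1, h2, h3⟩⟩
        obtain ⟨I, hIF, hImax⟩ := exists_max_image F (fun I => ∑ r ∈ I, dg H W r) hFne
        rw [hF, mem_filter, mem_powerset] at hIF
        obtain ⟨hI, hIc, hIi⟩ := hIF
        obtain ⟨δ, hδ0, hδ1, hb⟩ := degree_bound H hp hI hIc hIi (c - 1)
          (fun v hv => by have := hA v hv; omega)
          (fun J h1 h2 h3 => hImax J (by rw [hF, mem_filter, mem_powerset]; exact ⟨h1, h2, h3⟩))
        refine ⟨I, hI, hIc, hIi, ih (c - 2) ?_ (W \ I) ?_⟩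
        · linarith
        · rw [E2_sdiff_indep H hI hIi, card_sdiff_of_subset hI, Nat.cast_sub (card_le_card hI), hIc]
          have := arith_step (E2 H W) (∑ r ∈ I, (dg H W r : ℤ)) ((W.card : ℤ) - (k + 1) + 1) c δ
            W.card p (k + 1) (by linarith) (by linarith) rfl hδ0 hδ1 (by push_cast at h; exact h) hb
          refine lt_of_lt_of_eq this ?_
          ring

/-! ### From packings to copies of `kK_p` -/

/-- `kK_p`: the disjoint union of `k` copies of `K_p`, on the vertex set `Fin k × Fin p`. -/
def kK (k p : ℕ) : SimpleGraph (Fin k × Fin p) where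
  Adj x y := x.1 = y.1 ∧ x.2 ≠ y.2
  symm := ⟨fun _ _ h => ⟨h.1.symm, h.2.symm⟩⟩
  loopless := ⟨fun _ h => h.2 rfl⟩

omit [DecidableRel H.Adj] in
lemma Pack.exists_map {p k : ℕ} {W : Finset V} (hP : Pack H p k W) :
    ∃ φ : Fin k × Fin p → V, Function.Injective φ ∧ (∀ x, φ x ∈ W) ∧
      ∀ i a b, ¬ H.Adj (φ (i, a)) (φ (i, b)) := by
  induction k generalizing W with
  | zero =>
    exact ⟨fun x => x.1.elim0, fun x => x.1.elim0, fun x => x.1.elim0, fun i => i.elim0⟩
  | succ k ih =>
    obtain ⟨I, hI, hc, hi, hP⟩ := hP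
    obtain ⟨φ, hφ, hφW, hφi⟩ := ih hP
    let e := I.equivFinOfCardEq hc
    refine ⟨fun x => Fin.cases (motive := fun _ => V) (e.symm x.2 : V) (fun i => φ (i, x.2)) x.1,
      ?_, ?_, ?_⟩
    · rintro ⟨i, a⟩ ⟨j, b⟩ hab
      induction i using Fin.cases with
      | zero =>
        induction j using Fin.cases with
        | zero =>
          simp only [Fin.cases_zero] at hab
          have := e.symm.injective (Subtype.ext hab)
          rw [this]
        | succ j =>
          simp only [Fin.cases_zero, Fin.cases_succ] at hab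
          exfalso
          have h1 := hφW (j, b)
          rw [← hab, mem_sdiff] at h1
          exact h1.2 (e.symm a).2
      | succ i =>
        induction j using Fin.cases with
        | zero =>
          simp only [Fin.cases_zero, Fin.cases_succ] at hab
          exfalso
          have h1 := hφW (i, a)
          rw [hab, mem_sdiff] at h1
          exact h1.2 (e.symm b).2
        | succ j =>
          simp only [Fin.cases_succ] at hab
          have := hφ hab
          rw [Prod.mk.injEq] at this
          rw [this.1, this.2]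
    · rintro ⟨i, a⟩
      induction i using Fin.cases with
      | zero => exact hI (e.symm a).2
      | succ i => exact (mem_sdiff.mp (hφW (i, a))).1
    · intro i a b
      induction i using Fin.cases with
      | zero => exact hi _ (e.symm a).2 _ (e.symm b).2
      | succ i => exact hφi i a b

open SimpleGraph in
lemma contained_of_pack {V : Type*} [DecidableEq V] (G : SimpleGraph V) {k p : ℕ} {W : Finset V}
    (hP : Pack Gᶜ p k W) : kK k p ⊑ G := by
  obtain ⟨φ, hφ, -, hφi⟩ := hP.exists_map
  refine ⟨⟨⟨φ, ?_⟩, hφ⟩⟩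
  rintro ⟨i, a⟩ ⟨j, b⟩ ⟨h1, h2⟩
  simp only at h1 h2
  subst h1
  have h3 := hφi i a b
  rw [compl_adj] at h3
  have h4 : φ (i, a) ≠ φ (i, b) := by
    intro h
    have := hφ h
    simp only [Prod.mk.injEq, true_and] at this
    exact h2 this
  by_contra h5
  exact h3 ⟨h4, h5⟩

lemma E2_compl {V : Type*} [Fintype V] [DecidableEq V] (G : SimpleGraph V) [DecidableRel G.Adj] :
    E2 Gᶜ univ = (Fintype.card V : ℤ) * (Fintype.card V - 1) - 2 * G.edgeFinset.card := by
  have h1 : ∀ v, (dg Gᶜ univ v : ℤ) = (Fintype.card V : ℤ) - 1 - G.degree v := by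
    intro v
    have h2 : dg Gᶜ univ v = Gᶜ.degree v := by
      unfold dg
      rw [← SimpleGraph.card_neighborFinset_eq_degree, SimpleGraph.neighborFinset_eq_filter]
    have h3 := G.degree_compl v
    have h4 := G.degree_lt_card_verts v
    rw [h2, h3]
    omega
  have h5 := G.sum_degrees_eq_twice_card_edges
  unfold E2
  rw [sum_congr rfl (fun v _ => h1 v), sum_sub_distrib, sum_const, card_univ, nsmul_eq_mul]
  have h6 : (∑ v, (G.degree v : ℤ)) = 2 * G.edgeFinset.card := by exact_mod_cast h5
  rw [h6]

open SimpleGraph in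
/-- Upper bound on `ex(n,kK_p)` (doubled). -/
theorem two_mul_extremal_le (n p k : ℕ) (hk : 1 ≤ k) (c : ℤ) (hc : 2 * (k : ℤ) - 1 ≤ c) 
    (hpos : 0 ≤ (n : ℤ) * (n - 1) - (2 * c * ((n : ℤ) - k + 1) - ((p : ℤ) - 1) * (c * (c + 1)))) :
    2 * (extremalNumber n (kK k p) : ℤ) ≤
      (n : ℤ) * (n - 1) - (2 * c * ((n : ℤ) - k + 1) - ((p : ℤ) - 1) * (c * (c + 1))) := by
  rcases Nat.eq_zero_or_pos (extremalNumber n (kK k p)) with h0 | h0
  · rw [h0]
    simpa using hpos
  · obtain ⟨m, hm⟩ : ∃ m, extremalNumber n (kK k p) = m + 1 := ⟨_, (Nat.sub_add_cancel h0).symm⟩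
    have h1 := (lt_extremalNumber_iff (V := Fin n) (kK k p) m)
    rw [Fintype.card_fin] at h1
    obtain ⟨G, _, hG, hGm⟩ := h1.mp (by omega)
    have h2 : 2 * (G.edgeFinset.card : ℤ) ≤
        (n : ℤ) * (n - 1) - (2 * c * ((n : ℤ) - k + 1) - ((p : ℤ) - 1) * (c * (c + 1))) := by
      by_contra hlt
      push Not at hlt
      apply hG
      apply contained_of_pack G (W := univ)
      apply pack_of_few_edges Gᶜ p k hk c hc
      rw [E2_compl, card_univ, Fintype.card_fin]
      linarith
    have h3 : (extremalNumber n (kK k p) : ℤ) ≤ G.edgeFinset.card := by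
      rw [hm]
      exact_mod_cast hGm
    linarith

/-! ### Lower bounds: complete multipartite graphs -/

/-- The complete multipartite graph with parts given by the fibres of `f`. -/
def partGraph {V ι : Type*} (f : V → ι) : SimpleGraph V where
  Adj x y := f x ≠ f y
  symm := ⟨fun _ _ h => h.symm⟩
  loopless := ⟨fun _ h => h rfl⟩

open SimpleGraph in
/-- A complete multipartite graph with `∑ min(|part|,k) < kp` contains no `kK_p`. -/
lemma partGraph_free {V ι : Type*} [Fintype V] [Fintype ι] [DecidableEq ι] (f : V → ι) (k p : ℕ)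
    (h : ∑ i, min k (univ.filter (fun v => f v = i)).card < k * p) :
    (kK k p).Free (partGraph f) := by
  rintro ⟨φ⟩
  have h1 : (univ : Finset (Fin k × Fin p)).card =
      ∑ i, (univ.filter (fun x => f (φ x) = i)).card :=
    card_eq_sum_card_fiberwise (fun _ _ => mem_univ _)
  rw [card_univ, Fintype.card_prod, Fintype.card_fin, Fintype.card_fin] at h1
  rw [h1] at h
  refine absurd h (not_lt.mpr ?_)
  apply sum_le_sum
  intro i _
  apply le_min
  · have h2 : (univ.filter (fun x => f (φ x) = i)).card ≤ (univ : Finset (Fin k)).card := by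
      apply card_le_card_of_injOn (fun x => x.1) (fun _ _ => mem_coe.mpr (mem_univ _))
      rintro ⟨a, b⟩ hx ⟨a', b'⟩ hy hxy
      rw [mem_coe, mem_filter] at hx hy
      simp only at hxy
      subst hxy
      by_contra hne
      have hne' : b ≠ b' := fun h => hne (by rw [h])
      have hadj : (kK k p).Adj (a, b) (a, b') := ⟨rfl, hne'⟩
      have := φ.toHom.map_adj hadj
      exact this (hx.2.trans hy.2.symm)
    rwa [card_univ, Fintype.card_fin] at h2
  · apply card_le_card_of_injOn (fun x => φ x)
    · intro x hx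
      rw [mem_coe, mem_filter] at hx ⊢
      exact ⟨mem_univ _, hx.2⟩
    · intro x _ y _ hxy
      exact φ.injective hxy

lemma two_mul_edges_partGraph {V ι : Type*} [Fintype V] [Fintype ι] [DecidableEq ι]
    (f : V → ι) [DecidableRel (partGraph f).Adj] :
    2 * ((partGraph f).edgeFinset.card : ℤ) =
      (Fintype.card V : ℤ) ^ 2 - ∑ i, ((univ.filter (fun v => f v = i)).card : ℤ) ^ 2 := by
  classical
  have h1 := (partGraph f).sum_degrees_eq_twice_card_edges
  have h2 : ∀ v, ((partGraph f).degree v : ℤ) =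
      Fintype.card V - (univ.filter (fun w => f w = f v)).card := by
    intro v
    have h3 : (univ.filter (fun w => f w = f v)).card +
        (univ.filter (fun w => ¬ f w = f v)).card = (univ : Finset V).card :=
      card_filter_add_card_filter_not _
    have h4 : (partGraph f).degree v = (univ.filter (fun w => ¬ f w = f v)).card := by
      rw [← SimpleGraph.card_neighborFinset_eq_degree, SimpleGraph.neighborFinset_eq_filter]
      congr 1
      ext w
      simp only [mem_filter, mem_univ, true_and]
      exact ne_comm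
    rw [h4]
    rw [card_univ] at h3
    omega
  have h5 : (∑ v, ((partGraph f).degree v : ℤ)) = 2 * (partGraph f).edgeFinset.card := by
    exact_mod_cast h1
  rw [← h5, sum_congr rfl (fun v _ => h2 v), sum_sub_distrib, sum_const, card_univ, nsmul_eq_mul]
  have h6 : ∑ v, ((univ.filter (fun w => f w = f v)).card : ℤ) =
      ∑ i, ((univ.filter (fun v => f v = i)).card : ℤ) ^ 2 := by
    rw [← sum_fiberwise (s := univ) (g := f)]
    apply sum_congr rfl
    intro i _
    have h7 : ∀ v ∈ univ.filter (fun v => f v = i),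
        ((univ.filter (fun w => f w = f v)).card : ℤ) = (univ.filter (fun v => f v = i)).card := by
      intro v hv
      rw [mem_filter] at hv
      rw [hv.2]
    rw [sum_congr rfl h7, sum_const, nsmul_eq_mul]
    ring
  rw [h6]
  ring

/-- part sizes: `y` parts of size `q+1`, `z` parts of size `q`, `s` parts of size `1`. -/
def sizes (y z s q : ℕ) : Fin y ⊕ (Fin z ⊕ Fin s) → ℕ :=
  Sum.elim (fun _ => q + 1) (Sum.elim (fun _ => q) (fun _ => 1))

open SimpleGraph in
theorem lower_bound (k p y z s q n : ℕ) (h : k * (y + z) + s < k * p)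
    (hn : n = (q + 1) * y + q * z + s) :
    0 ≤ (n : ℤ) ^ 2 - ((y : ℤ) * (q + 1) ^ 2 + z * q ^ 2 + s) ∧
    (n : ℤ) ^ 2 - ((y : ℤ) * (q + 1) ^ 2 + z * q ^ 2 + s) ≤
      2 * (extremalNumber n (kK k p) : ℤ) := by
  classical
  let V := Σ i : Fin y ⊕ (Fin z ⊕ Fin s), Fin (sizes y z s q i)
  let f : V → Fin y ⊕ (Fin z ⊕ Fin s) := Sigma.fst
  have hfib : ∀ i, (univ.filter (fun v : V => f v = i)).card = sizes y z s q i := by
    intro i
    have h1 : (univ.filter (fun v : V => f v = i)) =
        (univ : Finset (Fin (sizes y z s q i))).map ⟨Sigma.mk i, sigma_mk_injective⟩ := by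
      ext v
      simp only [mem_filter, mem_univ, true_and, mem_map, Function.Embedding.coeFn_mk]
      constructor
      · rintro rfl
        exact ⟨v.2, rfl⟩
      · rintro ⟨a, rfl⟩
        rfl
    rw [h1, card_map, card_univ, Fintype.card_fin]
  have hcard : Fintype.card V = n := by
    have h2 : ∀ i, Fintype.card (Fin (sizes y z s q i)) = sizes y z s q i :=
      fun i => Fintype.card_fin _
    rw [Fintype.card_sigma, hn, sum_congr rfl (fun i _ => h2 i)]
    simp only [Fintype.card_fin, Fintype.sum_sum_type, sizes, Sum.elim_inl, Sum.elim_inr, sum_const,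
      card_univ, smul_eq_mul]
    ring
  have hfree : (kK k p).Free (partGraph f) := by
    apply partGraph_free
    refine lt_of_le_of_lt ?_ h
    have : ∀ i ∈ (univ : Finset (Fin y ⊕ (Fin z ⊕ Fin s))),
        min k (univ.filter (fun v => f v = i)).card ≤
          Sum.elim (fun _ => k) (Sum.elim (fun _ => k) (fun _ => 1)) i := by
      intro i _
      rw [hfib i]
      rcases i with i | i | i
      · exact min_le_left _ _
      · exact min_le_left _ _
      · exact min_le_right _ _
    refine (sum_le_sum this).trans ?_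
    simp only [Fintype.card_fin, Fintype.sum_sum_type, Sum.elim_inl, Sum.elim_inr, sum_const,
      card_univ, smul_eq_mul]
    apply le_of_eq
    ring
  have hE := two_mul_edges_partGraph f
  have hle := card_edgeFinset_le_extremalNumber hfree
  rw [hcard] at hE hle
  have hsum : ∑ i, ((univ.filter (fun v => f v = i)).card : ℤ) ^ 2 =
      (y : ℤ) * (q + 1) ^ 2 + z * q ^ 2 + s := by
    simp only [hfib]
    simp only [Fintype.card_fin, Fintype.sum_sum_type, sizes, Sum.elim_inl, Sum.elim_inr, sum_const,
      card_univ, nsmul_eq_mul]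
    push_cast
    ring
  rw [hsum] at hE
  have : ((partGraph f).edgeFinset.card : ℤ) ≤ extremalNumber n (kK k p) := by exact_mod_cast hle
  have h0 : (0 : ℤ) ≤ (partGraph f).edgeFinset.card := by positivity
  constructor <;> linarith

/-! ### Turán graphs and joins -/

open SimpleGraph in
/-- `2 t_{N,r} = N(N-1) - 2cN + r c (c+1)` with `c = ⌊N/r⌋`. -/
theorem two_mul_turan (r : ℕ) (hr : 0 < r) (N : ℕ) :
    2 * ((turanGraph N r).edgeFinset.card : ℤ) =
      (N : ℤ) * (N - 1) - 2 * ((N / r : ℕ) : ℤ) * N +
        r * (((N / r : ℕ) : ℤ) * (((N / r : ℕ) : ℤ) + 1)) := by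
  induction N using Nat.strong_induction_on with
  | _ N ih =>
    rcases lt_or_ge N r with h | h
    · have h1 := card_edgeFinset_top_eq_card_choose_two (V := Fin N)
      rw [Fintype.card_fin] at h1
      have h2 : (turanGraph N r).edgeFinset.card = N.choose 2 := by
        rw [← h1]
        congr 1
        ext e
        rw [mem_edgeFinset, mem_edgeFinset, turanGraph_eq_top.mpr (Or.inr h.le)]
      rw [h2, Nat.div_eq_of_lt h]
      have h3 := Nat.choose_two_right N
      have h4 : (2 * N.choose 2 : ℤ) = N * (N - 1) := by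
        rcases Nat.eq_zero_or_pos N with rfl | hN
        · simp
        · have h5 := Nat.div_mul_cancel (Nat.even_mul_pred_self N).two_dvd
          rw [← h3] at h5
          have h6 : ((N.choose 2 * 2 : ℕ) : ℤ) = ((N * (N - 1) : ℕ) : ℤ) := by rw [h5]
          push_cast [Nat.cast_sub hN] at h6
          linarith
      rw [h4]
      simp
    · obtain ⟨M, rfl⟩ : ∃ M, N = M + r := ⟨N - r, by omega⟩
      have h1 := ih M (by omega)
      rw [card_edgeFinset_turanGraph_add, Nat.add_div_right _ hr]
      generalize M / r = c at h1 ⊢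
      have h3 := Nat.choose_two_right r
      have h5 := Nat.div_mul_cancel (Nat.even_mul_pred_self r).two_dvd
      rw [← h3] at h5
      have h6 : ((r.choose 2 * 2 : ℕ) : ℤ) = ((r * (r - 1) : ℕ) : ℤ) := by rw [h5]
      push_cast [Nat.cast_sub hr] at h6 ⊢
      linarith

/-- The join `G ∨ H` of two graphs. -/
def join {V W : Type*} (G : SimpleGraph V) (H : SimpleGraph W) : SimpleGraph (V ⊕ W) where
  Adj
    | .inl v, .inl v' => G.Adj v v'
    | .inr w, .inr w' => H.Adj w w'
    | .inl _, .inr _ => True
    | .inr _, .inl _ => True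
  symm := ⟨by
    rintro (v | w) (v' | w') h
    · exact G.adj_symm h
    · trivial
    · trivial
    · exact H.adj_symm h⟩
  loopless := ⟨by
    rintro (v | w) h
    · exact G.irrefl h
    · exact H.irrefl h⟩

/-- number of edges of a join -/
lemma card_edges_join {V W : Type*} [Fintype V] [Fintype W] (G : SimpleGraph V)
    (H : SimpleGraph W) [DecidableRel G.Adj] [DecidableRel H.Adj]
    [DecidableRel (join G H).Adj] :
    (join G H).edgeFinset.card =
      G.edgeFinset.card + Fintype.card V * Fintype.card W + H.edgeFinset.card := by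
  classical
  have h1 := (join G H).sum_degrees_eq_twice_card_edges
  have h2 := G.sum_degrees_eq_twice_card_edges
  have h3 := H.sum_degrees_eq_twice_card_edges
  have h4 : ∀ v, (join G H).degree (.inl v) = G.degree v + Fintype.card W := by
    intro v
    rw [← SimpleGraph.card_neighborFinset_eq_degree, ← SimpleGraph.card_neighborFinset_eq_degree,
      ← card_univ (α := W), ← card_disjSum]
    congr 1
    ext x
    rcases x with x | x
    · simp only [SimpleGraph.mem_neighborFinset, inl_mem_disjSum]
      rfl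
    · simp only [SimpleGraph.mem_neighborFinset, inr_mem_disjSum, mem_univ, iff_true]
      trivial
  have h5 : ∀ w, (join G H).degree (.inr w) = Fintype.card V + H.degree w := by
    intro w
    rw [← SimpleGraph.card_neighborFinset_eq_degree, ← SimpleGraph.card_neighborFinset_eq_degree,
      ← card_univ (α := V), ← card_disjSum]
    congr 1
    ext x
    rcases x with x | x
    · simp only [SimpleGraph.mem_neighborFinset, inl_mem_disjSum, mem_univ, iff_true]
      trivial
    · simp only [SimpleGraph.mem_neighborFinset, inr_mem_disjSum]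
      rfl
  rw [Fintype.sum_sum_type, sum_congr rfl (fun v _ => h4 v), sum_congr rfl (fun w _ => h5 w),
    sum_add_distrib, sum_add_distrib, h2, h3, sum_const, sum_const, card_univ, card_univ,
    smul_eq_mul, smul_eq_mul] at h1
  have h6 : Fintype.card V * Fintype.card W = Fintype.card W * Fintype.card V := mul_comm _ _
  omega

end Pool.R83.DisjCliques
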