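import Pool.Agent.R83.EOSat

set_option autoImplicit false

/-!
# The upper bound `O(n log n / log log n)` for the e-semisaturation function
-/

namespace Pool.Agent.R83.EOSat

open Finset Pool.Agent.R83.EOCount Filter Asymptotics

lemma exists_family (V : Type) [Fintype V] [DecidableEq V] (q : ℕ) (hq : 2 ≤ q) :
    ∃ β : ℝ, 1 < β ∧ ∃ M : ℕ, 2 ≤ M ∧ ∀ (a b : V) (rk : Sym2 V → Fin q) (K m : ℕ), 1 ≤ K → M ^ K ≤ m →
      ∃ z : Sym2 (V × Fin m) → Fin (q ^ K), ∃ N : ℕ, β ^ (K * m) ≤ (N : ℝ) ∧ ∃ f : Fin N → Fin m → ℕ,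
        (∀ i x, f i x < q ^ K) ∧ ∀ i i', i ≠ i' → Good a b rk z univ (f i) (f i') := by
  classical
  obtain ⟨β, hβ, x0, hcode⟩ := code q hq
  set k := Fintype.card V with hk
  set L := 16 * q ^ 2 with hL
  set B := 12 * (k + 1) ^ 4 * 16 ^ k with hB
  set M := (x0 + 1) * B * (q * L ^ 2 * q ^ (2 * k)) with hM
  have hq1 : 1 ≤ q := by omega
  have hL1 : 1 ≤ L := by
    have : 0 < L := by positivity
    omega
  have hB1 : 12 ≤ B := by
    have h1 : 1 ≤ (k + 1) ^ 4 := Nat.one_le_pow _ _ (by omega)
    have h2 : 1 ≤ 16 ^ k := Nat.one_le_pow _ _ (by omega)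
    calc 12 = 12 * 1 * 1 := by ring
      _ ≤ B := Nat.mul_le_mul (Nat.mul_le_mul_left _ h1) h2
  have hQ1 : 1 ≤ q * L ^ 2 * q ^ (2 * k) := by
    have : 0 < q * L ^ 2 * q ^ (2 * k) := by positivity
    omega
  refine ⟨β, hβ, M, ?_, ?_⟩
  · calc 2 ≤ 1 * 12 * 1 := by norm_num
      _ ≤ M := Nat.mul_le_mul (Nat.mul_le_mul (by omega) hB1) hQ1
  · intro a b rk K m hK hm
    have hm1 : 1 ≤ m := le_trans (Nat.one_le_pow _ _ (by
      have : 0 < M := by positivity
      omega)) hm
    have hx : x0 * L ^ K ≤ m := by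
      refine le_trans ?_ hm
      have h1 : x0 ≤ (x0 + 1) ^ K := by
        calc x0 ≤ x0 + 1 := by omega
          _ = (x0 + 1) ^ 1 := by ring
          _ ≤ (x0 + 1) ^ K := Nat.pow_le_pow_right (by omega) hK
      calc x0 * L ^ K ≤ (x0 + 1) ^ K * L ^ K := Nat.mul_le_mul_right _ h1
        _ = ((x0 + 1) * L) ^ K := (mul_pow _ _ _).symm
        _ ≤ M ^ K := by
            apply Nat.pow_le_pow_left
            have h2 : L ≤ q * L ^ 2 * q ^ (2 * k) := by
              have h3 : 1 ≤ q ^ (2 * k) := Nat.one_le_pow _ _ hq1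
              calc L = 1 * (L * 1) * 1 := by ring
                _ ≤ q * (L * L) * q ^ (2 * k) := Nat.mul_le_mul (Nat.mul_le_mul hq1 (Nat.mul_le_mul_left _ hL1)) h3
                _ = _ := by ring
            calc (x0 + 1) * L = (x0 + 1) * 1 * L := by ring
              _ ≤ (x0 + 1) * B * (q * L ^ 2 * q ^ (2 * k)) := Nat.mul_le_mul (Nat.mul_le_mul_left _ (by omega)) h2
    set E := L ^ K * ((k + 1) * (4 * q ^ K) ^ k) with hE
    have hE1 : 1 ≤ E := by
      have : 0 < E := by positivity
      omega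
    have hT1 : 1 ≤ q ^ K := Nat.one_le_pow _ _ hq1
    have hU : 12 * (Fintype.card V + 1) ^ 2 * q ^ K * E ^ 2 ≤ m := by
      refine le_trans ?_ hm
      rw [← hk]
      have h1 : 12 * (k + 1) ^ 2 * q ^ K * E ^ 2 = B * (q * L ^ 2 * q ^ (2 * k)) ^ K := by
        rw [hE, hB]
        have h16 : (16 : ℕ) ^ k = 4 ^ k * 4 ^ k := by rw [← mul_pow]; norm_num
        have h3 : (4 * q ^ K) ^ k = 4 ^ k * q ^ (K * k) := by rw [mul_pow, ← pow_mul]
        have h4 : (q * L ^ 2 * q ^ (2 * k)) ^ K = q ^ K * (L ^ K * L ^ K) * (q ^ (K * k) * q ^ (K * k)) := by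
          rw [mul_pow, mul_pow, ← pow_mul, ← pow_mul, ← pow_add, ← pow_add]
          congr 2
          · congr 1
            ring
          · ring
        rw [h16, h3, h4]
        ring
      rw [h1]
      calc B * (q * L ^ 2 * q ^ (2 * k)) ^ K ≤ B ^ K * (q * L ^ 2 * q ^ (2 * k)) ^ K := by
            apply Nat.mul_le_mul_right
            calc B = B ^ 1 := by ring
              _ ≤ B ^ K := Nat.pow_le_pow_right (by omega) hK
        _ = (1 * B * (q * L ^ 2 * q ^ (2 * k))) ^ K := by rw [one_mul, mul_pow B]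
        _ ≤ M ^ K := by
            apply Nat.pow_le_pow_left
            apply Nat.mul_le_mul_right
            apply Nat.mul_le_mul_right
            omega
    obtain ⟨z, hz⟩ := universal V m (q ^ K) E hT1 hE1 hU
    obtain ⟨N, hN, f, hf1, hf2⟩ := family a b hq rk β hβ x0 hcode K m hm1 hx z hz K le_rfl 0 (by simp) univ
      (by simp)
    rw [Finset.card_univ, Fintype.card_fin] at hN
    refine ⟨z, N, hN, f, ?_, hf2⟩
    intro i x
    have := (hf1 i x (mem_univ _)).2
    simpa using this

/-- The finite form of the upper bound. -/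
theorem ssatE_bound {V : Type} [Fintype V] (G : EOGraph V) (hG : G.graph.edgeSet.Nonempty) :
    ∃ β : ℝ, 1 < β ∧ ∃ M : ℕ, 2 ≤ M ∧ ∀ K m n : ℕ, 1 ≤ K → M ^ K ≤ m →
      2 * (Fintype.card V * m) ≤ n → (n : ℝ) ≤ β ^ (K * m) →
        ssatE n G ≤ 2 * (Fintype.card V * m) * n := by
  classical
  set q := Fintype.card (Sym2 V) + 2 with hq
  obtain ⟨β, hβ, M, hM, hfam⟩ := exists_family V q (by omega)
  refine ⟨β, hβ, M, hM, ?_⟩
  intro K m n hK hm hkn hn
  -- the rank function
  let below : Sym2 V → Finset (Sym2 V) := fun e => univ.filter (fun e' => e' ∈ G.graph.edgeSet ∧ G.lab e' < G.lab e)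
  let rk : Sym2 V → Fin q := fun e => ⟨(below e).card, by
    have : (below e).card ≤ Fintype.card (Sym2 V) := Finset.card_le_univ _
    omega⟩
  have hrk : ∀ e ∈ G.graph.edgeSet, ∀ e' ∈ G.graph.edgeSet, G.lab e < G.lab e' → rk e < rk e' := by
    intro e he e' he' hlt
    rw [Fin.lt_def]
    apply Finset.card_lt_card
    rw [Finset.ssubset_iff_of_subset]
    · refine ⟨e, ?_, ?_⟩
      · simp only [below, Finset.mem_filter, mem_univ, true_and]
        exact ⟨he, hlt⟩
      · simp only [below, Finset.mem_filter, mem_univ, true_and, not_and, not_lt]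
        intro _; exact le_rfl
    · intro s hs
      simp only [below, Finset.mem_filter, mem_univ, true_and] at hs ⊢
      exact ⟨hs.1, hs.2.trans hlt⟩
  obtain ⟨e0, he0, hmin⟩ := Set.exists_min_image G.graph.edgeSet G.lab (Set.toFinite _) hG
  obtain ⟨e1, he1, hmax⟩ := Set.exists_max_image G.graph.edgeSet G.lab (Set.toFinite _) hG
  obtain ⟨a, b, rfl⟩ : ∃ a b, e0 = s(a, b) := by
    induction e0 using Sym2.ind with
    | _ a b => exact ⟨a, b, rfl⟩
  obtain ⟨a', b', rfl⟩ : ∃ a b, e1 = s(a, b) := by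
    induction e1 using Sym2.ind with
    | _ a b => exact ⟨a, b, rfl⟩
  obtain ⟨z1, N1, hN1, f1, hf1, hg1⟩ := hfam a b rk K m hK hm
  obtain ⟨z2, N2, hN2, f2, hf2, hg2⟩ := hfam a' b' rk K m hK hm
  set r := n - 2 * (Fintype.card V * m) with hr
  have hr1 : r ≤ N1 := by
    have : (n : ℝ) ≤ N1 := le_trans hn hN1
    have : n ≤ N1 := by exact_mod_cast this
    omega
  have hr2 : r ≤ N2 := by
    have : (n : ℝ) ≤ N2 := le_trans hn hN2
    have : n ≤ N2 := by exact_mod_cast this
    omega
  have hsemi := host_semisat G rk hrk a b a' b' he0 he1 hmin hmax z1 z2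
    (fun i : Fin r => f1 (Fin.castLE hr1 i)) (fun i : Fin r => f2 (Fin.castLE hr2 i))
    (fun i i' h => hg1 _ _ (fun hh => h (Fin.castLE_injective hr1 hh)))
    (fun i i' h => hg2 _ _ (fun hh => h (Fin.castLE_injective hr2 hh)))
    (fun i x => hf2 _ _)
  have hcard : Fintype.card (Host V (Fin r) m) = n := by
    simp only [Fintype.card_sum, Fintype.card_prod, Fintype.card_fin]
    omega
  refine le_trans (ssatE_le G _ hsemi n hcard) ?_
  refine le_trans (host_edges (V := V) (R := Fin r) (m := m)) ?_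
  rw [hcard]

lemma log_le_half {s : ℝ} (hs : 0 < s) : Real.log s ≤ s / 2 := by
  have h1 := Real.log_le_sub_one_of_pos (show (0 : ℝ) < s / 2 by linarith)
  have h2 : Real.log (s / 2) = Real.log s - Real.log 2 := Real.log_div hs.ne' (by norm_num)
  have h3 : Real.log 2 ≤ 2 - 1 := Real.log_le_sub_one_of_pos (by norm_num)
  linarith

/-- The e-semisaturation function of every edge-ordered graph with at least one edge is
`O(n log n / log log n)`. -/
theorem ssatE_isBigO {V : Type} [Fintype V] (G : EOGraph V) (hG : G.graph.edgeSet.Nonempty) :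
    (fun n : ℕ => (ssatE n G : ℝ)) =O[atTop] (fun n : ℕ => n * Real.log n / Real.log (Real.log n)) := by
  classical
  obtain ⟨β, hβ, M, hM, hb⟩ := ssatE_bound G hG
  set k := Fintype.card V with hk
  have hlogβ : 0 < Real.log β := Real.log_pos hβ
  have hM1 : (1 : ℝ) < M := by exact_mod_cast (by omega : 1 < M)
  have hlogM : 0 < Real.log M := Real.log_pos hM1
  set D : ℝ := 4 * Real.log M / Real.log β + 1 with hD
  have hD1 : 1 ≤ D := by
    have : 0 < 4 * Real.log M / Real.log β := by positivity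
    linarith
  have hDβ : 4 * Real.log M ≤ D * Real.log β := by
    rw [hD, add_mul, div_mul_cancel₀ _ hlogβ.ne']
    linarith
  -- eventual facts
  have hlogn : Tendsto (fun n : ℕ => Real.log n) atTop atTop := Real.tendsto_log_atTop.comp tendsto_natCast_atTop_atTop
  have hlogt : Tendsto (fun n : ℕ => Real.log (Real.log n)) atTop atTop := Real.tendsto_log_atTop.comp hlogn
  have hy : Tendsto (fun t : ℝ => t / Real.log t) atTop atTop := by
    have h1 : Tendsto (fun t : ℝ => Real.log t / t) atTop (nhdsWithin 0 (Set.Ioi 0)) := by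
      rw [tendsto_nhdsWithin_iff]
      refine ⟨?_, ?_⟩
      · have := Real.isLittleO_log_id_atTop.tendsto_div_nhds_zero
        simpa using this
      · filter_upwards [eventually_gt_atTop 1] with t ht
        exact div_pos (Real.log_pos ht) (by linarith)
    have h2 := h1.inv_tendsto_nhdsGT_zero
    refine h2.congr (fun t => ?_)
    simp
  have hyn : Tendsto (fun n : ℕ => Real.log n / Real.log (Real.log n)) atTop atTop := hy.comp hlogn
  have hlin : ∀ᶠ n : ℕ in atTop, 2 * (k : ℝ) * (D * Real.log n + 1) ≤ n := by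
    have h1 : (fun n : ℕ => 2 * (k : ℝ) * (D * Real.log n + 1)) =o[atTop] (fun n : ℕ => (n : ℝ)) := by
      apply IsLittleO.const_mul_left
      apply IsLittleO.add
      · apply IsLittleO.const_mul_left
        exact Real.isLittleO_log_id_atTop.comp_tendsto tendsto_natCast_atTop_atTop
      · have : (fun n : ℕ => (1 : ℝ)) =o[atTop] (fun n : ℕ => (n : ℝ)) := by
          rw [isLittleO_const_left]
          right
          exact tendsto_norm_atTop_atTop.comp tendsto_natCast_atTop_atTop
        exact this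
    have h2 := h1.bound (show (0 : ℝ) < 1 by norm_num)
    filter_upwards [h2] with n hn
    rw [one_mul] at hn
    have h3 := le_trans (le_abs_self _) hn
    rwa [Real.norm_natCast] at h3
  apply IsBigO.of_bound (4 * k * D)
  filter_upwards [hlogn.eventually_ge_atTop 3, hlogt.eventually_ge_atTop 1, hyn.eventually_ge_atTop 1,
    hyn.eventually_ge_atTop M, hlin] with n ht hs hy1 hyM hlin
  set t := Real.log n with htdef
  set s := Real.log t with hsdef
  set y := t / s with hydef
  have hspos : 0 < s := by linarith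
  have htpos : 0 < t := by linarith
  have hypos : 0 < y := by linarith
  set m := ⌈D * y⌉₊ with hmdef
  have hm1 : D * y ≤ m := Nat.le_ceil _
  have hm2 : (m : ℝ) < D * y + 1 := Nat.ceil_lt_add_one (by positivity)
  have hyt : y ≤ t := by
    rw [hydef, div_le_iff₀ hspos]
    nlinarith
  have hyDy : y ≤ D * y := by nlinarith
  have hMm : M ≤ m := by
    have : (M : ℝ) ≤ m := le_trans hyM (le_trans hyDy hm1)
    exact_mod_cast this
  have hmpos : 0 < m := by omega
  set K := Nat.log M m with hKdef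
  have hK1 : 1 ≤ K := Nat.log_pos (by omega) hMm
  have hK2 : M ^ K ≤ m := Nat.pow_log_le_self M hmpos.ne'
  have hK3 : m < M ^ (K + 1) := Nat.lt_pow_succ_log_self (by omega) m
  -- `n ≤ β ^ (K m)`
  have hlogm : Real.log m ≤ 2 * K * Real.log M := by
    have h1 : (m : ℝ) ≤ (M : ℝ) ^ (K + 1) := by exact_mod_cast hK3.le
    have h2 : Real.log m ≤ Real.log ((M : ℝ) ^ (K + 1)) := Real.log_le_log (by exact_mod_cast hmpos) h1
    rw [Real.log_pow] at h2
    push_cast at h2
    have h3 : (1 : ℝ) ≤ K := by exact_mod_cast hK1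
    nlinarith
  have hlogm2 : s / 2 ≤ Real.log m := by
    have h1 : Real.log y ≤ Real.log m := Real.log_le_log hypos (le_trans hyDy hm1)
    have h2 : Real.log y = s - Real.log s := by
      rw [hydef, Real.log_div htpos.ne' hspos.ne']
    have h3 := log_le_half hspos
    linarith
  have hkey : t ≤ (K * m : ℕ) * Real.log β := by
    push_cast
    have hmR : (0 : ℝ) < m := by exact_mod_cast hmpos
    have hKR : (1 : ℝ) ≤ K := by exact_mod_cast hK1
    have h1 : s ≤ 4 * K * Real.log M := by linarith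
    -- D * y * s = D * t
    have h2 : D * t ≤ m * s := by
      have : D * t = (D * y) * s := by
        rw [hydef]; field_simp
      rw [this]
      exact mul_le_mul_of_nonneg_right hm1 hspos.le
    have h3 : D * t * Real.log β ≤ m * (4 * K * Real.log M) * Real.log β := by
      apply mul_le_mul_of_nonneg_right _ hlogβ.le
      exact le_trans h2 (mul_le_mul_of_nonneg_left h1 hmR.le)
    have h4 : 4 * Real.log M * t ≤ D * Real.log β * t := mul_le_mul_of_nonneg_right hDβ htpos.le
    have h5 : (4 * Real.log M) * t ≤ (4 * Real.log M) * (K * m * Real.log β) := by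
      calc (4 * Real.log M) * t ≤ D * Real.log β * t := h4
        _ = D * t * Real.log β := by ring
        _ ≤ m * (4 * K * Real.log M) * Real.log β := h3
        _ = _ := by ring
    exact le_of_mul_le_mul_left h5 (by positivity)
  have hnpos : (0 : ℝ) < n := by
    by_contra h
    have h0 : (n : ℝ) = 0 := le_antisymm (not_lt.mp h) (by positivity)
    rw [htdef, h0, Real.log_zero] at ht
    linarith
  have hn : (n : ℝ) ≤ β ^ (K * m) := by
    rw [← Real.log_le_log_iff hnpos (by positivity), Real.log_pow]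
    exact hkey
  have hkm : 2 * (k * m) ≤ n := by
    have : (2 : ℝ) * (k * m) ≤ n := by
      calc (2 : ℝ) * (k * m) ≤ 2 * (k * (D * t + 1)) := by
            have : (m : ℝ) ≤ D * t + 1 := by nlinarith
            have hk0 : (0 : ℝ) ≤ k := by positivity
            nlinarith
        _ = 2 * k * (D * t + 1) := by ring
        _ ≤ n := hlin
    exact_mod_cast this
  have hfin := hb K m n hK1 hK2 hkm hn
  rw [Real.norm_natCast, Real.norm_of_nonneg (by positivity)]
  calc (ssatE n G : ℝ) ≤ (2 * (k * m) * n : ℕ) := by exact_mod_cast hfin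
    _ = 2 * k * m * n := by push_cast; ring
    _ ≤ 2 * k * (2 * D * y) * n := by
        have : (m : ℝ) ≤ 2 * D * y := by nlinarith
        gcongr
    _ = 4 * k * D * (n * t / s) := by rw [hydef]; ring

end Pool.Agent.R83.EOSat
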