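import Mathlib

set_option autoImplicit false

/-!
# Counting lemmas for words
-/

namespace Pool.Agent.R83.EOCount

open Finset

/-- Tail bound: few functions `z : ι → Fin T` take the value `t` rarely on a given set `S`. -/
lemma tail {ι : Type} [Fintype ι] [DecidableEq ι] (T : ℕ) (hT : 1 ≤ T) (S : Finset ι) (t : Fin T) :
    ((univ.filter (fun z : ι → Fin T => 4 * T * (S.filter (fun s => z s = t)).card ≤ S.card)).card : ℝ)
      ≤ (T : ℝ) ^ (Fintype.card ι) * (1 - 1 / (4 * T)) ^ S.card := by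
  classical
  have hT' : (1 : ℝ) ≤ T := by exact_mod_cast hT
  set κ := S.card / (4 * T) with hκ
  -- the weight
  let g : ι → Fin T → ℝ := fun i c => if i ∈ S ∧ c = t then 1 / 2 else 1
  have hsum : ∑ z : ι → Fin T, ∏ i, g i (z i) = ∏ i : ι, ∑ c : Fin T, g i c := by
    rw [Finset.prod_univ_sum]
    simp [Fintype.piFinset_univ]
  have hinner : ∀ i : ι, ∑ c : Fin T, g i c = if i ∈ S then (T : ℝ) - 1 / 2 else T := by
    intro i
    by_cases hi : i ∈ S
    · have : ∀ c : Fin T, g i c = 1 - (if c = t then 1 / 2 else 0) := by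
        intro c
        simp only [g]
        by_cases hc : c = t
        · simp [hi, hc]; norm_num
        · simp [hc]
      simp only [this, Finset.sum_sub_distrib, Finset.sum_const, Finset.card_univ, Fintype.card_fin,
        nsmul_eq_mul, mul_one, Finset.sum_ite_eq', Finset.mem_univ, if_true, if_pos hi]
    · simp [g, hi]
  have hprod : ∏ i : ι, ∑ c : Fin T, g i c = (T : ℝ) ^ (Fintype.card ι) * (1 - 1 / (2 * T)) ^ S.card := by
    simp only [hinner]
    rw [Finset.prod_ite]
    simp only [Finset.prod_const]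
    have h1 : (univ.filter (fun i => i ∈ S)).card = S.card := by simp
    have h2 : (univ.filter (fun i => ¬ i ∈ S)).card = Fintype.card ι - S.card := by
      rw [Finset.filter_not, Finset.card_sdiff_of_subset (Finset.filter_subset _ _), h1, Finset.card_univ]
    rw [h1, h2]
    have h3 : (T : ℝ) - 1 / 2 = T * (1 - 1 / (2 * T)) := by
      field_simp
    rw [h3, mul_pow]
    have h4 : Fintype.card ι = (Fintype.card ι - S.card) + S.card :=
      (Nat.sub_add_cancel (Finset.card_le_univ S)).symm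
    conv_rhs => rw [h4, pow_add]
    ring
  -- weight of the bad functions
  have hw : ∀ z : ι → Fin T, ∏ i, g i (z i) = (1 / 2 : ℝ) ^ (S.filter (fun s => z s = t)).card := by
    intro z
    simp only [g]
    rw [Finset.prod_ite]
    simp only [Finset.prod_const, one_pow, mul_one]
    congr 2
    ext i
    simp
  have hpos : ∀ z : ι → Fin T, 0 ≤ ∏ i, g i (z i) := by
    intro z; rw [hw]; positivity
  have hbad : ((univ.filter (fun z : ι → Fin T => 4 * T * (S.filter (fun s => z s = t)).card ≤ S.card)).card : ℝ)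
      * (1 / 2) ^ κ ≤ (T : ℝ) ^ (Fintype.card ι) * (1 - 1 / (2 * T)) ^ S.card := by
    rw [← hprod, ← hsum, ← nsmul_eq_mul, ← Finset.sum_const]
    calc ∑ z ∈ univ.filter (fun z : ι → Fin T => 4 * T * (S.filter (fun s => z s = t)).card ≤ S.card), (1 / 2 : ℝ) ^ κ
        ≤ ∑ z ∈ univ.filter (fun z : ι → Fin T => 4 * T * (S.filter (fun s => z s = t)).card ≤ S.card),
            ∏ i, g i (z i) := by
          apply Finset.sum_le_sum
          intro z hz
          rw [hw]
          apply pow_le_pow_of_le_one (by norm_num) (by norm_num)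
          rw [hκ, Nat.le_div_iff_mul_le (by positivity)]
          rw [Finset.mem_filter] at hz
          rw [mul_comm]
          exact hz.2
      _ ≤ ∑ z : ι → Fin T, ∏ i, g i (z i) :=
          Finset.sum_le_sum_of_subset_of_nonneg (Finset.filter_subset _ _) (fun z _ _ => hpos z)
  have h2κ : (2 : ℝ) ^ κ ≤ (1 + 1 / (4 * T)) ^ S.card := by
    have hb : (2 : ℝ) ≤ (1 + 1 / (4 * T)) ^ (4 * T) := by
      have := one_add_mul_le_pow (R := ℝ) (a := 1 / (4 * T)) (by
        have : (0 : ℝ) ≤ 1 / (4 * T) := by positivity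
        linarith) (4 * T)
      have e : (1 : ℝ) + ((4 * T : ℕ) : ℝ) * (1 / (4 * T)) = 2 := by
        push_cast
        field_simp
        norm_num
      rw [e] at this
      exact this
    calc (2 : ℝ) ^ κ ≤ ((1 + 1 / (4 * T)) ^ (4 * T)) ^ κ := by
          apply pow_le_pow_left₀ (by norm_num) hb
      _ = (1 + 1 / (4 * T)) ^ (4 * T * κ) := by rw [← pow_mul]
      _ ≤ (1 + 1 / (4 * T)) ^ S.card := by
          apply pow_le_pow_right₀
          · have : (0 : ℝ) ≤ 1 / (4 * T) := by positivity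
            linarith
          · rw [hκ]; exact Nat.mul_div_le _ _
  have hq : (0 : ℝ) ≤ 1 - 1 / (2 * T) := by
    have : 1 / (2 * (T : ℝ)) ≤ 1 / 2 := by
      apply one_div_le_one_div_of_le (by norm_num)
      linarith
    linarith
  calc ((univ.filter (fun z : ι → Fin T => 4 * T * (S.filter (fun s => z s = t)).card ≤ S.card)).card : ℝ)
      = ((univ.filter (fun z : ι → Fin T => 4 * T * (S.filter (fun s => z s = t)).card ≤ S.card)).card : ℝ)
        * (1 / 2) ^ κ * 2 ^ κ := by
          rw [mul_assoc, ← mul_pow]; norm_num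
    _ ≤ ((T : ℝ) ^ (Fintype.card ι) * (1 - 1 / (2 * T)) ^ S.card) * (1 + 1 / (4 * T)) ^ S.card := by
          apply mul_le_mul hbad h2κ (by positivity)
          positivity
    _ = (T : ℝ) ^ (Fintype.card ι) * ((1 - 1 / (2 * T)) * (1 + 1 / (4 * T))) ^ S.card := by
          rw [mul_assoc, ← mul_pow]
    _ ≤ (T : ℝ) ^ (Fintype.card ι) * (1 - 1 / (4 * T)) ^ S.card := by
          apply mul_le_mul_of_nonneg_left _ (by positivity)
          apply pow_le_pow_left₀ (by positivity)
          have : 1 / (2 * (T : ℝ)) = 2 * (1 / (4 * T)) := by field_simp; norm_num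
          rw [this]
          have h0 : (0 : ℝ) ≤ 1 / (4 * T) := by positivity
          nlinarith

/-- Number of coordinates where `w` takes the value `α` and `w'` the value `β`. -/
noncomputable def cnt {ι : Type} [Fintype ι] [DecidableEq ι] {q : ℕ} (w w' : ι → Fin q) (α β : Fin q) : ℕ :=
  (univ.filter (fun x => w x = α ∧ w' x = β)).card

lemma cnt_comm {ι : Type} [Fintype ι] [DecidableEq ι] {q : ℕ} (w w' : ι → Fin q) (α β : Fin q) :
    cnt w w' α β = cnt w' w β α := by
  unfold cnt
  congr 1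
  ext x
  simp [and_comm]

/-- Exponentially large codes of balanced words, any two of which are rich with respect to each other. -/
lemma code (q : ℕ) (hq : 2 ≤ q) : ∃ b : ℝ, 1 < b ∧ ∃ x0 : ℕ, ∀ (ι : Type) [Fintype ι] [DecidableEq ι],
    x0 ≤ Fintype.card ι → ∃ W : Finset (ι → Fin q), b ^ (Fintype.card ι) ≤ (W.card : ℝ) ∧
      (∀ w ∈ W, ∀ α, Fintype.card ι < 4 * q * (univ.filter (fun x => w x = α)).card) ∧
      (∀ w ∈ W, ∀ w' ∈ W, w ≠ w' → ∀ α β, Fintype.card ι < 16 * q ^ 2 * cnt w w' α β) := by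
  classical
  have hq2 : (2 : ℝ) ≤ q := by exact_mod_cast hq
  have hq0 : (0 : ℝ) < q := by linarith
  set ρ : ℝ := 1 - 1 / (4 * q) with hρ
  have h4q : (0 : ℝ) < 1 / (4 * q) := by positivity
  have h4q' : 1 / (4 * (q : ℝ)) ≤ 1 / 8 := by
    apply one_div_le_one_div_of_le (by norm_num); linarith
  have hρ0 : 0 < ρ := by rw [hρ]; linarith
  have hρ1 : ρ < 1 := by rw [hρ]; linarith
  set b0 : ℝ := (1 / ρ) ^ (((4 * q : ℕ) : ℝ)⁻¹) with hb0
  have h1ρ : 1 < 1 / ρ := by
    rw [lt_div_iff₀ hρ0]; linarith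
  have hb0pow : b0 ^ (4 * q) = 1 / ρ := by
    rw [hb0]
    apply Real.rpow_inv_natCast_pow (by positivity)
    omega
  have hb01 : 1 < b0 := by
    rw [hb0]
    apply Real.one_lt_rpow h1ρ
    positivity
  set b : ℝ := Real.sqrt b0 with hb
  have hb1 : 1 < b := by
    rw [hb, Real.lt_sqrt (by norm_num)]
    simpa using hb01
  have hbb : b * b = b0 := Real.mul_self_sqrt (by linarith)
  have ht1 : Filter.Tendsto (fun n : ℕ => b ^ n) Filter.atTop Filter.atTop := tendsto_pow_atTop_atTop_of_one_lt hb1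
  have ht2 : Filter.Tendsto (fun n : ℕ => (q : ℝ) * ρ ^ n) Filter.atTop (nhds (q * 0)) :=
    (tendsto_pow_atTop_nhds_zero_of_lt_one hρ0.le hρ1).const_mul _
  rw [mul_zero] at ht2
  obtain ⟨x1, hx1⟩ := Filter.eventually_atTop.mp (ht1.eventually_ge_atTop (2 * (q : ℝ) ^ 2))
  obtain ⟨x2, hx2⟩ := Filter.eventually_atTop.mp (ht2.eventually_le_const (show (0 : ℝ) < 1 / 2 by norm_num))
  refine ⟨b, hb1, max x1 x2, ?_⟩
  intro ι _ _ hι
  set n := Fintype.card ι with hn
  have hnx1 : 2 * (q : ℝ) ^ 2 ≤ b ^ n := hx1 n (le_trans (le_max_left _ _) hι)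
  have hnx2 : (q : ℝ) * ρ ^ n ≤ 1 / 2 := hx2 n (le_trans (le_max_right _ _) hι)
  set Bal : Finset (ι → Fin q) := univ.filter (fun w => ∀ α, n < 4 * q * (univ.filter (fun x => w x = α)).card) with hBal
  have hunbal : ((univ.filter (fun w : ι → Fin q => ¬ ∀ α, n < 4 * q * (univ.filter (fun x => w x = α)).card)).card : ℝ)
      ≤ q * ((q : ℝ) ^ n * ρ ^ n) := by
    have hsub : (univ.filter (fun w : ι → Fin q => ¬ ∀ α, n < 4 * q * (univ.filter (fun x => w x = α)).card)) ⊆
        (univ : Finset (Fin q)).biUnion (fun α => univ.filter (fun w : ι → Fin q =>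
          4 * q * ((univ : Finset ι).filter (fun x => w x = α)).card ≤ (univ : Finset ι).card)) := by
      intro w hw
      rw [Finset.mem_filter] at hw
      obtain ⟨α, hα⟩ := not_forall.mp hw.2
      rw [Finset.mem_biUnion]
      refine ⟨α, mem_univ _, ?_⟩
      rw [Finset.mem_filter]
      refine ⟨mem_univ _, ?_⟩
      rw [Finset.card_univ]
      exact not_lt.mp hα
    calc ((univ.filter (fun w : ι → Fin q => ¬ ∀ α, n < 4 * q * (univ.filter (fun x => w x = α)).card)).card : ℝ)
        ≤ (((univ : Finset (Fin q)).biUnion (fun α => univ.filter (fun w : ι → Fin q =>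
          4 * q * ((univ : Finset ι).filter (fun x => w x = α)).card ≤ (univ : Finset ι).card))).card : ℝ) := by
          exact_mod_cast Finset.card_le_card hsub
      _ ≤ ∑ α : Fin q, ((univ.filter (fun w : ι → Fin q =>
          4 * q * ((univ : Finset ι).filter (fun x => w x = α)).card ≤ (univ : Finset ι).card)).card : ℝ) := by
          exact_mod_cast Finset.card_biUnion_le
      _ ≤ ∑ α : Fin q, ((q : ℝ) ^ n * ρ ^ n) := by
          apply Finset.sum_le_sum
          intro α _
          have := tail (ι := ι) q (by omega) univ α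
          rw [Finset.card_univ] at this
          exact this
      _ = q * ((q : ℝ) ^ n * ρ ^ n) := by simp
  have hBalcard : (q : ℝ) ^ n / 2 ≤ Bal.card := by
    have htot : (Bal.card : ℝ) + ((univ.filter (fun w : ι → Fin q => ¬ ∀ α, n < 4 * q * (univ.filter (fun x => w x = α)).card)).card : ℝ)
        = (q : ℝ) ^ n := by
      have := Finset.card_filter_add_card_filter_not (s := (univ : Finset (ι → Fin q))) (fun w => ∀ α, n < 4 * q * (univ.filter (fun x => w x = α)).card)
      have h2 : (univ : Finset (ι → Fin q)).card = q ^ n := by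
        rw [Finset.card_univ, Fintype.card_fun, Fintype.card_fin]
      rw [h2] at this
      exact_mod_cast this
    have hqn : (0 : ℝ) < (q : ℝ) ^ n := by positivity
    nlinarith
  -- the words which are not rich with respect to `w`
  let bad : (ι → Fin q) → Finset (ι → Fin q) := fun w => univ.filter (fun w' => ¬ ∀ α β, n < 16 * q ^ 2 * cnt w w' α β)
  have hbad : ∀ w ∈ Bal, ((bad w).card : ℝ) * b0 ^ n ≤ q ^ 2 * (q : ℝ) ^ n := by
    intro w hw
    rw [hBal, Finset.mem_filter] at hw
    have hw := hw.2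
    have hsub : bad w ⊆ (univ : Finset (Fin q × Fin q)).biUnion (fun p => univ.filter (fun w' : ι → Fin q =>
          4 * q * (((univ : Finset ι).filter (fun x => w x = p.1)).filter (fun x => w' x = p.2)).card ≤
            ((univ : Finset ι).filter (fun x => w x = p.1)).card)) := by
      intro w' hw'
      simp only [bad, Finset.mem_filter, mem_univ, true_and, not_forall] at hw'
      obtain ⟨α, β, hαβ⟩ := hw'
      rw [Finset.mem_biUnion]
      refine ⟨(α, β), mem_univ _, ?_⟩
      rw [Finset.mem_filter]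
      refine ⟨mem_univ _, ?_⟩
      rw [Finset.filter_filter]
      have h1 := not_lt.mp hαβ
      have h2 := hw α
      unfold cnt at h1
      have h3 : 4 * q * (4 * q * ((univ : Finset ι).filter (fun x => w x = α ∧ w' x = β)).card)
          < 4 * q * ((univ : Finset ι).filter (fun x => w x = α)).card := by
        calc 4 * q * (4 * q * ((univ : Finset ι).filter (fun x => w x = α ∧ w' x = β)).card)
            = 16 * q ^ 2 * ((univ : Finset ι).filter (fun x => w x = α ∧ w' x = β)).card := by ring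
          _ ≤ n := h1
          _ < _ := h2
      exact (Nat.lt_of_mul_lt_mul_left h3).le
    have h1 : ((bad w).card : ℝ) ≤ ∑ p : Fin q × Fin q, (q : ℝ) ^ n * ρ ^ ((univ : Finset ι).filter (fun x => w x = p.1)).card := by
      calc ((bad w).card : ℝ) ≤ (((univ : Finset (Fin q × Fin q)).biUnion (fun p => univ.filter (fun w' : ι → Fin q =>
          4 * q * (((univ : Finset ι).filter (fun x => w x = p.1)).filter (fun x => w' x = p.2)).card ≤
            ((univ : Finset ι).filter (fun x => w x = p.1)).card))).card : ℝ) := by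
            exact_mod_cast Finset.card_le_card hsub
        _ ≤ ∑ p : Fin q × Fin q, ((univ.filter (fun w' : ι → Fin q =>
          4 * q * (((univ : Finset ι).filter (fun x => w x = p.1)).filter (fun x => w' x = p.2)).card ≤
            ((univ : Finset ι).filter (fun x => w x = p.1)).card)).card : ℝ) := by
            exact_mod_cast Finset.card_biUnion_le
        _ ≤ _ := by
            apply Finset.sum_le_sum
            intro p _
            exact tail (ι := ι) q (by omega) _ p.2
    have h2 : ∀ p : Fin q × Fin q, ρ ^ ((univ : Finset ι).filter (fun x => w x = p.1)).card * b0 ^ n ≤ 1 := by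
      intro p
      set s := ((univ : Finset ι).filter (fun x => w x = p.1)).card with hs
      have h3 : b0 ^ n ≤ (1 / ρ) ^ s := by
        rw [← hb0pow, ← pow_mul]
        apply pow_le_pow_right₀ hb01.le
        exact (hw p.1).le
      calc ρ ^ s * b0 ^ n ≤ ρ ^ s * (1 / ρ) ^ s := mul_le_mul_of_nonneg_left h3 (by positivity)
        _ = 1 := by rw [← mul_pow, mul_one_div_cancel hρ0.ne', one_pow]
    calc ((bad w).card : ℝ) * b0 ^ n ≤ (∑ p : Fin q × Fin q, (q : ℝ) ^ n * ρ ^ ((univ : Finset ι).filter (fun x => w x = p.1)).card) * b0 ^ n :=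
          mul_le_mul_of_nonneg_right h1 (by positivity)
      _ = ∑ p : Fin q × Fin q, (q : ℝ) ^ n * (ρ ^ ((univ : Finset ι).filter (fun x => w x = p.1)).card * b0 ^ n) := by
          rw [Finset.sum_mul]
          apply Finset.sum_congr rfl
          intro p _
          ring
      _ ≤ ∑ p : Fin q × Fin q, (q : ℝ) ^ n * 1 := by
          apply Finset.sum_le_sum
          intro p _
          exact mul_le_mul_of_nonneg_left (h2 p) (by positivity)
      _ = q ^ 2 * (q : ℝ) ^ n := by
          simp [pow_two]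
  -- a maximal family
  obtain ⟨W, hW, hmax⟩ := Finset.exists_max_image
    ((univ : Finset (Finset (ι → Fin q))).filter (fun W => W ⊆ Bal ∧
      ∀ w ∈ W, ∀ w' ∈ W, w ≠ w' → ∀ α β, n < 16 * q ^ 2 * cnt w w' α β)) Finset.card
    ⟨∅, by simp⟩
  rw [Finset.mem_filter] at hW
  obtain ⟨-, hWB, hWr⟩ := hW
  have hcover : Bal ⊆ W.biUnion bad := by
    intro w' hw'
    by_contra hcon
    rw [Finset.mem_biUnion] at hcon
    push Not at hcon
    have hrich : ∀ w ∈ W, ∀ α β, n < 16 * q ^ 2 * cnt w w' α β := by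
      intro w hw
      have := hcon w hw
      simpa [bad] using this
    have hnot : w' ∉ W := by
      intro hmem
      have h0 := hrich w' hmem ⟨0, by omega⟩ ⟨1, by omega⟩
      have : cnt w' w' ⟨0, by omega⟩ ⟨1, by omega⟩ = 0 := by
        unfold cnt
        rw [Finset.card_eq_zero, Finset.filter_eq_empty_iff]
        intro x _ hx
        rw [hx.1] at hx
        simp at hx
      rw [this] at h0
      omega
    have hin : insert w' W ∈ ((univ : Finset (Finset (ι → Fin q))).filter (fun W => W ⊆ Bal ∧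
      ∀ w ∈ W, ∀ w' ∈ W, w ≠ w' → ∀ α β, n < 16 * q ^ 2 * cnt w w' α β)) := by
      rw [Finset.mem_filter]
      refine ⟨mem_univ _, ?_, ?_⟩
      · intro w hw
        rw [Finset.mem_insert] at hw
        rcases hw with rfl | hw
        · exact hw'
        · exact hWB hw
      · intro w hw w'' hw'' hne α β
        rw [Finset.mem_insert] at hw hw''
        rcases hw with rfl | hw
        · rcases hw'' with rfl | hw''
          · exact absurd rfl hne
          · rw [cnt_comm]
            exact hrich w'' hw'' β α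
        · rcases hw'' with rfl | hw''
          · exact hrich w hw α β
          · exact hWr w hw w'' hw'' hne α β
    have := hmax _ hin
    rw [Finset.card_insert_of_notMem hnot] at this
    omega
  refine ⟨W, ?_, ?_, hWr⟩
  · have h1 : (Bal.card : ℝ) * b0 ^ n ≤ (W.card : ℝ) * (q ^ 2 * (q : ℝ) ^ n) := by
      calc (Bal.card : ℝ) * b0 ^ n ≤ (∑ w ∈ W, ((bad w).card : ℝ)) * b0 ^ n := by
            apply mul_le_mul_of_nonneg_right _ (by positivity)
            exact_mod_cast le_trans (Finset.card_le_card hcover) Finset.card_biUnion_le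
        _ = ∑ w ∈ W, ((bad w).card : ℝ) * b0 ^ n := by rw [Finset.sum_mul]
        _ ≤ ∑ w ∈ W, (q ^ 2 * (q : ℝ) ^ n) := by
            apply Finset.sum_le_sum
            intro w hw
            exact hbad w (hWB hw)
        _ = (W.card : ℝ) * (q ^ 2 * (q : ℝ) ^ n) := by simp
    have h2 : (q : ℝ) ^ n / 2 * b0 ^ n ≤ (W.card : ℝ) * (q ^ 2 * (q : ℝ) ^ n) :=
      le_trans (mul_le_mul_of_nonneg_right hBalcard (by positivity)) h1
    have hqn : (0 : ℝ) < (q : ℝ) ^ n := by positivity
    have h3 : b0 ^ n ≤ 2 * q ^ 2 * (W.card : ℝ) := by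
      have : (q : ℝ) ^ n * b0 ^ n ≤ (q : ℝ) ^ n * (2 * q ^ 2 * (W.card : ℝ)) := by nlinarith
      exact le_of_mul_le_mul_left this hqn
    have h4 : b0 ^ n = b ^ n * b ^ n := by rw [← hbb, mul_pow]
    have h5 : 0 < b ^ n := by positivity
    have h6 : b ^ n * (2 * (q : ℝ) ^ 2) ≤ 2 * q ^ 2 * (W.card : ℝ) := by
      calc b ^ n * (2 * (q : ℝ) ^ 2) ≤ b ^ n * b ^ n := mul_le_mul_of_nonneg_left hnx1 h5.le
        _ ≤ _ := by rw [← h4]; exact h3
    have h7 : (0 : ℝ) < 2 * (q : ℝ) ^ 2 := by positivity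
    have h8 : (2 * (q : ℝ) ^ 2) * b ^ n ≤ (2 * (q : ℝ) ^ 2) * (W.card : ℝ) := by linarith
    exact le_of_mul_le_mul_left h8 h7
  · intro w hw α
    have := hWB hw
    rw [hBal, Finset.mem_filter] at this
    exact this.2 α

/-- Universal labellings of the pairs of a blown up vertex set. -/
lemma universal (V : Type) [Fintype V] [DecidableEq V] (m T E : ℕ) (hT : 1 ≤ T) (hE : 1 ≤ E)
    (hm : 12 * (Fintype.card V + 1) ^ 2 * T * E ^ 2 ≤ m) :
    ∃ z : Sym2 (V × Fin m) → Fin T, ∀ c c' : V, c ≠ c' → ∀ X Y : Finset (Fin m),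
      m ≤ E * X.card → m ≤ E * Y.card → ∀ t,
        X.card * Y.card < 4 * T * ((X ×ˢ Y).filter (fun p => z s((c, p.1), (c', p.2)) = t)).card := by
  classical
  set k := Fintype.card V with hk
  by_contra hcon
  push Not at hcon
  set N := Fintype.card (Sym2 (V × Fin m)) with hN
  set ρ : ℝ := 1 - 1 / (4 * T) with hρ
  have hT' : (1 : ℝ) ≤ T := by exact_mod_cast hT
  have hE' : (1 : ℝ) ≤ E := by exact_mod_cast hE
  have hm1 : 1 ≤ m := by
    refine le_trans ?_ hm
    have : 0 < 12 * (k + 1) ^ 2 * T * E ^ 2 := by positivity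
    omega
  have hρ0 : 0 ≤ ρ := by
    have : 1 / (4 * (T : ℝ)) ≤ 1 / 4 := by
      apply one_div_le_one_div_of_le (by norm_num); linarith
    rw [hρ]; linarith
  let S : V → V → Finset (Fin m) → Finset (Fin m) → Finset (Sym2 (V × Fin m)) := fun c c' X Y =>
    (X ×ˢ Y).image (fun p => s((c, p.1), (c', p.2)))
  have hinj : ∀ c c' : V, c ≠ c' → Function.Injective (fun p : Fin m × Fin m => s((c, p.1), (c', p.2))) := by
    intro c c' hcc p p' h
    simp only [Sym2.eq_iff, Prod.mk.injEq] at h
    rcases h with ⟨⟨_, h1⟩, _, h2⟩ | ⟨⟨h1, _⟩, _⟩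
    · exact Prod.ext h1 h2
    · exact absurd h1 hcc
  have hScard : ∀ c c' : V, c ≠ c' → ∀ X Y, (S c c' X Y).card = X.card * Y.card := by
    intro c c' hcc X Y
    rw [Finset.card_image_of_injective _ (hinj c c' hcc), Finset.card_product]
  have hSf : ∀ c c' : V, c ≠ c' → ∀ X Y, ∀ z : Sym2 (V × Fin m) → Fin T, ∀ t,
      ((S c c' X Y).filter (fun s => z s = t)).card = ((X ×ˢ Y).filter (fun p => z s((c, p.1), (c', p.2)) = t)).card := by
    intro c c' hcc X Y z t
    rw [Finset.filter_image, Finset.card_image_of_injective _ (hinj c c' hcc)]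
  let J : Finset (V × V × Finset (Fin m) × Finset (Fin m) × Fin T) :=
    univ.filter (fun j => j.1 ≠ j.2.1 ∧ m ≤ E * j.2.2.1.card ∧ m ≤ E * j.2.2.2.1.card)
  let B : (V × V × Finset (Fin m) × Finset (Fin m) × Fin T) → Finset (Sym2 (V × Fin m) → Fin T) := fun j =>
    univ.filter (fun z => 4 * T * ((S j.1 j.2.1 j.2.2.1 j.2.2.2.1).filter (fun s => z s = j.2.2.2.2)).card ≤
      (S j.1 j.2.1 j.2.2.1 j.2.2.2.1).card)
  have hcover : (univ : Finset (Sym2 (V × Fin m) → Fin T)) ⊆ J.biUnion B := by
    intro z _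
    obtain ⟨c, c', hcc, X, Y, hX, hY, t, ht⟩ := hcon z
    rw [Finset.mem_biUnion]
    refine ⟨(c, c', X, Y, t), ?_, ?_⟩
    · simp only [J, Finset.mem_filter, mem_univ, true_and]
      exact ⟨hcc, hX, hY⟩
    · simp only [B, Finset.mem_filter, mem_univ, true_and]
      rw [hSf c c' hcc, hScard c c' hcc]
      exact ht
  have hBcard : ∀ j ∈ J, ((B j).card : ℝ) ≤ (T : ℝ) ^ N * Real.exp (-(3 * (k + 1) ^ 2 * m)) := by
    intro j hj
    simp only [J, Finset.mem_filter, mem_univ, true_and] at hj
    obtain ⟨hcc, hX, hY⟩ := hj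
    have h1 := tail (ι := Sym2 (V × Fin m)) T hT (S j.1 j.2.1 j.2.2.1 j.2.2.2.1) j.2.2.2.2
    refine le_trans h1 ?_
    apply mul_le_mul_of_nonneg_left _ (by positivity)
    rw [hScard _ _ hcc]
    have hX' : (m : ℝ) ≤ E * j.2.2.1.card := by exact_mod_cast hX
    have hY' : (m : ℝ) ≤ E * j.2.2.2.1.card := by exact_mod_cast hY
    have hm' : 12 * ((k : ℝ) + 1) ^ 2 * T * E ^ 2 ≤ m := by exact_mod_cast hm
    have hprod : (m : ℝ) * m ≤ E ^ 2 * (j.2.2.1.card * j.2.2.2.1.card) := by
      calc (m : ℝ) * m ≤ (E * j.2.2.1.card) * (E * j.2.2.2.1.card) := by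
            apply mul_le_mul hX' hY' (by positivity) (by positivity)
        _ = _ := by ring
    have h2 : 3 * ((k : ℝ) + 1) ^ 2 * m ≤ (1 / (4 * T)) * (j.2.2.1.card * j.2.2.2.1.card : ℕ) := by
      push_cast
      rw [one_div, inv_mul_eq_div, le_div_iff₀ (by positivity)]
      have hE2 : (0 : ℝ) < E ^ 2 := by positivity
      have : E ^ 2 * (3 * ((k : ℝ) + 1) ^ 2 * m * (4 * T)) ≤ E ^ 2 * (j.2.2.1.card * j.2.2.2.1.card) := by
        calc (E : ℝ) ^ 2 * (3 * ((k : ℝ) + 1) ^ 2 * m * (4 * T)) = (12 * ((k : ℝ) + 1) ^ 2 * T * E ^ 2) * m := by ring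
          _ ≤ (m : ℝ) * m := mul_le_mul_of_nonneg_right hm' (by positivity)
          _ ≤ _ := hprod
      exact le_of_mul_le_mul_left this hE2
    have h3 : 1 - 1 / (4 * (T : ℝ)) ≤ Real.exp (-(1 / (4 * T))) := Real.one_sub_le_exp_neg _
    calc (1 - 1 / (4 * (T : ℝ))) ^ (j.2.2.1.card * j.2.2.2.1.card)
        ≤ (Real.exp (-(1 / (4 * T)))) ^ (j.2.2.1.card * j.2.2.2.1.card) := pow_le_pow_left₀ hρ0 h3 _
      _ = Real.exp (-((1 / (4 * T)) * (j.2.2.1.card * j.2.2.2.1.card : ℕ))) := by
          rw [← Real.exp_nat_mul]; congr 1; ring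
      _ ≤ _ := by
          apply Real.exp_le_exp.mpr
          linarith
  have hJ : (J.card : ℝ) ≤ (k : ℝ) ^ 2 * 4 ^ m * T := by
    have h1 : J.card ≤ k * (k * (2 ^ m * (2 ^ m * T))) := by
      refine le_trans (Finset.card_filter_le _ _) ?_
      rw [Finset.card_univ]
      simp [Fintype.card_prod, ← hk]
    have h2 : ((k * (k * (2 ^ m * (2 ^ m * T))) : ℕ) : ℝ) = (k : ℝ) ^ 2 * 4 ^ m * T := by
      push_cast
      have : (4 : ℝ) ^ m = 2 ^ m * 2 ^ m := by rw [← mul_pow]; norm_num
      rw [this]; ring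
    rw [← h2]
    exact_mod_cast h1
  have htotal : (T : ℝ) ^ N ≤ (J.card : ℝ) * ((T : ℝ) ^ N * Real.exp (-(3 * (k + 1) ^ 2 * m))) := by
    have h1 : (T : ℝ) ^ N = ((univ : Finset (Sym2 (V × Fin m) → Fin T)).card : ℝ) := by
      rw [Finset.card_univ, Fintype.card_fun, Fintype.card_fin, ← hN]
      push_cast
      ring
    conv_lhs => rw [h1]
    calc ((univ : Finset (Sym2 (V × Fin m) → Fin T)).card : ℝ) ≤ ∑ j ∈ J, ((B j).card : ℝ) := by
          exact_mod_cast le_trans (Finset.card_le_card hcover) Finset.card_biUnion_le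
      _ ≤ ∑ j ∈ J, ((T : ℝ) ^ N * Real.exp (-(3 * (k + 1) ^ 2 * m))) := Finset.sum_le_sum hBcard
      _ = _ := by rw [Finset.sum_const, nsmul_eq_mul]
  have hTN : (0 : ℝ) < (T : ℝ) ^ N := by positivity
  have h1 : (1 : ℝ) ≤ (k : ℝ) ^ 2 * 4 ^ m * T * Real.exp (-(3 * (k + 1) ^ 2 * m)) := by
    have : (T : ℝ) ^ N * 1 ≤ (T : ℝ) ^ N * ((k : ℝ) ^ 2 * 4 ^ m * T * Real.exp (-(3 * (k + 1) ^ 2 * m))) := by
      calc (T : ℝ) ^ N * 1 ≤ (J.card : ℝ) * ((T : ℝ) ^ N * Real.exp (-(3 * (k + 1) ^ 2 * m))) := by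
            rw [mul_one]; exact htotal
        _ ≤ ((k : ℝ) ^ 2 * 4 ^ m * T) * ((T : ℝ) ^ N * Real.exp (-(3 * (k + 1) ^ 2 * m))) :=
            mul_le_mul_of_nonneg_right hJ (by positivity)
        _ = _ := by ring
    exact le_of_mul_le_mul_left this hTN
  have hk2 : (k : ℝ) ^ 2 < Real.exp (2 * k) := by
    have := Real.add_one_le_exp (k : ℝ)
    have h0 : (k : ℝ) < Real.exp k := by linarith
    calc (k : ℝ) ^ 2 < (Real.exp k) ^ 2 := by
          apply pow_lt_pow_left₀ h0 (by positivity) (by norm_num)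
      _ = Real.exp (2 * k) := by rw [← Real.exp_nat_mul]; norm_num
  have h4 : (4 : ℝ) ^ m ≤ Real.exp (2 * m) := by
    have h0 : (4 : ℝ) ≤ Real.exp 2 := by
      have h1 := Real.exp_one_gt_d9
      have h2 : Real.exp 2 = Real.exp 1 * Real.exp 1 := by rw [← Real.exp_add]; norm_num
      rw [h2]
      nlinarith
    calc (4 : ℝ) ^ m ≤ (Real.exp 2) ^ m := pow_le_pow_left₀ (by norm_num) h0 _
      _ = Real.exp (2 * m) := by rw [← Real.exp_nat_mul]; congr 1; ring
  have hTm : (T : ℝ) ≤ Real.exp m := by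
    have h0 : (T : ℝ) ≤ m := by
      have : T ≤ m := by
        refine le_trans ?_ hm
        have h5 : 1 ≤ 12 * (k + 1) ^ 2 := by
          have : 0 < 12 * (k + 1) ^ 2 := by positivity
          omega
        have h6 : 1 ≤ E ^ 2 := Nat.one_le_pow _ _ hE
        calc T = 1 * T * 1 := by ring
          _ ≤ 12 * (k + 1) ^ 2 * T * E ^ 2 := Nat.mul_le_mul (Nat.mul_le_mul_right _ h5) h6
      exact_mod_cast this
    have := Real.add_one_le_exp (m : ℝ)
    linarith
  have h5 : (k : ℝ) ^ 2 * 4 ^ m * T * Real.exp (-(3 * (k + 1) ^ 2 * m)) < 1 := by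
    have hmpos : (1 : ℝ) ≤ m := by exact_mod_cast hm1
    have hk0 : (0 : ℝ) ≤ k := by positivity
    calc (k : ℝ) ^ 2 * 4 ^ m * T * Real.exp (-(3 * (k + 1) ^ 2 * m))
        < Real.exp (2 * k) * Real.exp (2 * m) * Real.exp m * Real.exp (-(3 * (k + 1) ^ 2 * m)) := by
          apply mul_lt_mul_of_pos_right _ (Real.exp_pos _)
          calc (k : ℝ) ^ 2 * 4 ^ m * T ≤ (k : ℝ) ^ 2 * (Real.exp (2 * m) * Real.exp m) := by
                rw [mul_assoc]
                apply mul_le_mul_of_nonneg_left _ (by positivity)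
                exact mul_le_mul h4 hTm (by positivity) (by positivity)
            _ < Real.exp (2 * k) * (Real.exp (2 * m) * Real.exp m) := by
                apply mul_lt_mul_of_pos_right hk2 (by positivity)
            _ = _ := by ring
      _ = Real.exp (2 * k + 2 * m + m - 3 * (k + 1) ^ 2 * m) := by
          rw [← Real.exp_add, ← Real.exp_add, ← Real.exp_add]
          congr 1
      _ ≤ Real.exp 0 := by
          apply Real.exp_le_exp.mpr
          nlinarith [mul_nonneg hk0 (by linarith : (0 : ℝ) ≤ m - 1), mul_nonneg (mul_nonneg hk0 hk0) (by linarith : (0 : ℝ) ≤ m)]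
      _ = 1 := Real.exp_zero
  linarith

/-- The universality property of a labelling of pairs. -/
def Univ {V : Type} {m T : ℕ} (E : ℕ) (z : Sym2 (V × Fin m) → Fin T) : Prop :=
  ∀ c c' : V, c ≠ c' → ∀ X Y : Finset (Fin m), m ≤ E * X.card → m ≤ E * Y.card → ∀ t,
    X.card * Y.card < 4 * T * ((X ×ˢ Y).filter (fun p => z s((c, p.1), (c', p.2)) = t)).card

/-- Greedy embedding of a labelled complete graph. -/
lemma greedy {V : Type} [Fintype V] [DecidableEq V] {m T : ℕ} (E : ℕ) (hT : 1 ≤ T) (hm : 1 ≤ m)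
    (z : Sym2 (V × Fin m) → Fin T) (hz : Univ E z) (tgt : Sym2 V → Fin T) :
    ∀ U : Finset V, ∀ X : V → Finset (Fin m),
      (∀ c ∈ U, m * (Fintype.card V + 1) * (4 * T) ^ U.card ≤ E * (X c).card) →
      ∃ x : V → Fin m, (∀ c ∈ U, x c ∈ X c) ∧
        ∀ c ∈ U, ∀ c' ∈ U, c ≠ c' → z s((c, x c), (c', x c')) = tgt s(c, c') := by
  classical
  intro U
  induction U using Finset.induction_on with
  | empty =>
    intro X _
    exact ⟨fun _ => ⟨0, hm⟩, by simp, by simp⟩
  | insert c0 U hc0 ih =>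
    intro X hX
    set k := Fintype.card V with hk
    have hUk : U.card ≤ k := Finset.card_le_univ U
    have hcard : (insert c0 U).card = U.card + 1 := Finset.card_insert_of_notMem hc0
    rw [hcard] at hX
    have h4T : 1 ≤ (4 * T) ^ (U.card + 1) := Nat.one_le_pow _ _ (by omega)
    have hbig : ∀ c ∈ insert c0 U, m * (k + 1) ≤ E * (X c).card := by
      intro c hc
      calc m * (k + 1) = m * (k + 1) * 1 := by ring
        _ ≤ m * (k + 1) * (4 * T) ^ (U.card + 1) := Nat.mul_le_mul_left _ h4T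
        _ ≤ _ := hX c hc
    let nb : V → Fin m → Finset (Fin m) := fun c y => (X c).filter (fun y' => z s((c0, y), (c, y')) = tgt s(c0, c))
    let bad : V → Finset (Fin m) := fun c => (X c0).filter (fun y => 4 * T * (nb c y).card < (X c).card)
    have hbad : ∀ c ∈ U, E * (bad c).card < m := by
      intro c hc
      by_contra hcon
      push Not at hcon
      have hne : c0 ≠ c := by rintro rfl; exact hc0 hc
      have hXc : m ≤ E * (X c).card := by
        refine le_trans ?_ (hbig c (Finset.mem_insert_of_mem hc))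
        nlinarith
      have h1 := hz c0 c hne (bad c) (X c) hcon hXc (tgt s(c0, c))
      have h2 : ((bad c ×ˢ X c).filter (fun p => z s((c0, p.1), (c, p.2)) = tgt s(c0, c))).card =
          ∑ y ∈ bad c, (nb c y).card := by
        have : (bad c ×ˢ X c).filter (fun p => z s((c0, p.1), (c, p.2)) = tgt s(c0, c)) =
            (bad c).biUnion (fun y => (nb c y).image (fun y' => (y, y'))) := by
          ext ⟨y, y'⟩
          simp only [Finset.mem_filter, Finset.mem_product, Finset.mem_biUnion, Finset.mem_image, nb, Prod.mk.injEq]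
          constructor
          · rintro ⟨⟨h1, h2⟩, h3⟩
            exact ⟨y, h1, y', ⟨h2, h3⟩, rfl, rfl⟩
          · rintro ⟨a, ha, b, ⟨hb1, hb2⟩, rfl, rfl⟩
            exact ⟨⟨ha, hb1⟩, hb2⟩
        rw [this, Finset.card_biUnion]
        · apply Finset.sum_congr rfl
          intro y _
          exact Finset.card_image_of_injective _ (fun a b h => (Prod.mk.injEq _ _ _ _ ▸ h).2)
        · intro y _ y' _ hyy
          rw [Function.onFun, Finset.disjoint_left]
          rintro ⟨a, b⟩ h1 h2
          rw [Finset.mem_image] at h1 h2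
          obtain ⟨_, _, h1⟩ := h1
          obtain ⟨_, _, h2⟩ := h2
          rw [Prod.mk.injEq] at h1 h2
          exact hyy (h1.1.trans h2.1.symm)
      rw [h2, Finset.mul_sum] at h1
      have h3 : ∑ y ∈ bad c, 4 * T * (nb c y).card ≤ ∑ y ∈ bad c, (X c).card := by
        apply Finset.sum_le_sum
        intro y hy
        simp only [bad, Finset.mem_filter] at hy
        exact hy.2.le
      rw [Finset.sum_const, smul_eq_mul] at h3
      omega
    obtain ⟨y, hyX, hyb⟩ : ∃ y ∈ X c0, ∀ c ∈ U, y ∉ bad c := by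
      by_contra hcon
      push Not at hcon
      have hsub : X c0 ⊆ U.biUnion bad := by
        intro y hy
        obtain ⟨c, hc, h⟩ := hcon y hy
        exact Finset.mem_biUnion.mpr ⟨c, hc, h⟩
      have h1 : E * (X c0).card ≤ k * m := by
        calc E * (X c0).card ≤ E * ∑ c ∈ U, (bad c).card :=
              Nat.mul_le_mul_left _ (le_trans (Finset.card_le_card hsub) Finset.card_biUnion_le)
          _ = ∑ c ∈ U, E * (bad c).card := by rw [Finset.mul_sum]
          _ ≤ ∑ c ∈ U, m := Finset.sum_le_sum (fun c hc => (hbad c hc).le)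
          _ = U.card * m := by rw [Finset.sum_const, smul_eq_mul]
          _ ≤ k * m := Nat.mul_le_mul_right _ hUk
      have h2 := hbig c0 (Finset.mem_insert_self _ _)
      nlinarith
    obtain ⟨x, hx1, hx2⟩ := ih (fun c => nb c y) (by
      intro c hc
      have h1 : (X c).card ≤ 4 * T * (nb c y).card := by
        have := hyb c hc
        simp only [bad, Finset.mem_filter, not_and, not_lt] at this
        exact this hyX
      have h2 := hX c (Finset.mem_insert_of_mem hc)
      have h3 : (4 * T) * (m * (k + 1) * (4 * T) ^ U.card) ≤ (4 * T) * (E * (nb c y).card) := by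
        calc (4 * T) * (m * (k + 1) * (4 * T) ^ U.card) = m * (k + 1) * (4 * T) ^ (U.card + 1) := by ring
          _ ≤ E * (X c).card := h2
          _ ≤ E * (4 * T * (nb c y).card) := Nat.mul_le_mul_left _ h1
          _ = _ := by ring
      exact Nat.le_of_mul_le_mul_left h3 (by omega))
    have hxc : ∀ c ∈ U, Function.update x c0 y c = x c := by
      intro c hc
      apply Function.update_of_ne
      rintro rfl
      exact hc0 hc
    have hx1' : ∀ c ∈ U, x c ∈ X c ∧ z s((c0, y), (c, x c)) = tgt s(c0, c) := by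
      intro c hc
      have := hx1 c hc
      simpa only [nb, Finset.mem_filter] using this
    refine ⟨Function.update x c0 y, ?_, ?_⟩
    · intro c hc
      rw [Finset.mem_insert] at hc
      rcases hc with rfl | hc
      · rw [Function.update_self]; exact hyX
      · rw [hxc c hc]; exact (hx1' c hc).1
    · intro c hc c' hc' hne
      rw [Finset.mem_insert] at hc hc'
      rcases hc with rfl | hc
      · rcases hc' with rfl | hc'
        · exact absurd rfl hne
        · rw [Function.update_self, hxc c' hc']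
          exact (hx1' c' hc').2
      · rcases hc' with rfl | hc'
        · rw [Function.update_self, hxc c hc, Sym2.eq_swap, Sym2.eq_swap (a := c)]
          exact (hx1' c hc).2
        · rw [hxc c hc, hxc c' hc']
          exact hx2 c hc c' hc' hne

/-- The pattern prescribed by `rk` is realized by the labels `f` (seen from `a`), `g` (seen from `b`) and the
labels `z` of the pairs of the blown up vertex set, at base points in `X`. -/
def Good {V : Type} (a b : V) {q : ℕ} (rk : Sym2 V → Fin q) {m T : ℕ} (z : Sym2 (V × Fin m) → Fin T)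
    (X : Finset (Fin m)) (f g : Fin m → ℕ) : Prop :=
  ∃ (A J : ℕ) (x : V → Fin m), (∀ c, x c ∈ X) ∧
    (∀ c, A + rk s(a, c) * J ≤ f (x c) ∧ f (x c) < A + (rk s(a, c) + 1) * J) ∧
    (∀ c, A + rk s(b, c) * J ≤ g (x c) ∧ g (x c) < A + (rk s(b, c) + 1) * J) ∧
    (∀ c c', c ≠ c' → A + rk s(c, c') * J ≤ (z s((c, x c), (c', x c')) : ℕ) ∧
      (z s((c, x c), (c', x c')) : ℕ) < A + (rk s(c, c') + 1) * J)

lemma family {V : Type} [Fintype V] [DecidableEq V] (a b : V) {q : ℕ} (hq : 2 ≤ q) (rk : Sym2 V → Fin q)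
    (β : ℝ) (hβ : 1 < β) (x0 : ℕ)
    (hcode : ∀ (ι : Type) [Fintype ι] [DecidableEq ι],
      x0 ≤ Fintype.card ι → ∃ W : Finset (ι → Fin q), β ^ (Fintype.card ι) ≤ (W.card : ℝ) ∧
      (∀ w ∈ W, ∀ α, Fintype.card ι < 4 * q * (univ.filter (fun x => w x = α)).card) ∧
      (∀ w ∈ W, ∀ w' ∈ W, w ≠ w' → ∀ α β, Fintype.card ι < 16 * q ^ 2 * cnt w w' α β))
    (K m : ℕ) (hm : 1 ≤ m) (hmx : x0 * (16 * q ^ 2) ^ K ≤ m) (z : Sym2 (V × Fin m) → Fin (q ^ K))
    (hz : Univ ((16 * q ^ 2) ^ K * ((Fintype.card V + 1) * (4 * q ^ K) ^ (Fintype.card V))) z) :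
    ∀ j ≤ K, ∀ A, A + q ^ j ≤ q ^ K → ∀ X : Finset (Fin m), m ≤ (16 * q ^ 2) ^ (K - j) * X.card →
      ∃ N : ℕ, β ^ (j * X.card) ≤ (N : ℝ) ∧ ∃ f : Fin N → Fin m → ℕ,
        (∀ i, ∀ x ∈ X, A ≤ f i x ∧ f i x < A + q ^ j) ∧ ∀ i i', i ≠ i' → Good a b rk z X (f i) (f i') := by
  classical
  intro j
  induction j with
  | zero =>
    intro _ A hA X _
    refine ⟨1, by simp, fun _ _ => A, ?_, ?_⟩
    · intro i x _
      simp
    · intro i i' hii
      exact absurd (Subsingleton.elim i i') hii
  | succ j ih =>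
    intro hjK A hA X hX
    have hq0 : 0 < q := by omega
    have hqj : 0 < q ^ j := by positivity
    have hL : 1 ≤ 16 * q ^ 2 := by
      have : 0 < 16 * q ^ 2 := by positivity
      omega
    set L := 16 * q ^ 2 with hLdef
    set k := Fintype.card V with hk
    have hKj : K - j = (K - (j + 1)) + 1 := by omega
    -- the code on X
    have hXx0 : x0 ≤ Fintype.card X := by
      rw [Fintype.card_coe]
      have h1 : x0 * L ^ K ≤ L ^ K * X.card := by
        calc x0 * L ^ K ≤ m := hmx
          _ ≤ L ^ (K - (j + 1)) * X.card := hX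
          _ ≤ L ^ K * X.card := Nat.mul_le_mul_right _ (Nat.pow_le_pow_right hL (by omega))
      have h2 : 0 < L ^ K := by positivity
      exact Nat.le_of_mul_le_mul_left (by rw [mul_comm]; exact h1) h2
    obtain ⟨W, hW1, hW2, hW3⟩ := hcode X hXx0
    rw [Fintype.card_coe] at hW1 hW2 hW3
    let Xc : (X → Fin q) → Fin q → Finset (Fin m) := fun w α =>
      (univ.filter (fun x : X => w x = α)).map (Function.Embedding.subtype _)
    have hXc : ∀ w α, ∀ x, x ∈ Xc w α ↔ ∃ h : x ∈ X, w ⟨x, h⟩ = α := by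
      intro w α x
      simp only [Xc, Finset.mem_map, Finset.mem_filter, Finset.mem_univ, true_and,
        Function.Embedding.subtype_apply]
      constructor
      · rintro ⟨⟨y, hy⟩, h1, rfl⟩
        exact ⟨hy, h1⟩
      · rintro ⟨h, h1⟩
        exact ⟨⟨x, h⟩, h1, rfl⟩
    have hXccard : ∀ w α, (Xc w α).card = (univ.filter (fun x : X => w x = α)).card := by
      intro w α
      exact Finset.card_map _
    have hih : ∀ w : W, ∀ α : Fin q, ∃ N : ℕ, β ^ (j * (Xc w.1 α).card) ≤ (N : ℝ) ∧ ∃ f : Fin N → Fin m → ℕ,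
        (∀ i, ∀ x ∈ Xc w.1 α, A + α * q ^ j ≤ f i x ∧ f i x < A + α * q ^ j + q ^ j) ∧
        ∀ i i', i ≠ i' → Good a b rk z (Xc w.1 α) (f i) (f i') := by
      intro w α
      apply ih (by omega)
      · have h1 : (α : ℕ) + 1 ≤ q := α.2
        calc A + α * q ^ j + q ^ j = A + (α + 1) * q ^ j := by ring
          _ ≤ A + q * q ^ j := Nat.add_le_add_left (Nat.mul_le_mul_right _ h1) _
          _ = A + q ^ (j + 1) := by ring
          _ ≤ q ^ K := hA
      · have h1 := hW2 w.1 w.2 α
        rw [← hXccard] at h1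
        calc m ≤ L ^ (K - (j + 1)) * X.card := hX
          _ ≤ L ^ (K - (j + 1)) * (4 * q * (Xc w.1 α).card) := Nat.mul_le_mul_left _ h1.le
          _ ≤ L ^ (K - (j + 1)) * (L * (Xc w.1 α).card) := by
              apply Nat.mul_le_mul_left
              apply Nat.mul_le_mul_right
              rw [hLdef]
              nlinarith
          _ = L ^ (K - j) * (Xc w.1 α).card := by rw [hKj]; ring
    choose Nf hNf ff hff1 hff2 using hih
    let I := Σ w : W, (∀ α : Fin q, Fin (Nf w α))
    let F : I → Fin m → ℕ := fun p x => if h : x ∈ X then ff p.1 (p.1.1 ⟨x, h⟩) (p.2 (p.1.1 ⟨x, h⟩)) x else 0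
    have hF1 : ∀ p : I, ∀ x ∈ X, A ≤ F p x ∧ F p x < A + q ^ (j + 1) := by
      intro p x hx
      simp only [F, dif_pos hx]
      have hmem : x ∈ Xc p.1.1 (p.1.1 ⟨x, hx⟩) := (hXc _ _ _).mpr ⟨hx, rfl⟩
      have h1 := hff1 p.1 (p.1.1 ⟨x, hx⟩) (p.2 (p.1.1 ⟨x, hx⟩)) x hmem
      refine ⟨le_trans (Nat.le_add_right _ _) h1.1, lt_of_lt_of_le h1.2 ?_⟩
      have h2 : ((p.1.1 ⟨x, hx⟩ : Fin q) : ℕ) + 1 ≤ q := (p.1.1 ⟨x, hx⟩).2
      calc A + (p.1.1 ⟨x, hx⟩ : Fin q) * q ^ j + q ^ j = A + ((p.1.1 ⟨x, hx⟩ : Fin q) + 1) * q ^ j := by ring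
        _ ≤ A + q * q ^ j := Nat.add_le_add_left (Nat.mul_le_mul_right _ h2) _
        _ = A + q ^ (j + 1) := by ring
    have hF3 : ∀ p : I, ∀ α, ∀ x ∈ Xc p.1.1 α, F p x = ff p.1 α (p.2 α) x ∧
        A + α * q ^ j ≤ F p x ∧ F p x < A + (α + 1) * q ^ j := by
      intro p α x hx
      obtain ⟨h, hα⟩ := (hXc _ _ _).mp hx
      have h1 : F p x = ff p.1 α (p.2 α) x := by
        simp only [F, dif_pos h]
        subst hα
        rfl
      refine ⟨h1, ?_⟩
      rw [h1]
      have h2 := hff1 p.1 α (p.2 α) x hx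
      refine ⟨h2.1, lt_of_lt_of_le h2.2 (le_of_eq (by ring))⟩
    have hF2 : ∀ p p' : I, p ≠ p' → Good a b rk z X (F p) (F p') := by
      rintro ⟨w, φ⟩ ⟨w', φ'⟩ hne
      by_cases hww : w = w'
      · subst hww
        have hφ : φ ≠ φ' := by
          rintro rfl
          exact hne rfl
        obtain ⟨α, hα⟩ := Function.ne_iff.mp hφ
        obtain ⟨A', J, x, hx, h1, h2, h3⟩ := hff2 w α (φ α) (φ' α) hα
        refine ⟨A', J, x, fun c => ((hXc _ _ _).mp (hx c)).1, ?_, ?_, h3⟩
        · intro c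
          rw [(hF3 ⟨w, φ⟩ α (x c) (hx c)).1]
          exact h1 c
        · intro c
          rw [(hF3 ⟨w, φ'⟩ α (x c) (hx c)).1]
          exact h2 c
      · have hww' : w.1 ≠ w'.1 := fun h => hww (Subtype.ext h)
        have hrich := hW3 w.1 w.2 w'.1 w'.2 hww'
        -- the sets
        let Y : V → Finset (Fin m) := fun c => Xc w.1 (rk s(a, c)) ∩ Xc w'.1 (rk s(b, c))
        have hY : ∀ c, (Y c).card = cnt w.1 w'.1 (rk s(a, c)) (rk s(b, c)) := by
          intro c
          unfold cnt
          rw [← Finset.card_map (Function.Embedding.subtype _)]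
          congr 1
          ext x
          simp only [Y, Finset.mem_inter, hXc, Finset.mem_map, Finset.mem_filter, Finset.mem_univ, true_and,
            Function.Embedding.subtype_apply]
          constructor
          · rintro ⟨⟨h, h1⟩, _, h2⟩
            exact ⟨⟨x, h⟩, ⟨h1, h2⟩, rfl⟩
          · rintro ⟨⟨y, hy⟩, ⟨h1, h2⟩, rfl⟩
            exact ⟨⟨hy, h1⟩, hy, h2⟩
        have htgt : ∀ e : Sym2 V, A + (rk e : ℕ) * q ^ j < q ^ K := by
          intro e
          have h1 : (rk e : ℕ) + 1 ≤ q := (rk e).2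
          calc A + (rk e : ℕ) * q ^ j < A + ((rk e : ℕ) + 1) * q ^ j := by nlinarith
            _ ≤ A + q * q ^ j := Nat.add_le_add_left (Nat.mul_le_mul_right _ h1) _
            _ = A + q ^ (j + 1) := by ring
            _ ≤ q ^ K := hA
        obtain ⟨x, hx1, hx2⟩ := greedy (V := V) (m := m) (T := q ^ K) (L ^ K * ((k + 1) * (4 * q ^ K) ^ k))
          (Nat.one_le_pow _ _ hq0) hm z hz (fun e => ⟨A + (rk e : ℕ) * q ^ j, htgt e⟩) univ Y (by
            intro c _
            rw [Finset.card_univ, ← hk, hY c]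
            have h1 := hrich (rk s(a, c)) (rk s(b, c))
            have h2 : m ≤ L ^ K * cnt w.1 w'.1 (rk s(a, c)) (rk s(b, c)) := by
              calc m ≤ L ^ (K - (j + 1)) * X.card := hX
                _ ≤ L ^ (K - (j + 1)) * (L * cnt w.1 w'.1 (rk s(a, c)) (rk s(b, c))) := Nat.mul_le_mul_left _ h1.le
                _ = L ^ (K - j) * cnt w.1 w'.1 (rk s(a, c)) (rk s(b, c)) := by rw [hKj]; ring
                _ ≤ _ := Nat.mul_le_mul_right _ (Nat.pow_le_pow_right hL (by omega))
            calc m * (k + 1) * (4 * q ^ K) ^ k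
                ≤ (L ^ K * cnt w.1 w'.1 (rk s(a, c)) (rk s(b, c))) * (k + 1) * (4 * q ^ K) ^ k := by
                  gcongr
              _ = _ := by ring)
        refine ⟨A, q ^ j, x, ?_, ?_, ?_, ?_⟩
        · intro c
          have := hx1 c (mem_univ _)
          exact ((hXc _ _ _).mp (Finset.mem_inter.mp this).1).1
        · intro c
          have := hx1 c (mem_univ _)
          exact (hF3 ⟨w, φ⟩ _ (x c) (Finset.mem_inter.mp this).1).2
        · intro c
          have := hx1 c (mem_univ _)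
          exact (hF3 ⟨w', φ'⟩ _ (x c) (Finset.mem_inter.mp this).2).2
        · intro c c' hcc
          rw [hx2 c (mem_univ _) c' (mem_univ _) hcc]
          refine ⟨le_refl _, ?_⟩
          show A + (rk s(c, c') : ℕ) * q ^ j < _
          nlinarith
    refine ⟨Fintype.card I, ?_, fun i => F ((Fintype.equivFin I).symm i), ?_, ?_⟩
    · have hcardI : (Fintype.card I : ℝ) = ∑ w : W, ∏ α : Fin q, (Nf w α : ℝ) := by
        simp only [I, Fintype.card_sigma, Fintype.card_pi, Fintype.card_fin]
        push_cast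
        rfl
      rw [hcardI]
      have h1 : ∀ w : W, β ^ (j * X.card) ≤ ∏ α : Fin q, (Nf w α : ℝ) := by
        intro w
        calc β ^ (j * X.card) = ∏ α : Fin q, β ^ (j * (Xc w.1 α).card) := by
              rw [Finset.prod_pow_eq_pow_sum, ← Finset.mul_sum]
              congr 2
              have := Finset.card_eq_sum_card_fiberwise (f := w.1) (s := (univ : Finset X)) (t := univ)
                (fun x _ => mem_univ _)
              rw [Finset.card_univ, Fintype.card_coe] at this
              rw [this]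
              apply Finset.sum_congr rfl
              intro α _
              rw [hXccard]
          _ ≤ ∏ α : Fin q, (Nf w α : ℝ) := by
              apply Finset.prod_le_prod
              · intro α _; positivity
              · intro α _; exact hNf w α
      calc β ^ ((j + 1) * X.card) = β ^ X.card * β ^ (j * X.card) := by rw [← pow_add]; congr 1; ring
        _ ≤ (W.card : ℝ) * β ^ (j * X.card) := mul_le_mul_of_nonneg_right hW1 (by positivity)
        _ = ∑ w : W, β ^ (j * X.card) := by
            rw [Finset.sum_const, Finset.card_univ, Fintype.card_coe, nsmul_eq_mul]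
        _ ≤ _ := Finset.sum_le_sum (fun w _ => h1 w)
    · intro i x hx
      exact hF1 _ x hx
    · intro i i' hii
      apply hF2
      intro h
      exact hii ((Fintype.equivFin I).symm.injective h)

end Pool.Agent.R83.EOCount
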