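import Mathlib

set_option autoImplicit false

/-!
# A qualitative Kovari-Sos-Turan theorem
-/

namespace Pool.Agent.R83

open Finset

/-- The number of tuples with two equal given entries. -/
lemma card_eq_pair (n s : ℕ) (i j : Fin (s + 1)) (hij : i ≠ j) :
    (univ.filter (fun f : Fin (s + 1) → Fin n => f i = f j)).card ≤ n ^ s := by
  classical
  have h : (univ.filter (fun f : Fin (s + 1) → Fin n => f i = f j)).card ≤
      (univ : Finset (Fin s → Fin n)).card := by
    apply card_le_card_of_injOn (fun f => f ∘ i.succAbove) (fun _ _ => mem_univ _)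
    intro f hf g hg hfg
    rw [mem_coe, mem_filter] at hf hg
    have key : ∀ k, k ≠ i → f k = g k := by
      intro k hk
      obtain ⟨l, rfl⟩ := Fin.exists_succAbove_eq hk
      exact congrFun hfg l
    funext k
    by_cases hk : k = i
    · subst hk
      rw [hf.2, hg.2]
      exact key j (Ne.symm hij)
    · exact key k hk
  simpa using h

/-- The number of tuples which are not injective. -/
lemma card_not_inj (n s : ℕ) :
    (univ.filter (fun f : Fin (s + 1) → Fin n => ¬ Function.Injective f)).card ≤ (s + 1) ^ 2 * n ^ s := by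
  classical
  have hsub : (univ.filter (fun f : Fin (s + 1) → Fin n => ¬ Function.Injective f)) ⊆
      ((univ : Finset (Fin (s + 1) × Fin (s + 1))).filter (fun p => p.1 ≠ p.2)).biUnion
        (fun p => univ.filter (fun f : Fin (s + 1) → Fin n => f p.1 = f p.2)) := by
    intro f hf
    rw [mem_filter] at hf
    obtain ⟨-, hf⟩ := hf
    unfold Function.Injective at hf
    push Not at hf
    obtain ⟨i, j, h, hij⟩ := hf
    rw [mem_biUnion]
    exact ⟨(i, j), by simpa using hij, by simpa using h⟩
  calc _ ≤ _ := card_le_card hsub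
    _ ≤ ∑ p ∈ ((univ : Finset (Fin (s + 1) × Fin (s + 1))).filter (fun p => p.1 ≠ p.2)), _ := card_biUnion_le
    _ ≤ ∑ p ∈ ((univ : Finset (Fin (s + 1) × Fin (s + 1))).filter (fun p => p.1 ≠ p.2)), n ^ s := by
        apply sum_le_sum
        intro p hp
        rw [mem_filter] at hp
        exact card_eq_pair n s p.1 p.2 hp.2
    _ = ((univ : Finset (Fin (s + 1) × Fin (s + 1))).filter (fun p => p.1 ≠ p.2)).card * n ^ s := by
        rw [sum_const, smul_eq_mul]
    _ ≤ (s + 1) ^ 2 * n ^ s := by
        apply Nat.mul_le_mul_right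
        calc _ ≤ (univ : Finset (Fin (s + 1) × Fin (s + 1))).card := card_filter_le _ _
          _ = (s + 1) ^ 2 := by
            rw [card_univ, Fintype.card_prod, Fintype.card_fin]
            ring

/-- A dense graph contains a large complete bipartite graph. -/
theorem kst (s t : ℕ) (ε : ℝ) (hε : 0 < ε) : ∃ N : ℕ, ∀ n : ℕ, N ≤ n → ∀ G : SimpleGraph (Fin n),
    ε * (n : ℝ) ^ 2 < (G.edgeSet.ncard : ℝ) →
    ∃ (f : Fin (s + 1) → Fin n) (g : Fin t → Fin n), Function.Injective f ∧ Function.Injective g ∧
      ∀ i j, G.Adj (f i) (g j) := by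
  classical
  set K : ℝ := (t + (s + 1) ^ 2) with hK
  obtain ⟨N, hN⟩ := exists_nat_gt (K / (2 * ε) ^ (s + 1))
  refine ⟨N + 1, ?_⟩
  intro n hn G hG
  have hn0 : 0 < n := by omega
  have hnR : (0 : ℝ) < n := by exact_mod_cast hn0
  have hnN : K < (2 * ε) ^ (s + 1) * n := by
    rw [div_lt_iff₀ (by positivity)] at hN
    have : (N : ℝ) ≤ n := by exact_mod_cast (by omega : N ≤ n)
    calc K < N * (2 * ε) ^ (s + 1) := hN
      _ ≤ n * (2 * ε) ^ (s + 1) := mul_le_mul_of_nonneg_right this (by positivity)
      _ = _ := by ring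
  -- common neighbourhoods
  let c : (Fin (s + 1) → Fin n) → ℕ := fun f => (univ.filter (fun v => ∀ i, G.Adj (f i) v)).card
  by_contra hcon
  have hsmall : ∀ f : Fin (s + 1) → Fin n, Function.Injective f → c f ≤ t := by
    intro f hf
    by_contra hc
    push Not at hc
    obtain ⟨J, hJ, hJc⟩ := exists_subset_card_eq hc.le
    apply hcon
    refine ⟨f, fun j => (J.equivFinOfCardEq hJc).symm j, hf, ?_, ?_⟩
    · intro a b hab
      exact (J.equivFinOfCardEq hJc).symm.injective (Subtype.ext hab)
    · intro i j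
      have := hJ ((J.equivFinOfCardEq hJc).symm j).2
      rw [mem_filter] at this
      exact this.2 i
  have hc_le : ∀ f, c f ≤ n := by
    intro f
    calc c f ≤ (univ : Finset (Fin n)).card := card_filter_le _ _
      _ = n := by simp
  have hsum1 : ∑ f, c f = ∑ v : Fin n, (G.degree v) ^ (s + 1) := by
    have h1 : ∀ v : Fin n, (G.degree v) ^ (s + 1) =
        (univ.filter (fun f : Fin (s + 1) → Fin n => ∀ i, G.Adj (f i) v)).card := by
      intro v
      have h2 : (univ.filter (fun f : Fin (s + 1) → Fin n => ∀ i, G.Adj (f i) v)) =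
          Fintype.piFinset (fun _ : Fin (s + 1) => G.neighborFinset v) := by
        ext f
        simp [Fintype.mem_piFinset, SimpleGraph.adj_comm]
      rw [h2, Fintype.card_piFinset]
      simp
    simp_rw [h1]
    simp only [c, card_filter]
    rw [sum_comm]
  have hupper : ∑ f, c f ≤ n ^ (s + 1) * t + ((s + 1) ^ 2 * n ^ s) * n := by
    rw [← sum_filter_add_sum_filter_not univ (fun f : Fin (s + 1) → Fin n => Function.Injective f)]
    apply Nat.add_le_add
    · calc _ ≤ ∑ f ∈ univ.filter (fun f : Fin (s + 1) → Fin n => Function.Injective f), t := by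
            apply sum_le_sum
            intro f hf
            rw [mem_filter] at hf
            exact hsmall f hf.2
        _ = (univ.filter (fun f : Fin (s + 1) → Fin n => Function.Injective f)).card * t := by
            rw [sum_const, smul_eq_mul]
        _ ≤ (univ : Finset (Fin (s + 1) → Fin n)).card * t := Nat.mul_le_mul_right _ (card_filter_le _ _)
        _ = n ^ (s + 1) * t := by simp
    · calc _ ≤ ∑ f ∈ univ.filter (fun f : Fin (s + 1) → Fin n => ¬ Function.Injective f), n := by
            apply sum_le_sum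
            intro f _
            exact hc_le f
        _ = (univ.filter (fun f : Fin (s + 1) → Fin n => ¬ Function.Injective f)).card * n := by
            rw [sum_const, smul_eq_mul]
        _ ≤ _ := Nat.mul_le_mul_right _ (card_not_inj n s)
  have hdeg : ∑ v : Fin n, (G.degree v : ℝ) = 2 * (G.edgeSet.ncard : ℝ) := by
    have := G.sum_degrees_eq_twice_card_edges
    rw [← Set.ncard_coe_finset, SimpleGraph.coe_edgeFinset] at this
    exact_mod_cast this
  have hpm : (∑ v : Fin n, (G.degree v : ℝ)) ^ (s + 1) / ((univ : Finset (Fin n)).card : ℝ) ^ s ≤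
      ∑ v : Fin n, (G.degree v : ℝ) ^ (s + 1) :=
    pow_sum_div_card_le_sum_pow (fun i _ => by positivity) s
  rw [card_univ, Fintype.card_fin, hdeg] at hpm
  have hlow2 : (2 * (ε * (n : ℝ) ^ 2)) ^ (s + 1) / (n : ℝ) ^ s ≤ ∑ v : Fin n, (G.degree v : ℝ) ^ (s + 1) := by
    refine le_trans ?_ hpm
    gcongr
  have hup2 : ∑ v : Fin n, (G.degree v : ℝ) ^ (s + 1) ≤
      (n : ℝ) ^ (s + 1) * t + (((s : ℝ) + 1) ^ 2 * (n : ℝ) ^ s) * n := by
    rw [hsum1] at hupper
    exact_mod_cast hupper
  have e1 : (2 * (ε * (n : ℝ) ^ 2)) ^ (s + 1) / (n : ℝ) ^ s = (2 * ε) ^ (s + 1) * n * (n : ℝ) ^ (s + 1) := by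
    rw [div_eq_iff (by positivity)]
    ring
  have e2 : (n : ℝ) ^ (s + 1) * t + (((s : ℝ) + 1) ^ 2 * (n : ℝ) ^ s) * n = K * (n : ℝ) ^ (s + 1) := by
    rw [hK]
    ring
  rw [e1] at hlow2
  rw [e2] at hup2
  have h3 := hlow2.trans hup2
  have h4 : (2 * ε) ^ (s + 1) * n ≤ K := le_of_mul_le_mul_right h3 (by positivity)
  linarith

end Pool.Agent.R83
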