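import Pool.Agent.W153.EO.Sep
import Pool.Agent.W153.EO.Count
import Pool.Agent.R83.KST

set_option autoImplicit false

/-!
# The edge-ordered path of W153.EO: dense hosts contain it, and superpolylogarithmic lower bound
-/

namespace Pool.Agent.R83

open Finset Filter Topology

open Pool.Agent.W153.EO

/-- Dense edge-ordered graphs contain the pattern. -/
theorem pat_dense (ε : ℝ) (hε : 0 < ε) : ∃ N : ℕ, ∀ n : ℕ, N ≤ n → ∀ (G : SimpleGraph (Fin n))
    (M : Sym2 (Fin n) → ℕ), Set.InjOn M G.edgeSet → ¬ Cont G M → (G.edgeSet.ncard : ℝ) ≤ ε * (n : ℝ) ^ 2 := by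
  obtain ⟨P, K, hPK⟩ := exists_host
  obtain ⟨N, hN⟩ := kst P K ε hε
  refine ⟨N, ?_⟩
  intro n hn G M hM hC
  by_contra hlt
  push Not at hlt
  obtain ⟨f, g, hf, hg, hfg⟩ := hN n hn G hlt
  apply hC
  let ψ : Fin P ⊕ Fin K → Fin n := Sum.elim (fun i => f i.castSucc) g
  have hψ : Function.Injective ψ := by
    rintro (a | a) (b | b) hab
    · have := hf hab
      rw [Fin.castSucc_inj] at this
      rw [this]
    · exact absurd hab (hfg a.castSucc b).ne
    · exact absurd hab (hfg b.castSucc a).ne.symm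
    · have := hg hab
      rw [this]
  have hadj : ∀ u v, (completeBipartiteGraph (Fin P) (Fin K)).Adj u v → G.Adj (ψ u) (ψ v) := by
    rintro (a | a) (b | b) hab
    · simp at hab
    · exact hfg a.castSucc b
    · exact (hfg b.castSucc a).symm
    · simp at hab
  have hinj : Set.InjOn (fun x => M (x.map ψ)) (completeBipartiteGraph (Fin P) (Fin K)).edgeSet := by
    intro x hx y hy hxy
    have hx' : x.map ψ ∈ G.edgeSet := by
      induction x using Sym2.ind with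
      | _ a b => exact hadj a b hx
    have hy' : y.map ψ ∈ G.edgeSet := by
      induction y using Sym2.ind with
      | _ a b => exact hadj a b hy
    exact Sym2.map.injective hψ (hM hx' hy' hxy)
  obtain ⟨φ, h1, h2, h3⟩ := hPK _ hinj
  refine ⟨ψ ∘ φ, hψ.comp h1, fun u v huv => hadj _ _ (h2 u v huv), ?_⟩
  intro e₁ he₁ e₂ he₂ hlt
  have := h3 e₁ he₁ e₂ he₂ hlt
  simpa only [Sym2.map_map] using this

/-- The numerical estimate. -/
lemma estimate_pow (C : ℝ) (c b : ℕ) (hb : 1 ≤ b) (hlarge : 4 * |C| * (5 * (b : ℝ) ^ 2) ^ c < 2 ^ b) (n : ℕ)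
    (hn : n = 2 ^ b * (b * 2 ^ b + 2 ^ b) ^ b + (2 * (b * 2 ^ b)) ^ b) :
    C * (n : ℝ) * Real.log (n : ℝ) ^ c < (((2 * (b * 2 ^ b)) ^ b * 2 ^ b : ℕ) : ℝ) := by
  have hb' : (0 : ℝ) < b := by exact_mod_cast hb
  have hb1 : (1 : ℝ) ≤ b := by exact_mod_cast hb
  set X : ℝ := ((b : ℝ) * 2 ^ b) ^ b with hX
  have hXpos : 0 < X := by positivity
  have h2b : (1 : ℝ) ≤ 2 ^ b := one_le_pow₀ (by norm_num)
  have hnX : (n : ℝ) ≤ 4 * 2 ^ b * X := by
    rw [hn]
    push_cast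
    have e1 : ((b : ℝ) * 2 ^ b + 2 ^ b) ^ b = (2 ^ b) ^ b * ((b : ℝ) + 1) ^ b := by
      rw [← mul_pow]
      congr 1
      ring
    have e2 : (2 * ((b : ℝ) * 2 ^ b)) ^ b = 2 ^ b * X := by
      rw [mul_pow, hX]
    rw [e1, e2]
    have e3 : (2 ^ b) ^ b * ((b : ℝ) + 1) ^ b ≤ 3 * X := by
      calc ((2 : ℝ) ^ b) ^ b * ((b : ℝ) + 1) ^ b ≤ (2 ^ b) ^ b * (3 * (b : ℝ) ^ b) :=
            mul_le_mul_of_nonneg_left (pow_ratio b hb) (by positivity)
        _ = 3 * X := by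
            rw [hX, mul_pow]
            ring
    calc (2 : ℝ) ^ b * ((2 ^ b) ^ b * ((b : ℝ) + 1) ^ b) + 2 ^ b * X
        ≤ 2 ^ b * (3 * X) + 2 ^ b * X := by
          have := mul_le_mul_of_nonneg_left e3 (by positivity : (0 : ℝ) ≤ 2 ^ b)
          linarith
      _ = 4 * 2 ^ b * X := by ring
  have hnpos : 0 < n := by
    rw [hn]
    have : 0 < (2 * (b * 2 ^ b)) ^ b := by positivity
    omega
  have hn1 : (1 : ℝ) ≤ n := by exact_mod_cast hnpos
  have hlog0 : 0 ≤ Real.log n := Real.log_nonneg hn1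
  have hlog2 : Real.log 2 ≤ 1 := by
    have := Real.log_two_lt_d9
    linarith
  have hlog2' : 0 ≤ Real.log 2 := Real.log_nonneg (by norm_num)
  have hlog : Real.log n ≤ 5 * (b : ℝ) ^ 2 := by
    calc Real.log n ≤ Real.log (4 * 2 ^ b * X) := Real.log_le_log (by linarith) hnX
      _ = 2 * Real.log 2 + b * Real.log 2 + b * (Real.log b + b * Real.log 2) := by
          rw [Real.log_mul (by positivity) (by positivity), Real.log_mul (by positivity) (by positivity),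
            Real.log_pow, hX, Real.log_pow, Real.log_mul (by positivity) (by positivity), Real.log_pow,
            show (4 : ℝ) = 2 ^ 2 by norm_num, Real.log_pow]
          push_cast
          ring
      _ ≤ 2 * 1 + b * 1 + b * (b + b * 1) := by
          have h1 := log_nat_le b hb
          have h2 : (b : ℝ) * Real.log 2 ≤ b * 1 := mul_le_mul_of_nonneg_left hlog2 hb'.le
          have h3 : (b : ℝ) * (Real.log b + b * Real.log 2) ≤ b * (b + b * 1) :=
            mul_le_mul_of_nonneg_left (by linarith) hb'.le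
          linarith
      _ ≤ 5 * (b : ℝ) ^ 2 := by nlinarith
  have hE : (((2 * (b * 2 ^ b)) ^ b * 2 ^ b : ℕ) : ℝ) = 2 ^ b * (2 ^ b * X) := by
    push_cast
    rw [mul_pow, hX]
    ring
  rw [hE]
  have hlogc : Real.log n ^ c ≤ (5 * (b : ℝ) ^ 2) ^ c := pow_le_pow_left₀ hlog0 hlog c
  calc C * (n : ℝ) * Real.log n ^ c ≤ |C| * n * Real.log n ^ c := by
        apply mul_le_mul_of_nonneg_right _ (pow_nonneg hlog0 c)
        exact mul_le_mul_of_nonneg_right (le_abs_self C) (by positivity)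
    _ ≤ |C| * (4 * 2 ^ b * X) * (5 * (b : ℝ) ^ 2) ^ c := by
        apply mul_le_mul _ hlogc (pow_nonneg hlog0 c) (by positivity)
        exact mul_le_mul_of_nonneg_left hnX (abs_nonneg C)
    _ = (4 * |C| * (5 * (b : ℝ) ^ 2) ^ c) * (2 ^ b * X) := by ring
    _ < 2 ^ b * (2 ^ b * X) := by
        apply mul_lt_mul_of_pos_right hlarge (by positivity)

lemma exists_b_pow (C : ℝ) (c N : ℕ) : ∃ b : ℕ, 1 ≤ b ∧ N ≤ b ∧ 4 * |C| * (5 * (b : ℝ) ^ 2) ^ c < 2 ^ b := by
  have h1 : Tendsto (fun b : ℕ => (b : ℝ) ^ (2 * c) / 2 ^ b) atTop (𝓝 0) :=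
    tendsto_pow_const_div_const_pow_of_one_lt (2 * c) (by norm_num)
  have h2 := h1.const_mul (4 * |C| * 5 ^ c)
  rw [mul_zero] at h2
  have h3 : ∀ᶠ b : ℕ in atTop, (4 * |C| * 5 ^ c) * ((b : ℝ) ^ (2 * c) / 2 ^ b) < 1 :=
    h2.eventually_lt_const (by norm_num)
  obtain ⟨b, hb⟩ := (h3.and ((eventually_ge_atTop 1).and (eventually_ge_atTop N))).exists
  refine ⟨b, hb.2.1, hb.2.2, ?_⟩
  have h4 := hb.1
  rw [← mul_div_assoc, div_lt_one (by positivity)] at h4
  calc 4 * |C| * (5 * (b : ℝ) ^ 2) ^ c = (4 * |C| * 5 ^ c) * (b : ℝ) ^ (2 * c) := by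
        rw [mul_pow, ← pow_mul]
        ring
    _ < 2 ^ b := h4

/-- The lower bound. -/
theorem pat_lower (C : ℝ) (c N : ℕ) : ∃ n : ℕ, N ≤ n ∧ ∃ G : SimpleGraph (Fin n), ∃ g : Sym2 (Fin n) → ℕ,
    Set.InjOn g G.edgeSet ∧ ¬ Cont G g ∧ C * (n : ℝ) * Real.log (n : ℝ) ^ c < (G.edgeSet.ncard : ℝ) := by
  obtain ⟨b, hb1, hbN, hb⟩ := exists_b_pow C c N
  obtain ⟨G, g, hg, hC, hcard⟩ := transport (host b (2 ^ b) (b * 2 ^ b)) (ord b (2 ^ b) (b * 2 ^ b))
    (ord_injOn _ _ _) (host_avoids _ _ _)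
  have hn := host_card b (2 ^ b) (b * 2 ^ b)
  refine ⟨_, ?_, G, g, hg, hC, ?_⟩
  · rw [hn]
    have h1 : b < 2 ^ b := Nat.lt_two_pow_self
    have h2 : 2 ^ b ≤ (2 * (b * 2 ^ b)) ^ b := by
      apply Nat.pow_le_pow_left
      have : 1 ≤ b * 2 ^ b := Nat.one_le_iff_ne_zero.mpr (by positivity)
      omega
    omega
  · refine lt_of_lt_of_le (estimate_pow C c b hb1 hb _ hn) ?_
    rw [hcard]
    exact_mod_cast host_edges b (2 ^ b) (b * 2 ^ b)

end Pool.Agent.R83
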