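import Pool.Agent.R83.EOCount

set_option autoImplicit false

/-!
# Edge-ordered graphs and e-semisaturation
-/

namespace Pool.Agent.R83.EOSat

open Finset Pool.Agent.R83.EOCount

/-- An edge-ordered graph: a simple graph with an injective real labelling of its edges. -/
structure EOGraph (V : Type) where
  /-- the underlying simple graph -/
  graph : SimpleGraph V
  /-- the labels (only the labels of edges matter) -/
  lab : Sym2 V → ℝ
  /-- distinct edges have distinct labels -/
  inj : Set.InjOn lab graph.edgeSet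

open Classical in
/-- Add the new edge `uv` with the new label `x`. -/
noncomputable def EOGraph.addEdge {V : Type} (H : EOGraph V) (u v : V) (x : ℝ)
    (hx : ∀ e ∈ H.graph.edgeSet, H.lab e ≠ x) : EOGraph V where
  graph := H.graph ⊔ SimpleGraph.edge u v
  lab := Function.update H.lab s(u, v) x
  inj := by
    intro e he e' he' h
    rw [SimpleGraph.edgeSet_sup] at he he'
    have hsub : ∀ e ∈ (SimpleGraph.edge u v).edgeSet, e = s(u, v) := by
      intro e he
      induction e using Sym2.ind with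
      | _ a b =>
        rw [SimpleGraph.mem_edgeSet, SimpleGraph.edge_adj] at he
        rw [Sym2.eq_iff]
        rcases he.1 with ⟨h1, h2⟩ | ⟨h1, h2⟩
        · left; exact ⟨h1, h2⟩
        · right; exact ⟨h1, h2⟩
    by_cases h1 : e = s(u, v)
    · by_cases h2 : e' = s(u, v)
      · rw [h1, h2]
      · exfalso
        rw [h1, Function.update_self, Function.update_of_ne h2] at h
        rcases he' with he' | he'
        · exact hx e' he' h.symm
        · exact h2 (hsub _ he')
    · by_cases h2 : e' = s(u, v)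
      · exfalso
        rw [h2, Function.update_self, Function.update_of_ne h1] at h
        rcases he with he | he
        · exact hx e he h
        · exact h1 (hsub _ he)
      · rw [Function.update_of_ne h1, Function.update_of_ne h2] at h
        rcases he with he | he
        · rcases he' with he' | he'
          · exact H.inj he he' h
          · exact absurd (hsub _ he') h2
        · exact absurd (hsub _ he) h1

lemma addEdge_lab_self {V : Type} (H : EOGraph V) (u v : V) (x : ℝ)
    (hx : ∀ e ∈ H.graph.edgeSet, H.lab e ≠ x) : (H.addEdge u v x hx).lab s(u, v) = x := by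
  classical
  unfold EOGraph.addEdge
  exact Function.update_self _ _ _

lemma addEdge_lab_ne {V : Type} (H : EOGraph V) (u v : V) (x : ℝ)
    (hx : ∀ e ∈ H.graph.edgeSet, H.lab e ≠ x) (e : Sym2 V) (he : e ≠ s(u, v)) :
    (H.addEdge u v x hx).lab e = H.lab e := by
  classical
  unfold EOGraph.addEdge
  exact Function.update_of_ne he _ _

/-- `φ` embeds the edge-ordered graph `G` in the edge-ordered graph `H`: it is injective, maps edges to edges
and preserves the order of the edges. -/
structure IsCopy {W V : Type} (G : EOGraph W) (H : EOGraph V) (φ : W → V) : Prop where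
  inj : Function.Injective φ
  adj : ∀ a b, G.graph.Adj a b → H.graph.Adj (φ a) (φ b)
  order : ∀ e ∈ G.graph.edgeSet, ∀ e' ∈ G.graph.edgeSet, G.lab e < G.lab e' →
    H.lab (e.map φ) < H.lab (e'.map φ)

/-- `H` e-semisaturates `G`: adding any non-edge `uv` with any new label creates a copy of `G` which uses
the edge `uv`. -/
def ESemisat {W V : Type} (G : EOGraph W) (H : EOGraph V) : Prop :=
  ∀ u v : V, u ≠ v → ¬ H.graph.Adj u v → ∀ (x : ℝ) (hx : ∀ e ∈ H.graph.edgeSet, H.lab e ≠ x),
    ∃ φ : W → V, IsCopy G (H.addEdge u v x hx) φ ∧ ∃ e ∈ G.graph.edgeSet, e.map φ = s(u, v)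

/-- `ssat_e(n, G)`: the minimum number of edges of an edge-ordered graph on `n` vertices which
e-semisaturates `G`. -/
noncomputable def ssatE {W : Type} (n : ℕ) (G : EOGraph W) : ℕ :=
  sInf {t | ∃ H : EOGraph (Fin n), ESemisat G H ∧ H.graph.edgeSet.ncard = t}

/-- Any e-semisaturating graph on a type with `n` elements bounds `ssatE n G`. -/
lemma ssatE_le {W Ω : Type} [Fintype Ω] (G : EOGraph W) (H : EOGraph Ω) (h : ESemisat G H) (n : ℕ)
    (hn : Fintype.card Ω = n) : ssatE n G ≤ H.graph.edgeSet.ncard := by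
  classical
  subst hn
  let e := (Fintype.equivFin Ω)
  have hmapinj : Function.Injective (Sym2.map e.symm) := Sym2.map.injective e.symm.injective
  let H' : EOGraph (Fin (Fintype.card Ω)) :=
    { graph := H.graph.comap e.symm
      lab := fun s => H.lab (s.map e.symm)
      inj := by
        intro s hs s' hs' h'
        apply hmapinj
        apply H.inj _ _ h'
        · induction s using Sym2.ind with
          | _ a b => simpa using hs
        · induction s' using Sym2.ind with
          | _ a b => simpa using hs' }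
  have hedge : ∀ s, s ∈ H'.graph.edgeSet ↔ s.map e.symm ∈ H.graph.edgeSet := by
    intro s
    induction s using Sym2.ind with
    | _ a b => simp [H']
  apply Nat.sInf_le
  refine ⟨H', ?_, ?_⟩
  · intro u v huv hadj x hx
    have huv' : e.symm u ≠ e.symm v := fun hh => huv (e.symm.injective hh)
    have hx' : ∀ s ∈ H.graph.edgeSet, H.lab s ≠ x := by
      intro s hs
      have h1 := hx (s.map e) (by
        rw [hedge, Sym2.map_map]
        simpa using hs)
      simpa [H', Sym2.map_map] using h1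
    obtain ⟨φ, hφ, s, hs, hsφ⟩ := h (e.symm u) (e.symm v) huv' (by simpa [H'] using hadj) x hx'
    have hee : ∀ s : Sym2 W, s.map φ = (s.map (fun w => e (φ w))).map e.symm := by
      intro s
      rw [Sym2.map_map]
      congr 1
      ext w
      simp
    refine ⟨fun w => e (φ w), ⟨fun a b hh => hφ.inj (e.injective hh), ?_, ?_⟩, s, hs, ?_⟩
    · intro a b hab
      have h1 := hφ.adj a b hab
      simp only [EOGraph.addEdge, SimpleGraph.sup_adj, SimpleGraph.edge_adj] at h1 ⊢
      rcases h1 with h1 | ⟨h1, h2⟩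
      · left; simpa [H'] using h1
      · right
        refine ⟨?_, fun hh => h2 (e.injective hh)⟩
        rcases h1 with ⟨h1, h3⟩ | ⟨h1, h3⟩
        · left; rw [h1, h3]; simp
        · right; rw [h1, h3]; simp
    · intro s hs s' hs' hlt
      have h1 := hφ.order s hs s' hs' hlt
      have hupd : ∀ s : Sym2 W, (H.addEdge (e.symm u) (e.symm v) x hx').lab (s.map φ) =
          (H'.addEdge u v x hx).lab (s.map (fun w => e (φ w))) := by
        intro s
        by_cases hh : s.map (fun w => e (φ w)) = s(u, v)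
        · have : s.map φ = s(e.symm u, e.symm v) := by
            rw [hee, hh]; simp
          rw [this, hh, addEdge_lab_self, addEdge_lab_self]
        · have : s.map φ ≠ s(e.symm u, e.symm v) := by
            intro h2
            apply hh
            apply hmapinj
            rw [← hee, h2]; simp
          rw [addEdge_lab_ne _ _ _ _ _ _ this, addEdge_lab_ne _ _ _ _ _ _ hh, hee]
      rw [hupd, hupd] at h1
      exact h1
    · apply hmapinj
      rw [← hee, hsφ]
      simp
  · have : H'.graph.edgeSet = (Sym2.map e) '' H.graph.edgeSet := by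
      ext s
      rw [hedge]
      constructor
      · intro hs
        exact ⟨_, hs, by rw [Sym2.map_map]; simp⟩
      · rintro ⟨t, ht, rfl⟩
        rw [Sym2.map_map]
        simpa using ht
    rw [this, Set.ncard_image_of_injective _ (Sym2.map.injective e.injective)]

/-- The pattern is found in a host whose cells are given by `z`, `f`, `g`. -/
lemma embed {V Ω : Type} [Fintype V] [DecidableEq V] (a b : V) (hab : a ≠ b) {q : ℕ} (rk : Sym2 V → Fin q)
    {m T : ℕ} (z : Sym2 (V × Fin m) → Fin T) (cell : Sym2 Ω → ℕ) (ι : V × Fin m → Ω)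
    (hι : Function.Injective ι) (U W : Ω) (hUW : U ≠ W) (hU : ∀ p, ι p ≠ U) (hW : ∀ p, ι p ≠ W) (o : ℕ)
    (f g : Fin m → ℕ) (h1 : ∀ p p', cell s(ι p, ι p') = o + z s(p, p'))
    (h2 : ∀ p, cell s(U, ι p) = o + f p.2) (h3 : ∀ p, cell s(W, ι p) = o + g p.2)
    (hg : Good a b rk z univ f g) :
    ∃ φ : V → Ω, Function.Injective φ ∧ φ a = U ∧ φ b = W ∧ (∀ c, c ≠ a → c ≠ b → ∃ p, φ c = ι p) ∧
      ∃ A J : ℕ, ∀ e : Sym2 V, ¬ e.IsDiag → e ≠ s(a, b) →
        o + A + rk e * J ≤ cell (e.map φ) ∧ cell (e.map φ) < o + A + (rk e + 1) * J := by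
  classical
  obtain ⟨A, J, x, -, hf, hg', hzz⟩ := hg
  let φ : V → Ω := fun c => if c = a then U else if c = b then W else ι (c, x c)
  have hφa : φ a = U := by simp [φ]
  have hφb : φ b = W := by simp [φ, hab.symm]
  have hφc : ∀ c, c ≠ a → c ≠ b → φ c = ι (c, x c) := by
    intro c h1 h2
    simp [φ, h1, h2]
  refine ⟨φ, ?_, hφa, hφb, fun c h1 h2 => ⟨_, hφc c h1 h2⟩, A, J, ?_⟩
  · intro c c' h
    by_cases hca : c = a
    · by_cases hc'a : c' = a
      · rw [hca, hc'a]
      · exfalso
        rw [hca, hφa] at h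
        by_cases hc'b : c' = b
        · rw [hc'b, hφb] at h; exact hUW h
        · rw [hφc c' hc'a hc'b] at h; exact hU _ h.symm
    · by_cases hcb : c = b
      · rw [hcb, hφb] at h
        by_cases hc'a : c' = a
        · exfalso; rw [hc'a, hφa] at h; exact hUW h.symm
        · by_cases hc'b : c' = b
          · rw [hcb, hc'b]
          · exfalso; rw [hφc c' hc'a hc'b] at h; exact hW _ h.symm
      · rw [hφc c hca hcb] at h
        by_cases hc'a : c' = a
        · exfalso; rw [hc'a, hφa] at h; exact hU _ h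
        · by_cases hc'b : c' = b
          · exfalso; rw [hc'b, hφb] at h; exact hW _ h
          · rw [hφc c' hc'a hc'b] at h
            exact (Prod.mk.inj (hι h)).1
  · -- the labels
    have key : ∀ c c' : V, c ≠ c' → s(c, c') ≠ s(a, b) → (c = a ∨ c = b ∨ (c ≠ a ∧ c ≠ b ∧ c' ≠ a ∧ c' ≠ b)) →
        o + A + rk s(c, c') * J ≤ cell s(φ c, φ c') ∧ cell s(φ c, φ c') < o + A + (rk s(c, c') + 1) * J := by
      intro c c' hcc hne hcase
      rcases hcase with rfl | rfl | ⟨hca, hcb, hc'a, hc'b⟩
      · have hc'b : c' ≠ b := by rintro rfl; exact hne rfl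
        rw [hφa, hφc c' hcc.symm hc'b, h2]
        have := hf c'
        simp only
        omega
      · have hc'a : c' ≠ a := by rintro rfl; exact hne Sym2.eq_swap
        rw [hφb, hφc c' hc'a hcc.symm, h3]
        have := hg' c'
        simp only
        omega
      · rw [hφc c hca hcb, hφc c' hc'a hc'b, h1]
        have := hzz c c' hcc
        omega
    intro e hd hne
    induction e using Sym2.ind with
    | _ c c' =>
      rw [Sym2.mk_isDiag_iff] at hd
      rw [Sym2.map_mk]
      by_cases h : (c = a ∨ c = b ∨ (c ≠ a ∧ c ≠ b ∧ c' ≠ a ∧ c' ≠ b))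
      · exact key c c' hd hne h
      · have h' : (c' = a ∨ c' = b ∨ (c' ≠ a ∧ c' ≠ b ∧ c ≠ a ∧ c ≠ b)) := by tauto
        have := key c' c (fun hh => hd hh.symm) (by rw [Sym2.eq_swap]; exact hne) h'
        rw [Sym2.eq_swap (a := c') (b := c), Sym2.eq_swap (a := φ c') (b := φ c)] at this
        exact this

section Construction

variable {V R : Type} {m T : ℕ}

/-- The vertex set: two cores and the remaining vertices. -/
abbrev Host (V R : Type) (m : ℕ) : Type := (V × Fin m) ⊕ ((V × Fin m) ⊕ R)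

/-- The cells of the pairs. -/
def cp (z1 z2 : Sym2 (V × Fin m) → Fin T) (f1 f2 : R → Fin m → ℕ) : Host V R m → Host V R m → ℕ
  | Sum.inl p, Sum.inl p' => T + z1 s(p, p')
  | Sum.inl _, Sum.inr (Sum.inl _) => T
  | Sum.inr (Sum.inl _), Sum.inl _ => T
  | Sum.inl p, Sum.inr (Sum.inr u) => T + f1 u p.2
  | Sum.inr (Sum.inr u), Sum.inl p => T + f1 u p.2
  | Sum.inr (Sum.inl p), Sum.inr (Sum.inl p') => 0 + z2 s(p, p')
  | Sum.inr (Sum.inl p), Sum.inr (Sum.inr u) => 0 + f2 u p.2
  | Sum.inr (Sum.inr u), Sum.inr (Sum.inl p) => 0 + f2 u p.2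
  | Sum.inr (Sum.inr _), Sum.inr (Sum.inr _) => 0

lemma cp_symm (z1 z2 : Sym2 (V × Fin m) → Fin T) (f1 f2 : R → Fin m → ℕ) (x y : Host V R m) :
    cp z1 z2 f1 f2 x y = cp z1 z2 f1 f2 y x := by
  rcases x with p | p | u <;> rcases y with p' | p' | u' <;> simp [cp, Sym2.eq_swap]

/-- The cell of a pair. -/
def cell (z1 z2 : Sym2 (V × Fin m) → Fin T) (f1 f2 : R → Fin m → ℕ) : Sym2 (Host V R m) → ℕ :=
  Sym2.lift ⟨cp z1 z2 f1 f2, cp_symm z1 z2 f1 f2⟩

/-- A vertex outside the cores. -/
def Outer (x : Host V R m) : Prop := ∃ u : R, x = Sum.inr (Sum.inr u)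

/-- The host graph: all pairs meeting a core. -/
def hostGraph (V R : Type) (m : ℕ) : SimpleGraph (Host V R m) where
  Adj x y := x ≠ y ∧ ¬ (Outer x ∧ Outer y)
  symm := ⟨fun _ _ h => ⟨h.1.symm, fun hh => h.2 ⟨hh.2, hh.1⟩⟩⟩
  loopless := ⟨fun _ h => h.1 rfl⟩

variable [Fintype V] [Fintype R]

open Classical in
/-- The labels of the host graph. -/
noncomputable def hostLab (z1 z2 : Sym2 (V × Fin m) → Fin T) (f1 f2 : R → Fin m → ℕ) (e : Sym2 (Host V R m)) : ℕ :=
  cell z1 z2 f1 f2 e * Fintype.card (Sym2 (Host V R m)) + (Fintype.equivFin (Sym2 (Host V R m)) e : ℕ)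

open Classical in
lemma hostLab_inj (z1 z2 : Sym2 (V × Fin m) → Fin T) (f1 f2 : R → Fin m → ℕ) :
    Function.Injective (hostLab z1 z2 f1 f2) := by
  intro e e' h
  have h1 := congrArg (fun t => t % Fintype.card (Sym2 (Host V R m))) h
  unfold hostLab at h1
  have h2 : ∀ e : Sym2 (Host V R m), (cell z1 z2 f1 f2 e * Fintype.card (Sym2 (Host V R m)) +
      (Fintype.equivFin (Sym2 (Host V R m)) e : ℕ)) % Fintype.card (Sym2 (Host V R m)) =
      (Fintype.equivFin (Sym2 (Host V R m)) e : ℕ) := by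
    intro e
    rw [Nat.add_comm, Nat.add_mul_mod_self_right, Nat.mod_eq_of_lt (Fin.isLt _)]
  simp only [h2] at h1
  exact (Fintype.equivFin (Sym2 (Host V R m))).injective (Fin.ext h1)

open Classical in
lemma hostLab_lt (z1 z2 : Sym2 (V × Fin m) → Fin T) (f1 f2 : R → Fin m → ℕ) (e e' : Sym2 (Host V R m))
    (h : cell z1 z2 f1 f2 e < cell z1 z2 f1 f2 e') : hostLab z1 z2 f1 f2 e < hostLab z1 z2 f1 f2 e' := by
  unfold hostLab
  have h1 := (Fintype.equivFin (Sym2 (Host V R m)) e).isLt
  nlinarith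

/-- The edge-ordered host graph. -/
noncomputable def host (z1 z2 : Sym2 (V × Fin m) → Fin T) (f1 f2 : R → Fin m → ℕ) : EOGraph (Host V R m) where
  graph := hostGraph V R m
  lab := fun e => (hostLab z1 z2 f1 f2 e : ℝ)
  inj := fun _ _ _ _ h => hostLab_inj z1 z2 f1 f2 (Nat.cast_injective h)

omit [Fintype V] [Fintype R] in
lemma adj_core {x y : Host V R m} (hne : x ≠ y) (h : ¬ Outer x ∨ ¬ Outer y) : (hostGraph V R m).Adj x y :=
  ⟨hne, fun hh => h.elim (fun h => h hh.1) (fun h => h hh.2)⟩

end Construction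

lemma isCopy_of {V Ω : Type} (G : EOGraph V) (H : EOGraph Ω) (u v : Ω) (ξ : ℝ)
    (hξ : ∀ e ∈ H.graph.edgeSet, H.lab e ≠ ξ) (φ : V → Ω) (hφ : Function.Injective φ) (a b : V)
    (hφa : φ a = u) (hφb : φ b = v) (hab : a ≠ b)
    (hadj : ∀ c c', G.graph.Adj c c' → s(c, c') ≠ s(a, b) → H.graph.Adj (φ c) (φ c'))
    (hord : ∀ e ∈ G.graph.edgeSet, ∀ e' ∈ G.graph.edgeSet, e ≠ s(a, b) → e' ≠ s(a, b) → G.lab e < G.lab e' →
      H.lab (e.map φ) < H.lab (e'.map φ))
    (hmin : ∀ e ∈ G.graph.edgeSet, e ≠ s(a, b) → (G.lab s(a, b) < G.lab e ∧ ξ < H.lab (e.map φ)) ∨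
      (G.lab e < G.lab s(a, b) ∧ H.lab (e.map φ) < ξ)) :
    IsCopy G (H.addEdge u v ξ hξ) φ := by
  classical
  have hmap : Sym2.map φ s(a, b) = s(u, v) := by rw [Sym2.map_mk, hφa, hφb]
  have hmapne : ∀ e : Sym2 V, e ≠ s(a, b) → e.map φ ≠ s(u, v) := by
    intro e he h
    rw [← hmap] at h
    exact he (Sym2.map.injective hφ h)
  refine ⟨hφ, ?_, ?_⟩
  · intro c c' hcc
    by_cases h : s(c, c') = s(a, b)
    · right
      rw [SimpleGraph.edge_adj]
      rw [Sym2.eq_iff] at h
      refine ⟨?_, fun hh => (G.graph.ne_of_adj hcc) (hφ hh)⟩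
      rcases h with ⟨rfl, rfl⟩ | ⟨rfl, rfl⟩
      · left; exact ⟨hφa, hφb⟩
      · right; exact ⟨hφb, hφa⟩
    · left
      exact hadj c c' hcc h
  · intro e he e' he' hlt
    simp only [EOGraph.addEdge]
    by_cases h1 : e = s(a, b)
    · by_cases h2 : e' = s(a, b)
      · rw [h1, h2] at hlt; exact absurd hlt (lt_irrefl _)
      · rw [h1, hmap, Function.update_self, Function.update_of_ne (hmapne e' h2)]
        rcases hmin e' he' h2 with h | h
        · exact h.2
        · rw [h1] at hlt; exact absurd hlt (not_lt.mpr h.1.le)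
    · by_cases h2 : e' = s(a, b)
      · rw [h2, hmap, Function.update_self, Function.update_of_ne (hmapne e h1)]
        rcases hmin e he h1 with h | h
        · rw [h2] at hlt; exact absurd hlt (not_lt.mpr h.1.le)
        · exact h.2
      · rw [Function.update_of_ne (hmapne e h1), Function.update_of_ne (hmapne e' h2)]
        exact hord e he e' he' h1 h2 hlt

/-- The host graph e-semisaturates `G`. -/
theorem host_semisat {V R : Type} [Fintype V] [DecidableEq V] [Fintype R] {m T q : ℕ} (G : EOGraph V)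
    (rk : Sym2 V → Fin q)
    (hrk : ∀ e ∈ G.graph.edgeSet, ∀ e' ∈ G.graph.edgeSet, G.lab e < G.lab e' → rk e < rk e')
    (a b a' b' : V) (hab : s(a, b) ∈ G.graph.edgeSet) (hab' : s(a', b') ∈ G.graph.edgeSet)
    (hmin : ∀ e ∈ G.graph.edgeSet, G.lab s(a, b) ≤ G.lab e)
    (hmax : ∀ e ∈ G.graph.edgeSet, G.lab e ≤ G.lab s(a', b'))
    (z1 z2 : Sym2 (V × Fin m) → Fin T) (f1 f2 : R → Fin m → ℕ)
    (h1 : ∀ i i', i ≠ i' → Good a b rk z1 univ (f1 i) (f1 i'))
    (h2 : ∀ i i', i ≠ i' → Good a' b' rk z2 univ (f2 i) (f2 i'))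
    (hf2 : ∀ i x, f2 i x < T) :
    ESemisat G (host z1 z2 f1 f2) := by
  classical
  intro u v huv hadj ξ hξ
  have hout : Outer u ∧ Outer v := by
    by_contra h
    exact hadj ⟨huv, h⟩
  obtain ⟨⟨u0, rfl⟩, v0, rfl⟩ := hout
  have hu0 : u0 ≠ v0 := by rintro rfl; exact huv rfl
  have hane : a ≠ b := G.graph.ne_of_adj hab
  have hane' : a' ≠ b' := G.graph.ne_of_adj hab'
  have hstrict : ∀ e ∈ G.graph.edgeSet, e ≠ s(a, b) → G.lab s(a, b) < G.lab e := by
    intro e he hne
    refine lt_of_le_of_ne (hmin e he) ?_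
    intro h
    exact hne (G.inj hab he h).symm
  have hstrict' : ∀ e ∈ G.graph.edgeSet, e ≠ s(a', b') → G.lab e < G.lab s(a', b') := by
    intro e he hne
    refine lt_of_le_of_ne (hmax e he) ?_
    intro h
    exact hne (G.inj he hab' h)
  have hcoreadj : ∀ (φ : V → Host V R m) (a b : V), Function.Injective φ →
      (∀ c, c ≠ a → c ≠ b → ¬ Outer (φ c)) → ∀ c c', G.graph.Adj c c' → s(c, c') ≠ s(a, b) →
        (hostGraph V R m).Adj (φ c) (φ c') := by
    intro φ a b hφ hcore c c' hcc hne
    apply adj_core (fun h => (G.graph.ne_of_adj hcc) (hφ h))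
    by_contra hcon
    push Not at hcon
    have h1 : c = a ∨ c = b := by
      by_contra h; push Not at h
      exact hcore c h.1 h.2 hcon.1
    have h2 : c' = a ∨ c' = b := by
      by_contra h; push Not at h
      exact hcore c' h.1 h.2 hcon.2
    have h3 := G.graph.ne_of_adj hcc
    rcases h1 with rfl | rfl <;> rcases h2 with rfl | rfl
    · exact h3 rfl
    · exact hne rfl
    · exact hne Sym2.eq_swap
    · exact h3 rfl
  have hcell : ∀ (φ : V → Host V R m) (a b : V) (o A J : ℕ),
      (∀ e : Sym2 V, ¬ e.IsDiag → e ≠ s(a, b) → o + A + rk e * J ≤ cell z1 z2 f1 f2 (e.map φ) ∧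
        cell z1 z2 f1 f2 (e.map φ) < o + A + (rk e + 1) * J) →
      ∀ e ∈ G.graph.edgeSet, ∀ e' ∈ G.graph.edgeSet, e ≠ s(a, b) → e' ≠ s(a, b) → G.lab e < G.lab e' →
        (host z1 z2 f1 f2).lab (e.map φ) < (host z1 z2 f1 f2).lab (e'.map φ) := by
    intro φ a b o A J hcl e he e' he' hne hne' hlt
    have h1 := (hcl e (G.graph.not_isDiag_of_mem_edgeSet he) hne).2
    have h2 := (hcl e' (G.graph.not_isDiag_of_mem_edgeSet he') hne').1
    have h3 : (rk e : ℕ) + 1 ≤ rk e' := hrk e he e' he' hlt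
    have h4 : ((rk e : ℕ) + 1) * J ≤ rk e' * J := Nat.mul_le_mul_right _ h3
    have h5 : cell z1 z2 f1 f2 (e.map φ) < cell z1 z2 f1 f2 (e'.map φ) := by omega
    simp only [host]
    exact_mod_cast hostLab_lt z1 z2 f1 f2 _ _ h5
  by_cases hcase : ∀ e ∈ (host z1 z2 f1 f2).graph.edgeSet, T ≤ cell z1 z2 f1 f2 e → ξ < (host z1 z2 f1 f2).lab e
  · -- use the first core
    obtain ⟨φ, hφ, hφa, hφb, hφc, A, J, hcl⟩ := embed a b hane rk z1 (cell z1 z2 f1 f2)
      (fun p => (Sum.inl p : Host V R m)) Sum.inl_injective (Sum.inr (Sum.inr u0)) (Sum.inr (Sum.inr v0)) huv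
      (fun p => by simp) (fun p => by simp) T (f1 u0) (f1 v0) (fun p p' => rfl) (fun p => rfl) (fun p => rfl)
      (h1 u0 v0 hu0)
    have hcore : ∀ c, c ≠ a → c ≠ b → ¬ Outer (φ c) := by
      intro c h1 h2
      obtain ⟨p, hp⟩ := hφc c h1 h2
      rw [hp]
      rintro ⟨w, hw⟩
      simp at hw
    refine ⟨φ, ?_, s(a, b), hab, by rw [Sym2.map_mk, hφa, hφb]⟩
    apply isCopy_of G _ _ _ ξ hξ φ hφ a b hφa hφb hane (hcoreadj φ a b hφ hcore) (hcell φ a b T A J hcl)
    intro e he hne
    left
    refine ⟨hstrict e he hne, hcase _ ?_ ?_⟩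
    · induction e using Sym2.ind with
      | _ c c' => exact hcoreadj φ a b hφ hcore c c' he hne
    · have := (hcl e (G.graph.not_isDiag_of_mem_edgeSet he) hne).1
      omega
  · -- use the second core
    push Not at hcase
    obtain ⟨e0, he0, hTe0, hξe0⟩ := hcase
    have hlow : ∀ e, cell z1 z2 f1 f2 e < T → (host z1 z2 f1 f2).lab e < ξ := by
      intro e he
      refine lt_of_lt_of_le ?_ hξe0
      simp only [host]
      exact_mod_cast hostLab_lt z1 z2 f1 f2 _ _ (lt_of_lt_of_le he hTe0)
    obtain ⟨φ, hφ, hφa, hφb, hφc, A, J, hcl⟩ := embed a' b' hane' rk z2 (cell z1 z2 f1 f2)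
      (fun p => (Sum.inr (Sum.inl p) : Host V R m)) (fun p p' h => Sum.inl_injective (Sum.inr_injective h))
      (Sum.inr (Sum.inr u0)) (Sum.inr (Sum.inr v0)) huv
      (fun p => by simp) (fun p => by simp) 0 (f2 u0) (f2 v0) (fun p p' => rfl) (fun p => rfl) (fun p => rfl)
      (h2 u0 v0 hu0)
    have hcore : ∀ c, c ≠ a' → c ≠ b' → ¬ Outer (φ c) := by
      intro c h1 h2
      obtain ⟨p, hp⟩ := hφc c h1 h2
      rw [hp]
      rintro ⟨w, hw⟩
      simp at hw
    have hcellT : ∀ x y : Host V R m, (∀ p, x ≠ Sum.inl p) → (∀ p, y ≠ Sum.inl p) → ¬ (Outer x ∧ Outer y) →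
        cell z1 z2 f1 f2 s(x, y) < T := by
      intro x y hx hy hxy
      rcases x with p | p | u
      · exact absurd rfl (hx p)
      · rcases y with p' | p' | u'
        · exact absurd rfl (hy p')
        · show 0 + (z2 s(p, p') : ℕ) < T
          rw [zero_add]
          exact (z2 s(p, p')).isLt
        · show 0 + f2 u' p.2 < T
          rw [zero_add]
          exact hf2 _ _
      · rcases y with p' | p' | u'
        · exact absurd rfl (hy p')
        · show 0 + f2 u p'.2 < T
          rw [zero_add]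
          exact hf2 _ _
        · exact absurd ⟨⟨u, rfl⟩, ⟨u', rfl⟩⟩ hxy
    have hnotinl : ∀ c p, φ c ≠ (Sum.inl p : Host V R m) := by
      intro c p h
      by_cases hca : c = a'
      · rw [hca, hφa] at h; simp at h
      · by_cases hcb : c = b'
        · rw [hcb, hφb] at h; simp at h
        · obtain ⟨p', hp'⟩ := hφc c hca hcb
          rw [hp'] at h; simp at h
    refine ⟨φ, ?_, s(a', b'), hab', by rw [Sym2.map_mk, hφa, hφb]⟩
    apply isCopy_of G _ _ _ ξ hξ φ hφ a' b' hφa hφb hane' (hcoreadj φ a' b' hφ hcore) (hcell φ a' b' 0 A J hcl)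
    intro e he hne
    right
    refine ⟨hstrict' e he hne, hlow _ ?_⟩
    induction e using Sym2.ind with
    | _ c c' =>
      rw [Sym2.map_mk]
      exact hcellT _ _ (hnotinl c) (hnotinl c') (hcoreadj φ a' b' hφ hcore c c' he hne).2

/-- The number of edges of the host graph. -/
lemma host_edges {V R : Type} [Fintype V] [Fintype R] {m : ℕ} :
    (hostGraph V R m).edgeSet.ncard ≤ 2 * (Fintype.card V * m) * Fintype.card (Host V R m) := by
  classical
  let C := (V × Fin m) ⊕ (V × Fin m)
  let j : C → Host V R m := fun c => Sum.elim (fun p => Sum.inl p) (fun p => Sum.inr (Sum.inl p)) c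
  let g : C × Host V R m → Sym2 (Host V R m) := fun p => s(j p.1, p.2)
  have hsub : (hostGraph V R m).edgeSet ⊆ Set.range g := by
    intro e he
    induction e using Sym2.ind with
    | _ x y =>
      have hx : ¬ (Outer x ∧ Outer y) := he.2
      rcases x with p | p | u
      · exact ⟨(Sum.inl p, y), rfl⟩
      · exact ⟨(Sum.inr p, y), rfl⟩
      · rcases y with p' | p' | u'
        · exact ⟨(Sum.inl p', Sum.inr (Sum.inr u)), Sym2.eq_swap⟩
        · exact ⟨(Sum.inr p', Sum.inr (Sum.inr u)), Sym2.eq_swap⟩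
        · exact absurd ⟨⟨u, rfl⟩, ⟨u', rfl⟩⟩ hx
  calc (hostGraph V R m).edgeSet.ncard ≤ (Set.range g).ncard := Set.ncard_le_ncard hsub (Set.toFinite _)
    _ ≤ Nat.card (C × Host V R m) := by
        rw [← Set.image_univ, ← Set.ncard_univ]
        exact Set.ncard_image_le (Set.toFinite _)
    _ = 2 * (Fintype.card V * m) * Fintype.card (Host V R m) := by
        rw [Nat.card_prod, Nat.card_eq_fintype_card, Nat.card_eq_fintype_card]
        simp only [C, Fintype.card_sum, Fintype.card_prod, Fintype.card_fin]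
        ring

end Pool.Agent.R83.EOSat
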