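import Mathlib

set_option autoImplicit false

/-!
# Induced saturation of disjoint unions of chains: a linear upper bound
-/

namespace Pool.Agent.R83.PSat

open Finset

/-- The family `F` of elements of the partial order `Q` contains an induced copy of `P`. -/
def HasCopy {Q : Type} [PartialOrder Q] (P : Type) [PartialOrder P] (F : Finset Q) : Prop :=
  ∃ b : P → Q, (∀ p, b p ∈ F) ∧ ∀ p q, p ≤ q ↔ b p ≤ b q

lemma HasCopy.mono {Q : Type} [PartialOrder Q] {P : Type} [PartialOrder P] {F F' : Finset Q}
    (h : HasCopy P F) (hF : F ⊆ F') : HasCopy P F' := by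
  obtain ⟨b, h1, h2⟩ := h
  exact ⟨b, fun p => hF (h1 p), h2⟩

/-- Greedy extension to a saturated family. -/
lemma exists_sat {Q : Type} [PartialOrder Q] [Fintype Q] [DecidableEq Q] (P : Type) [PartialOrder P]
    (F₀ U : Finset Q) (h0 : ¬ HasCopy P F₀)
    (hU : ∀ G, G ∉ U → HasCopy P (insert G F₀)) :
    ∃ F : Finset Q, ¬ HasCopy P F ∧ (∀ G, G ∉ F → HasCopy P (insert G F)) ∧ F.card ≤ U.card := by
  classical
  obtain ⟨F, hF, hmax⟩ := Finset.exists_max_image
    ((univ : Finset (Finset Q)).filter (fun F => F₀ ⊆ F ∧ ¬ HasCopy P F)) Finset.card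
    ⟨F₀, by rw [mem_filter]; exact ⟨mem_univ _, subset_rfl, h0⟩⟩
  rw [mem_filter] at hF
  obtain ⟨-, hF1, hF2⟩ := hF
  refine ⟨F, hF2, ?_, ?_⟩
  · intro G hG
    by_contra hcon
    have := hmax (insert G F) (by
      rw [mem_filter]
      exact ⟨mem_univ _, hF1.trans (subset_insert _ _), hcon⟩)
    rw [card_insert_of_notMem hG] at this
    omega
  · apply card_le_card
    intro G hG
    by_contra hGU
    have h1 := hU G hGU
    exact hF2 (h1.mono (insert_subset hG hF1))

/-- Nested sets through a given set. -/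
lemma exists_nested {Z : Type} [Fintype Z] [DecidableEq Z] (g : Finset Z) :
    ∃ W : ℕ → Finset Z, Monotone W ∧ (∀ t, t ≤ Fintype.card Z → (W t).card = t) ∧ W g.card = g := by
  set L := g.toList ++ (univ \ g).toList with hL
  have hnd : L.Nodup := by
    rw [hL, List.nodup_append]
    refine ⟨nodup_toList _, nodup_toList _, ?_⟩
    intro a ha b hb hab
    subst hab
    rw [mem_toList] at ha hb
    exact (mem_sdiff.1 hb).2 ha
  have hlen : L.length = Fintype.card Z := by
    rw [hL, List.length_append, length_toList, length_toList, card_sdiff_of_subset (subset_univ _),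
      card_univ]
    have := card_le_univ g
    omega
  refine ⟨fun t => (L.take t).toFinset, ?_, ?_, ?_⟩
  · intro s t hst x hx
    rw [List.mem_toFinset] at hx ⊢
    exact (List.take_subset_take_left L hst) hx
  · intro t ht
    rw [List.toFinset_card_of_nodup (hnd.sublist (List.take_sublist _ _)), List.length_take, hlen]
    omega
  · change (L.take g.card).toFinset = g
    have : L.take g.card = g.toList := by
      rw [hL, List.take_append_of_le_length (by rw [length_toList])]
      rw [← length_toList, List.take_length]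
    rw [this]
    ext x
    simp

section Main

variable {m : ℕ} (i : Fin m → ℕ) (j0 : Fin m) (n : ℕ)

/-- The special elements. -/
abbrev ZZ : Type := Fin m ⊕ Fin (i j0)

/-- The sets, as pairs of a set of special elements and a set of main elements. -/
abbrev QQ : Type := Finset (ZZ i j0) × Finset (Fin n)

/-- The initial segments. -/
def seg (t : ℕ) : Finset (Fin n) := univ.filter (fun x => (x : ℕ) < t)

/-- The sets with one main element. -/
def IsL (q : QQ i j0 n) : Prop := q.2.card = 1 ∧ 2 ≤ q.1.card ∧ q.1.card ≤ i j0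

/-- The sets with all the main elements except one. -/
def IsU (q : QQ i j0 n) : Prop := q.2ᶜ.card = 1 ∧ 1 ≤ q.1.card ∧ q.1.card + 1 ≤ i j0

/-- The long chains. -/
def IsC (j : Fin m) (q : QQ i j0 n) : Prop := q.1 = {Sum.inl j} ∧ ∃ t : ℕ, q.2 = seg n t

open Classical in
/-- The starting family. -/
noncomputable def F0 : Finset (QQ i j0 n) :=
  univ.filter (fun q => IsL i j0 n q ∨ IsU i j0 n q ∨ ∃ j, j ≠ j0 ∧ i j = i j0 ∧ IsC i j0 n j q)

/-- The exceptional sets of main elements. -/
def IsBad (ℓ : ℕ) (γ : Finset (Fin n)) : Prop :=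
  γ.card ≤ 1 ∨ γᶜ.card ≤ 1 ∨ ∀ a ∉ γ, ∀ b ∈ γ, (b : ℕ) ≤ a + ℓ

open Classical in
/-- The exceptional sets. -/
noncomputable def UU : Finset (QQ i j0 n) :=
  (univ : Finset (Finset (ZZ i j0))) ×ˢ (univ.filter (fun γ : Finset (Fin n) => IsBad n (i j0) γ))

lemma seg_bad (ℓ t : ℕ) : IsBad n ℓ (seg n t) := by
  right; right
  intro a ha b hb
  simp only [seg, mem_filter, mem_univ, true_and] at ha hb
  omega

lemma F0_subset : F0 i j0 n ⊆ UU i j0 n := by
  classical
  intro q hq
  unfold F0 at hq
  unfold UU
  rw [mem_filter] at hq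
  rw [mem_product, mem_filter]
  refine ⟨mem_univ _, mem_univ _, ?_⟩
  rcases hq.2 with h | h | ⟨j, -, -, h⟩
  · exact Or.inl h.1.le
  · exact Or.inr (Or.inl h.1.le)
  · obtain ⟨t, ht⟩ := h.2
    rw [ht]
    exact seg_bad n _ t

open Classical in
lemma bad_card (ℓ : ℕ) : (univ.filter (fun γ : Finset (Fin n) => IsBad n ℓ γ)).card ≤
    (n + 1) * (2 + 2 ^ ℓ) := by
  have h1 : (univ.filter (fun γ : Finset (Fin n) => γ.card ≤ 1)).card ≤ n + 1 := by
    have hsub : (univ.filter (fun γ : Finset (Fin n) => γ.card ≤ 1)) ⊆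
        insert ∅ (univ.image (fun x : Fin n => ({x} : Finset (Fin n)))) := by
      intro γ hγ
      rw [mem_filter] at hγ
      rw [mem_insert]
      rcases Nat.lt_or_ge γ.card 1 with h | h
      · left
        exact card_eq_zero.1 (by omega)
      · right
        obtain ⟨x, hx⟩ := card_eq_one.1 (le_antisymm hγ.2 h)
        rw [hx]
        exact mem_image_of_mem _ (mem_univ _)
    refine (card_le_card hsub).trans ((card_insert_le _ _).trans ?_)
    have := card_image_le (s := (univ : Finset (Fin n))) (f := fun x : Fin n => ({x} : Finset (Fin n)))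
    rw [card_univ, Fintype.card_fin] at this
    omega
  have h2 : (univ.filter (fun γ : Finset (Fin n) => γᶜ.card ≤ 1)).card ≤ n + 1 := by
    refine le_trans ?_ h1
    apply card_le_card_of_injOn (fun γ => γᶜ)
    · intro γ hγ
      rw [mem_coe, mem_filter] at hγ ⊢
      exact ⟨mem_univ _, hγ.2⟩
    · intro γ _ γ' _ h
      exact compl_injective h
  have h3 : (univ.filter (fun γ : Finset (Fin n) => ∀ a ∉ γ, ∀ b ∈ γ, (b : ℕ) ≤ a + ℓ)).card ≤
      (n + 1) * 2 ^ ℓ := by
    have hsub : (univ.filter (fun γ : Finset (Fin n) => ∀ a ∉ γ, ∀ b ∈ γ, (b : ℕ) ≤ a + ℓ)) ⊆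
        ((univ : Finset (Fin (n + 1))) ×ˢ (univ : Finset (Finset (Fin ℓ)))).image
          (fun p : Fin (n + 1) × Finset (Fin ℓ) => univ.filter (fun x : Fin n =>
            (x : ℕ) < (p.1 : ℕ) ∨ ∃ s : Fin ℓ, s ∈ p.2 ∧ (x : ℕ) = (p.1 : ℕ) + 1 + (s : ℕ))) := by
      intro γ hγ
      rw [mem_filter] at hγ
      rw [mem_image]
      by_cases hfull : γ = univ
      · refine ⟨(⟨n, by omega⟩, ∅), by simp, ?_⟩
        rw [hfull]
        ext x
        simp
      · have hne : (univ \ γ).Nonempty := by
          rw [nonempty_iff_ne_empty]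
          intro h
          exact hfull (univ_subset_iff.1 (sdiff_eq_empty_iff_subset.1 h))
        set a := (univ \ γ).min' hne with ha
        have haγ : a ∉ γ := (mem_sdiff.1 (min'_mem _ hne)).2
        have hmin : ∀ x : Fin n, x < a → x ∈ γ := by
          intro x hx
          by_contra hxγ
          exact absurd (min'_le _ x (mem_sdiff.2 ⟨mem_univ _, hxγ⟩)) (not_le.2 hx)
        refine ⟨(⟨a, by omega⟩, univ.filter (fun s : Fin ℓ => ∃ x ∈ γ, (x : ℕ) = a + 1 + (s : ℕ))), by simp, ?_⟩
        ext x
        simp only [mem_filter, mem_univ, true_and]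
        constructor
        · rintro (h | ⟨s, ⟨y, hy, hys⟩, hxs⟩)
          · exact hmin x (Fin.lt_def.2 h)
          · have : x = y := Fin.ext (by omega)
            rw [this]
            exact hy
        · intro hx
          have hne' : (x : ℕ) ≠ a := fun h => haγ (by rw [← Fin.ext h]; exact hx)
          have hle := hγ.2 a haγ x hx
          rcases Nat.lt_or_ge (x : ℕ) a with h | h
          · exact Or.inl h
          · right
            exact ⟨⟨x - a - 1, by omega⟩, ⟨x, hx, by simp only; omega⟩, by simp only; omega⟩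
    refine (card_le_card hsub).trans (card_image_le.trans ?_)
    rw [card_product, card_univ, card_univ, Fintype.card_fin, Fintype.card_finset, Fintype.card_fin]
  have hsplit : (univ.filter (fun γ : Finset (Fin n) => IsBad n ℓ γ)) ⊆
      (univ.filter (fun γ : Finset (Fin n) => γ.card ≤ 1)) ∪
      ((univ.filter (fun γ : Finset (Fin n) => γᶜ.card ≤ 1)) ∪
      (univ.filter (fun γ : Finset (Fin n) => ∀ a ∉ γ, ∀ b ∈ γ, (b : ℕ) ≤ a + ℓ))) := by
    intro γ hγ
    rw [mem_filter] at hγ
    rw [mem_union, mem_union, mem_filter, mem_filter, mem_filter]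
    rcases hγ.2 with h | h | h
    · exact Or.inl ⟨mem_univ _, h⟩
    · exact Or.inr (Or.inl ⟨mem_univ _, h⟩)
    · exact Or.inr (Or.inr ⟨mem_univ _, h⟩)
  calc _ ≤ _ := card_le_card hsplit
    _ ≤ _ + (_ + _) := (card_union_le _ _).trans (Nat.add_le_add_left (card_union_le _ _) _)
    _ ≤ (n + 1) + ((n + 1) + (n + 1) * 2 ^ ℓ) := by gcongr
    _ = (n + 1) * (2 + 2 ^ ℓ) := by ring

lemma UU_card : (UU i j0 n).card ≤ 2 ^ (m + i j0) * ((n + 1) * (2 + 2 ^ (i j0))) := by
  classical
  unfold UU
  rw [card_product]
  have h1 : (univ : Finset (Finset (ZZ i j0))).card = 2 ^ (m + i j0) := by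
    rw [card_univ, Fintype.card_finset, Fintype.card_sum, Fintype.card_fin, Fintype.card_fin]
  rw [h1]
  exact Nat.mul_le_mul_left _ (bad_card n _)

/-! ### The starting family has no copy -/

/-- The rank. -/
def rk {i : Fin m → ℕ} {j0 : Fin m} {n : ℕ} (q : QQ i j0 n) : ℕ := if q.2.card = 1 then q.1.card - 1 else q.1.card

variable {i j0 n}

lemma rk_bounds (hn : 3 ≤ n) {q : QQ i j0 n} (hq : IsL i j0 n q ∨ IsU i j0 n q) :
    1 ≤ rk q ∧ rk q + 1 ≤ i j0 := by
  unfold rk
  rcases hq with h | h
  · rw [if_pos h.1]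
    have := h.2
    omega
  · have h1 : q.2.card ≠ 1 := by
      intro h2
      have := card_compl_add_card q.2
      rw [Fintype.card_fin, h.1, h2] at this
      omega
    rw [if_neg h1]
    exact h.2

lemma rk_lt (hn : 3 ≤ n) {q q' : QQ i j0 n} (hq : IsL i j0 n q ∨ IsU i j0 n q)
    (hq' : IsL i j0 n q' ∨ IsU i j0 n q') (h : q < q') : rk q < rk q' := by
  have hle : q.1 ⊆ q'.1 ∧ q.2 ⊆ q'.2 := h.le
  have hne : q ≠ q' := h.ne
  have hU : ∀ q : QQ i j0 n, IsU i j0 n q → q.2.card = n - 1 := by
    intro q h
    have := card_compl_add_card q.2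
    rw [Fintype.card_fin, h.1] at this
    omega
  -- equal second components
  have key : q.2.card = q'.2.card → q.1.card < q'.1.card := by
    intro hc
    have h2 : q.2 = q'.2 := eq_of_subset_of_card_le hle.2 hc.ge
    have h1 : q.1 ≠ q'.1 := fun h1 => hne (Prod.ext h1 h2)
    exact card_lt_card (lt_of_le_of_ne hle.1 h1)
  have hc1 := card_le_card hle.1
  have hc2 := card_le_card hle.2
  unfold rk
  rcases hq with hq | hq <;> rcases hq' with hq' | hq'
  · have := key (hq.1.trans hq'.1.symm)
    rw [if_pos hq.1, if_pos hq'.1]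
    have := hq.2.1
    omega
  · have h1 := hU q' hq'
    rw [if_pos hq.1, if_neg (by omega)]
    have := hq.2.1
    omega
  · exfalso
    have h1 := hU q hq
    have := hq'.1
    omega
  · have h1 := hU q hq
    have h2 := hU q' hq'
    have := key (h1.trans h2.symm)
    rw [if_neg (by omega), if_neg (by omega)]
    exact this

lemma C_comparable {j : Fin m} {q q' : QQ i j0 n} (hq : IsC i j0 n j q) (hq' : IsC i j0 n j q') :
    q ≤ q' ∨ q' ≤ q := by
  obtain ⟨h1, t, h2⟩ := hq
  obtain ⟨h1', t', h2'⟩ := hq'
  have key : ∀ t t' : ℕ, t ≤ t' → seg n t ⊆ seg n t' := by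
    intro t t' htt x hx
    simp only [seg, mem_filter, mem_univ, true_and] at hx ⊢
    omega
  rcases le_total t t' with h | h
  · left
    exact ⟨by rw [h1, h1'], by rw [h2, h2']; exact key t t' h⟩
  · right
    exact ⟨by rw [h1, h1'], by rw [h2, h2']; exact key t' t h⟩

theorem F0_free (hn : 3 ≤ n) (hpos : ∀ j, 1 ≤ i j) :
    ¬ HasCopy (Σ j : Fin m, Fin (i j)) (F0 i j0 n) := by
  classical
  rintro ⟨b, hb1, hb2⟩
  -- every long chain meets a long chain of the family
  have hmeet : ∀ j : Fin m, i j = i j0 → ∃ (x : Fin (i j)) (j' : Fin m), j' ≠ j0 ∧ i j' = i j0 ∧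
      IsC i j0 n j' (b ⟨j, x⟩) := by
    intro j hj
    by_contra hcon
    push Not at hcon
    have hLU : ∀ x : Fin (i j), IsL i j0 n (b ⟨j, x⟩) ∨ IsU i j0 n (b ⟨j, x⟩) := by
      intro x
      have := hb1 ⟨j, x⟩
      unfold F0 at this
      rw [mem_filter] at this
      rcases this.2 with h | h | ⟨j', h1, h2, h3⟩
      · exact Or.inl h
      · exact Or.inr h
      · exact absurd h3 (hcon x j' h1 h2)
    have hlt : ∀ x y : Fin (i j), x < y → rk (b ⟨j, x⟩) < rk (b ⟨j, y⟩) := by
      intro x y hxy
      apply rk_lt hn (hLU x) (hLU y)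
      have h1 : b ⟨j, x⟩ ≤ b ⟨j, y⟩ := by
        rw [← hb2, Sigma.le_def]
        exact ⟨rfl, hxy.le⟩
      refine lt_of_le_of_ne h1 ?_
      intro h2
      have h3 : (⟨j, y⟩ : Σ j : Fin m, Fin (i j)) ≤ ⟨j, x⟩ := by
        rw [hb2, h2]
      rw [Sigma.le_def] at h3
      obtain ⟨_, h4⟩ := h3
      exact absurd hxy (not_lt.2 h4)
    have hge : ∀ k : ℕ, ∀ hk : k < i j, k + 1 ≤ rk (b ⟨j, ⟨k, hk⟩⟩) := by
      intro k
      induction k with
      | zero =>
        intro hk
        exact (rk_bounds hn (hLU ⟨0, hk⟩)).1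
      | succ k ih =>
        intro hk
        have h1 := ih (by omega)
        have h2 := hlt ⟨k, by omega⟩ ⟨k + 1, hk⟩ (by rw [Fin.lt_def]; exact Nat.lt_succ_self k)
        omega
    have hp := hpos j
    have h1 := hge (i j - 1) (by omega)
    have h2 := (rk_bounds hn (hLU ⟨i j - 1, by omega⟩)).2
    omega
  -- pigeonhole
  set K : Finset (Fin m) := univ.filter (fun j => i j = i j0) with hK
  have hj0 : j0 ∈ K := by rw [hK, mem_filter]; exact ⟨mem_univ _, rfl⟩
  have hch : ∀ j : Fin m, ∃ j' : Fin m, j ∈ K → (j' ∈ K.erase j0 ∧ ∃ x : Fin (i j), IsC i j0 n j' (b ⟨j, x⟩)) := by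
    intro j
    by_cases hj : j ∈ K
    · have hj' := (mem_filter.1 hj).2
      obtain ⟨x, j', h1, h2, h3⟩ := hmeet j hj'
      exact ⟨j', fun _ => ⟨mem_erase.2 ⟨h1, by rw [hK, mem_filter]; exact ⟨mem_univ _, h2⟩⟩, x, h3⟩⟩
    · exact ⟨j, fun h => absurd h hj⟩
  choose r hr using hch
  obtain ⟨j, hj, j', hj', hne, hrr⟩ := exists_ne_map_eq_of_card_lt_of_maps_to (s := K) (t := K.erase j0)
    (card_erase_lt_of_mem hj0) (f := r) (fun j hj => (hr j hj).1)
  obtain ⟨-, x, hx⟩ := hr j hj
  obtain ⟨-, x', hx'⟩ := hr j' hj'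
  rw [← hrr] at hx'
  rcases C_comparable hx hx' with h | h
  · rw [← hb2, Sigma.le_def] at h
    exact hne h.1
  · rw [← hb2, Sigma.le_def] at h
    exact hne h.1.symm

/-! ### Adding a set creates a copy -/

/-- The elements of the copy. -/
def cf (W : ℕ → Finset (ZZ i j0)) (g : Finset (ZZ i j0)) (γ : Finset (Fin n)) (a b : Fin n) (d : ℕ) (j : Fin m)
    (x : ℕ) : QQ i j0 n :=
  if j = j0 then (if x < d then (W (x + 2), {b}) else if x = d then (g, γ) else (W x, {a}ᶜ))
  else if i j = i j0 then ({Sum.inl j}, seg n (a + 2 + x))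
  else (insert (Sum.inl j) ((univ.filter (fun v : Fin (i j0) => (v : ℕ) < x + 1)).map ⟨Sum.inr, Sum.inr_injective⟩),
    {a})

lemma pair_lt {Z : Type} {A A' : Finset Z} {γ γ' : Finset (Fin n)} (h1 : A ⊆ A') (h2 : γ ⊆ γ')
    (h : A.card < A'.card ∨ γ.card < γ'.card) : (A, γ) < (A', γ') := by
  refine lt_of_le_of_ne ⟨h1, h2⟩ ?_
  intro he
  have e1 := congrArg (fun p => p.1.card) he
  have e2 := congrArg (fun p => p.2.card) he
  simp only at e1 e2
  omega

lemma seg_card {t : ℕ} (ht : t ≤ n) : (seg n t).card = t := by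
  have : seg n t = (univ : Finset (Fin t)).map (Fin.castLEEmb ht) := by
    ext w
    simp only [seg, mem_filter, mem_univ, true_and, mem_map, Fin.castLEEmb_apply]
    constructor
    · intro h
      exact ⟨⟨w, h⟩, Fin.ext rfl⟩
    · rintro ⟨x, rfl⟩
      exact x.2
  rw [this, card_map, card_univ, Fintype.card_fin]

lemma Aset_card {j : Fin m} {x : ℕ} (hx : x + 1 ≤ i j0) :
    (insert (Sum.inl j) ((univ.filter (fun v : Fin (i j0) => (v : ℕ) < x + 1)).map
      ⟨Sum.inr, Sum.inr_injective⟩) : Finset (ZZ i j0)).card = x + 2 := by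
  rw [card_insert_of_notMem, card_map]
  · have := seg_card (n := i j0) hx
    unfold seg at this
    rw [this]
  · rw [mem_map]
    rintro ⟨v, _, hv⟩
    simp at hv

theorem F0_saturates (hn : 3 ≤ n) (hmax : ∀ j, i j ≤ i j0) (q : QQ i j0 n)
    (hq : q ∉ UU i j0 n) : HasCopy (Σ j : Fin m, Fin (i j)) (insert q (F0 i j0 n)) := by
  classical
  obtain ⟨g, γ⟩ := q
  have hbad : ¬ IsBad n (i j0) γ := by
    intro h
    apply hq
    unfold UU
    rw [mem_product, mem_filter]
    exact ⟨mem_univ _, mem_univ _, h⟩
  unfold IsBad at hbad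
  push Not at hbad
  obtain ⟨hγ1, hγ2, a, ha, b, hb, hab⟩ := hbad
  have hab' : a ≠ b := fun h => by subst h; exact ha hb
  obtain ⟨W, hWmono, hWcard, hWg⟩ := exists_nested g
  have hZ : Fintype.card (ZZ i j0) = m + i j0 := by
    rw [Fintype.card_sum, Fintype.card_fin, Fintype.card_fin]
  have hm : 1 ≤ m := by have := j0.2; omega
  have hgZ : g.card ≤ m + i j0 := by rw [← hZ]; exact card_le_univ g
  set d := min (g.card - 1) (i j0 - 1) with hd
  have hW' : ∀ t, t ≤ m + i j0 → (W t).card = t := fun t ht => hWcard t (by rw [hZ]; exact ht)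
  have hc_a : ({a}ᶜ : Finset (Fin n)).card = n - 1 := by
    rw [card_compl, Fintype.card_fin, card_singleton]
  have hcc : γᶜ.card + γ.card = n := by rw [card_compl_add_card, Fintype.card_fin]
  have hba : ({b} : Finset (Fin n)) ⊆ {a}ᶜ := by
    intro x hx
    rw [mem_singleton] at hx
    rw [mem_compl, mem_singleton, hx]
    exact hab'.symm
  have hbγ : ({b} : Finset (Fin n)) ⊆ γ := singleton_subset_iff.2 hb
  have hγa : γ ⊆ {a}ᶜ := by
    intro x hx
    rw [mem_compl, mem_singleton]
    rintro rfl
    exact ha hx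
  -- each of the chains is increasing
  have hstrict : ∀ j : Fin m, ∀ x y : ℕ, x < y → y < i j →
      cf W g γ a b d j x < cf W g γ a b d j y := by
    intro j x y hxy hy
    have hjmax := hmax j
    unfold cf
    by_cases hj : j = j0
    · rw [if_pos hj, if_pos hj]
      rcases lt_trichotomy y d with h1 | h1 | h1
      · rw [if_pos (by omega), if_pos h1]
        refine pair_lt (hWmono (by omega)) subset_rfl (Or.inl ?_)
        rw [hW' _ (by omega), hW' _ (by omega)]
        omega
      · rw [if_pos (by omega), if_neg (by omega), if_pos h1]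
        refine pair_lt ?_ hbγ (Or.inr ?_)
        · rw [← hWg]
          exact hWmono (by omega)
        · rw [card_singleton]
          exact hγ1
      · rw [if_neg (by omega : ¬ y < d), if_neg (by omega : ¬ y = d)]
        rcases lt_trichotomy x d with h2 | h2 | h2
        · rw [if_pos h2]
          refine pair_lt (hWmono (by omega)) hba (Or.inr ?_)
          rw [card_singleton, hc_a]
          omega
        · rw [if_neg (by omega), if_pos h2]
          refine pair_lt ?_ hγa (Or.inr ?_)
          · rw [← hWg]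
            exact hWmono (by omega)
          · rw [hc_a]
            omega
        · rw [if_neg (by omega), if_neg (by omega)]
          refine pair_lt (hWmono (by omega)) subset_rfl (Or.inl ?_)
          rw [hW' _ (by omega), hW' _ (by omega)]
          omega
    · rw [if_neg hj, if_neg hj]
      by_cases hj' : i j = i j0
      · rw [if_pos hj', if_pos hj']
        refine pair_lt subset_rfl ?_ (Or.inr ?_)
        · intro z hz
          simp only [seg, mem_filter, mem_univ, true_and] at hz ⊢
          omega
        · have := b.2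
          rw [seg_card (by omega), seg_card (by omega)]
          omega
      · rw [if_neg hj', if_neg hj']
        refine pair_lt ?_ subset_rfl (Or.inl ?_)
        · apply insert_subset_insert
          rw [map_subset_map]
          intro v hv
          rw [mem_filter] at hv ⊢
          exact ⟨mem_univ _, by omega⟩
        · rw [Aset_card (by omega), Aset_card (by omega)]
          omega
  -- different chains are incomparable
  have hincomp : ∀ j j' : Fin m, j ≠ j' → ∀ x y : ℕ, x < i j → y < i j' →
      ¬ cf W g γ a b d j x ≤ cf W g γ a b d j' y := by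
    intro j j' hjj x y hx hy hle
    have hle' : (cf W g γ a b d j x).1 ⊆ (cf W g γ a b d j' y).1 ∧
      (cf W g γ a b d j x).2 ⊆ (cf W g γ a b d j' y).2 := hle
    clear hle
    have hjmax := hmax j
    have hj'max := hmax j'
    -- second components of the chain through `q`
    have hb0 : ∀ x : ℕ, b ∈ (cf W g γ a b d j0 x).2 := by
      intro x
      unfold cf
      rw [if_pos rfl]
      split_ifs
      · exact mem_singleton_self b
      · exact hb
      · exact hba (mem_singleton_self b)
    have ha0 : ∀ x : ℕ, a ∉ (cf W g γ a b d j0 x).2 := by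
      intro x
      unfold cf
      rw [if_pos rfl]
      split_ifs
      · rw [mem_singleton]; exact hab'
      · exact ha
      · simp
    by_cases hj : j = j0
    · subst hj
      have h1 := hle'.2 (hb0 x)
      unfold cf at h1
      rw [if_neg (Ne.symm hjj)] at h1
      split_ifs at h1 with h2
      · simp only [seg, mem_filter, mem_univ, true_and] at h1
        omega
      · rw [mem_singleton] at h1
        exact hab' h1.symm
    · by_cases hj' : j' = j0
      · subst hj'
        apply ha0 y
        apply hle'.2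
        unfold cf
        rw [if_neg hj]
        split_ifs with h2
        · simp only [seg, mem_filter, mem_univ, true_and]
          omega
        · exact mem_singleton_self a
      · unfold cf at hle'
        rw [if_neg hj, if_neg hj'] at hle'
        by_cases h2 : i j = i j0 <;> by_cases h2' : i j' = i j0
        · rw [if_pos h2, if_pos h2'] at hle'
          have := hle'.1 (mem_singleton_self _)
          rw [mem_singleton] at this
          exact hjj (Sum.inl_injective this)
        · rw [if_pos h2, if_neg h2'] at hle'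
          have h3 := card_le_card hle'.2
          have := b.2
          rw [seg_card (by omega), card_singleton] at h3
          omega
        · rw [if_neg h2, if_pos h2'] at hle'
          have h3 := card_le_card hle'.1
          rw [card_singleton, Aset_card (by omega)] at h3
          omega
        · rw [if_neg h2, if_neg h2'] at hle'
          have := hle'.1 (mem_insert_self _ _)
          rw [mem_insert, mem_map] at this
          rcases this with h3 | ⟨v, _, hv⟩
          · exact hjj (Sum.inl_injective h3)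
          · simp at hv
  -- membership
  have hmem : ∀ j : Fin m, ∀ x : ℕ, x < i j →
      cf W g γ a b d j x ∈ insert ((g, γ) : QQ i j0 n) (F0 i j0 n) := by
    intro j x hx
    have hjmax := hmax j
    rw [mem_insert]
    unfold cf
    by_cases hj : j = j0
    · rw [if_pos hj]
      by_cases h1 : x < d
      · rw [if_pos h1]
        right
        unfold F0
        rw [mem_filter]
        refine ⟨mem_univ _, Or.inl ⟨card_singleton _, ?_, ?_⟩⟩
        · rw [hW' _ (by omega)]; omega
        · rw [hW' _ (by omega)]; omega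
      · rw [if_neg h1]
        by_cases h2 : x = d
        · rw [if_pos h2]
          exact Or.inl rfl
        · rw [if_neg h2]
          right
          unfold F0
          rw [mem_filter]
          refine ⟨mem_univ _, Or.inr (Or.inl ⟨?_, ?_, ?_⟩)⟩
          · rw [compl_compl, card_singleton]
          · rw [hW' _ (by omega)]; omega
          · rw [hj] at hx
            rw [hW' _ (by omega)]; omega
    · rw [if_neg hj]
      right
      unfold F0
      rw [mem_filter]
      refine ⟨mem_univ _, ?_⟩
      by_cases h2 : i j = i j0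
      · rw [if_pos h2]
        exact Or.inr (Or.inr ⟨j, hj, h2, rfl, _, rfl⟩)
      · rw [if_neg h2]
        refine Or.inl ⟨card_singleton _, ?_, ?_⟩
        · rw [Aset_card (by omega)]; omega
        · rw [Aset_card (by omega)]; omega
  refine ⟨fun p => cf W g γ a b d p.1 p.2, fun p => hmem p.1 p.2 p.2.2, ?_⟩
  rintro ⟨j, x⟩ ⟨j', y⟩
  constructor
  · intro h
    rw [Sigma.le_def] at h
    obtain ⟨h1, h2⟩ := h
    simp only at h1
    subst h1
    simp only at h2 ⊢
    rcases eq_or_lt_of_le h2 with h3 | h3
    · rw [h3]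
    · exact (hstrict j x y (Fin.lt_def.1 h3) y.2).le
  · intro h
    simp only at h
    by_cases hjj : j = j'
    · subst hjj
      rw [Sigma.le_def]
      refine ⟨rfl, ?_⟩
      simp only
      by_contra hcon
      push Not at hcon
      exact absurd h (not_le_of_gt (hstrict j y x (Fin.lt_def.1 hcon) x.2))
    · exact absurd h (hincomp j j' hjj x y x.2 y.2)

end Main

end Pool.Agent.R83.PSat
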