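import Mathlib

set_option autoImplicit false

/-!
# Relative saturation in complete bipartite graphs: eight-cycles
-/

namespace Pool.Agent.R83.RelSat

open SimpleGraph

/-- `H` is `F`-saturated relative to `K`: it is a spanning subgraph of `K` without a copy of `F`, and adding
any missing edge of `K` creates a copy of `F`. -/
def IsRelSat {V W : Type} (K : SimpleGraph V) (F : SimpleGraph W) (H : SimpleGraph V) : Prop :=
  H ≤ K ∧ ¬ (F ⊑ H) ∧ ∀ x y : V, K.Adj x y → ¬ H.Adj x y → F ⊑ (H ⊔ SimpleGraph.edge x y)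

/-- The saturation number `sat(K, F)`: the least number of edges of a subgraph which is `F`-saturated
relative to `K`. -/
noncomputable def relSat {V W : Type} (K : SimpleGraph V) (F : SimpleGraph W) : ℕ :=
  sInf {m | ∃ H : SimpleGraph V, IsRelSat K F H ∧ H.edgeSet.ncard = m}

/-- The edges of the core on `6 + 6` vertices. -/
def core : List (ℕ × ℕ) :=
  [(0, 3), (0, 5), (1, 2), (1, 5), (2, 0), (2, 4), (2, 5), (3, 1), (3, 4), (4, 0), (4, 2), (4, 3), (4, 4),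
    (4, 5), (5, 0)]

/-- The adjacency of the core. -/
def cB (a b : Fin 6) : Bool := core.contains (a.val, b.val)

/-- The adjacency between the left vertex `a` and the right vertex `b`: the core, left leaves attached to the
right vertex `0` and right leaves attached to the left vertex `3`. -/
def EE (a b : ℕ) : Prop :=
  (∃ (ha : a < 6) (hb : b < 6), cB ⟨a, ha⟩ ⟨b, hb⟩ = true) ∨ (6 ≤ a ∧ b = 0) ∨ (a = 3 ∧ 6 ≤ b)

lemma EE_core (a b : Fin 6) (h : cB a b = true) : EE a b := Or.inl ⟨a.2, b.2, h⟩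

lemma EE_iff (a b : Fin 6) : EE a b ↔ cB a b = true := by
  constructor
  · rintro (⟨_, _, h⟩ | ⟨h, _⟩ | ⟨_, h⟩)
    · exact h
    · have := a.2
      omega
    · have := b.2
      omega
  · exact EE_core a b

/-- The graph. -/
def HH (n₁ n₂ : ℕ) : SimpleGraph (Fin n₁ ⊕ Fin n₂) where
  Adj x y := match x, y with
    | Sum.inl a, Sum.inr b => EE a b
    | Sum.inr b, Sum.inl a => EE a b
    | _, _ => False
  symm := ⟨by
    rintro (a | b) (a' | b') h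
    · exact h
    · exact h
    · exact h
    · exact h⟩
  loopless := ⟨by
    rintro (a | b) h
    · exact h
    · exact h⟩

lemma HH_le (n₁ n₂ : ℕ) : HH n₁ n₂ ≤ completeBipartiteGraph (Fin n₁) (Fin n₂) := by
  rintro (a | b) (a' | b') h
  · exact h.elim
  · simp
  · simp
  · exact h.elim

set_option synthInstance.maxSize 4000 in
set_option maxRecDepth 100000 in
/-- There is no eight-cycle in the core. -/
lemma core_free : ∀ a0 b0 : Fin 6, cB a0 b0 = true → ∀ a1 : Fin 6, a1 ≠ a0 → cB a1 b0 = true →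
    ∀ b1 : Fin 6, b1 ≠ b0 → cB a1 b1 = true → ∀ a2 : Fin 6, a2 ≠ a0 → a2 ≠ a1 → cB a2 b1 = true →
    ∀ b2 : Fin 6, b2 ≠ b0 → b2 ≠ b1 → cB a2 b2 = true →
    ∀ a3 : Fin 6, a3 ≠ a0 → a3 ≠ a1 → a3 ≠ a2 → cB a3 b2 = true →
    ∀ b3 : Fin 6, b3 ≠ b0 → b3 ≠ b1 → b3 ≠ b2 → cB a3 b3 = true → cB a0 b3 = false := by
  decide +kernel

set_option synthInstance.maxSize 4000 in
set_option maxRecDepth 100000 in
/-- Non-adjacent pairs of the core are joined by a path of length seven. -/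
lemma core_path : ∀ a0 b3 : Fin 6, cB a0 b3 = false → ∃ b0 : Fin 6, b0 ≠ b3 ∧ cB a0 b0 = true ∧
    ∃ a1 : Fin 6, a1 ≠ a0 ∧ cB a1 b0 = true ∧ ∃ b1 : Fin 6, b1 ≠ b0 ∧ b1 ≠ b3 ∧ cB a1 b1 = true ∧
    ∃ a2 : Fin 6, a2 ≠ a0 ∧ a2 ≠ a1 ∧ cB a2 b1 = true ∧
    ∃ b2 : Fin 6, b2 ≠ b0 ∧ b2 ≠ b1 ∧ b2 ≠ b3 ∧ cB a2 b2 = true ∧
    ∃ a3 : Fin 6, a3 ≠ a0 ∧ a3 ≠ a1 ∧ a3 ≠ a2 ∧ cB a3 b2 = true ∧ cB a3 b3 = true := by
  decide +kernel

set_option synthInstance.maxSize 4000 in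
set_option maxRecDepth 100000 in
/-- Paths of length six from the right vertex `0`. -/
lemma core_path_right : ∀ b3 : Fin 6, b3 ≠ 0 → ∃ a1 : Fin 6, cB a1 0 = true ∧
    ∃ b1 : Fin 6, b1 ≠ 0 ∧ b1 ≠ b3 ∧ cB a1 b1 = true ∧ ∃ a2 : Fin 6, a2 ≠ a1 ∧ cB a2 b1 = true ∧
    ∃ b2 : Fin 6, b2 ≠ 0 ∧ b2 ≠ b1 ∧ b2 ≠ b3 ∧ cB a2 b2 = true ∧
    ∃ a3 : Fin 6, a3 ≠ a1 ∧ a3 ≠ a2 ∧ cB a3 b2 = true ∧ cB a3 b3 = true := by
  decide +kernel

set_option synthInstance.maxSize 4000 in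
set_option maxRecDepth 100000 in
/-- Paths of length six to the left vertex `3`. -/
lemma core_path_left : ∀ a0 : Fin 6, a0 ≠ 3 → ∃ b0 : Fin 6, cB a0 b0 = true ∧
    ∃ a1 : Fin 6, a1 ≠ a0 ∧ a1 ≠ 3 ∧ cB a1 b0 = true ∧ ∃ b1 : Fin 6, b1 ≠ b0 ∧ cB a1 b1 = true ∧
    ∃ a2 : Fin 6, a2 ≠ a0 ∧ a2 ≠ a1 ∧ a2 ≠ 3 ∧ cB a2 b1 = true ∧
    ∃ b2 : Fin 6, b2 ≠ b0 ∧ b2 ≠ b1 ∧ cB a2 b2 = true ∧ cB 3 b2 = true := by
  decide +kernel

set_option synthInstance.maxSize 4000 in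
set_option maxRecDepth 100000 in
/-- A path of length five from the right vertex `0` to the left vertex `3`. -/
lemma core_path_both : ∃ a1 : Fin 6, a1 ≠ 3 ∧ cB a1 0 = true ∧ ∃ b1 : Fin 6, b1 ≠ 0 ∧ cB a1 b1 = true ∧
    ∃ a2 : Fin 6, a2 ≠ a1 ∧ a2 ≠ 3 ∧ cB a2 b1 = true ∧
    ∃ b2 : Fin 6, b2 ≠ 0 ∧ b2 ≠ b1 ∧ cB a2 b2 = true ∧ cB 3 b2 = true := by
  decide +kernel

/-- A left vertex with two distinct neighbours is in the core. -/
lemma left_lt {a b b' : ℕ} (h : EE a b) (h' : EE a b') (hne : b ≠ b') : a < 6 := by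
  by_contra hcon
  rcases h with ⟨h1, _⟩ | ⟨_, h1⟩ | ⟨h1, _⟩ <;> rcases h' with ⟨h2, _⟩ | ⟨_, h2⟩ | ⟨h2, _⟩ <;> omega

/-- A right vertex with two distinct neighbours is in the core. -/
lemma right_lt {a a' b : ℕ} (h : EE a b) (h' : EE a' b) (hne : a ≠ a') : b < 6 := by
  by_contra hcon
  rcases h with ⟨_, h1, _⟩ | ⟨_, h1⟩ | ⟨h1, _⟩ <;> rcases h' with ⟨_, h2, _⟩ | ⟨_, h2⟩ | ⟨h2, _⟩ <;> omega

/-- There is no eight-cycle. -/
lemma no_eight {a0 a1 a2 a3 b0 b1 b2 b3 : ℕ} (h00 : EE a0 b0) (h10 : EE a1 b0) (h11 : EE a1 b1)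
    (h21 : EE a2 b1) (h22 : EE a2 b2) (h32 : EE a3 b2) (h33 : EE a3 b3) (h03 : EE a0 b3)
    (ha : a1 ≠ a0 ∧ a2 ≠ a0 ∧ a2 ≠ a1 ∧ a3 ≠ a0 ∧ a3 ≠ a1 ∧ a3 ≠ a2)
    (hb : b1 ≠ b0 ∧ b2 ≠ b0 ∧ b2 ≠ b1 ∧ b3 ≠ b0 ∧ b3 ≠ b1 ∧ b3 ≠ b2) : False := by
  obtain ⟨x1, x2, x3, x4, x5, x6⟩ := ha
  obtain ⟨y1, y2, y3, y4, y5, y6⟩ := hb
  have la0 := left_lt h00 h03 y4.symm
  have la1 := left_lt h10 h11 y1.symm
  have la2 := left_lt h21 h22 y3.symm
  have la3 := left_lt h32 h33 y6.symm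
  have lb0 := right_lt h00 h10 x1.symm
  have lb1 := right_lt h11 h21 x3.symm
  have lb2 := right_lt h22 h32 x6.symm
  have lb3 := right_lt h33 h03 x4
  have k := core_free ⟨a0, la0⟩ ⟨b0, lb0⟩ ((EE_iff _ _).mp h00) ⟨a1, la1⟩ (by simpa using x1)
    ((EE_iff _ _).mp h10) ⟨b1, lb1⟩ (by simpa using y1) ((EE_iff _ _).mp h11) ⟨a2, la2⟩ (by simpa using x2)
    (by simpa using x3) ((EE_iff _ _).mp h21) ⟨b2, lb2⟩ (by simpa using y2) (by simpa using y3)
    ((EE_iff _ _).mp h22) ⟨a3, la3⟩ (by simpa using x4) (by simpa using x5) (by simpa using x6)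
    ((EE_iff _ _).mp h32) ⟨b3, lb3⟩ (by simpa using y4) (by simpa using y5) (by simpa using y6)
    ((EE_iff _ _).mp h33)
  have k2 := (EE_iff ⟨a0, la0⟩ ⟨b3, lb3⟩).mp h03
  rw [k] at k2
  exact absurd k2 (by simp)

/-- Adjacency in the graph forces opposite sides. -/
lemma adj_lr {n₁ n₂ : ℕ} {x y : Fin n₁ ⊕ Fin n₂} (h : (HH n₁ n₂).Adj x y) :
    (∃ a b, x = Sum.inl a ∧ y = Sum.inr b ∧ EE a b) ∨ (∃ a b, x = Sum.inr b ∧ y = Sum.inl a ∧ EE a b) := by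
  rcases x with a | b <;> rcases y with a' | b'
  · exact h.elim
  · exact Or.inl ⟨a, b', rfl, rfl, h⟩
  · exact Or.inr ⟨a', b, rfl, rfl, h⟩
  · exact h.elim

lemma cyc8 : ∀ s : Fin 8, (cycleGraph 8).Adj s (s + 1) ∧ (cycleGraph 8).Adj (s + 1) (s + 2) ∧
    (cycleGraph 8).Adj (s + 2) (s + 3) ∧ (cycleGraph 8).Adj (s + 3) (s + 4) ∧
    (cycleGraph 8).Adj (s + 4) (s + 5) ∧ (cycleGraph 8).Adj (s + 5) (s + 6) ∧
    (cycleGraph 8).Adj (s + 6) (s + 7) ∧ (cycleGraph 8).Adj (s + 7) s := by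
  decide

lemma HH_free (n₁ n₂ : ℕ) : ¬ (cycleGraph 8 ⊑ HH n₁ n₂) := by
  rintro ⟨f⟩
  have hinj : Function.Injective f := f.injective
  have hadj : ∀ i j : Fin 8, (cycleGraph 8).Adj i j → (HH n₁ n₂).Adj (f i) (f j) :=
    fun i j h => f.toHom.map_adj h
  have key : ∀ s : Fin 8, ∀ a : Fin n₁, f s = Sum.inl a → False := by
    intro s a hs
    have e01 := hadj s (s + 1) (cyc8 s).1
    have e12 := hadj (s + 1) (s + 2) (cyc8 s).2.1
    have e23 := hadj (s + 2) (s + 3) (cyc8 s).2.2.1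
    have e34 := hadj (s + 3) (s + 4) (cyc8 s).2.2.2.1
    have e45 := hadj (s + 4) (s + 5) (cyc8 s).2.2.2.2.1
    have e56 := hadj (s + 5) (s + 6) (cyc8 s).2.2.2.2.2.1
    have e67 := hadj (s + 6) (s + 7) (cyc8 s).2.2.2.2.2.2.1
    have e70 := hadj (s + 7) s (cyc8 s).2.2.2.2.2.2.2
    have n : ∀ i j : Fin 8, i ≠ j → f (s + i) ≠ f (s + j) := by
      intro i j hij h
      exact hij (add_left_cancel (hinj h))
    have n02 := n 0 2 (by decide)
    have n04 := n 0 4 (by decide)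
    have n06 := n 0 6 (by decide)
    have n24 := n 2 4 (by decide)
    have n26 := n 2 6 (by decide)
    have n46 := n 4 6 (by decide)
    have n13 := n 1 3 (by decide)
    have n15 := n 1 5 (by decide)
    have n17 := n 1 7 (by decide)
    have n35 := n 3 5 (by decide)
    have n37 := n 3 7 (by decide)
    have n57 := n 5 7 (by decide)
    rw [add_zero] at n02 n04 n06
    rcases f1 : f (s + 1) with x | b0
    · rw [hs, f1] at e01; exact e01
    rcases f2 : f (s + 2) with a1 | x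
    swap
    · rw [f1, f2] at e12; exact e12
    rcases f3 : f (s + 3) with x | b1
    · rw [f2, f3] at e23; exact e23
    rcases f4 : f (s + 4) with a2 | x
    swap
    · rw [f3, f4] at e34; exact e34
    rcases f5 : f (s + 5) with x | b2
    · rw [f4, f5] at e45; exact e45
    rcases f6 : f (s + 6) with a3 | x
    swap
    · rw [f5, f6] at e56; exact e56
    rcases f7 : f (s + 7) with x | b3
    · rw [f6, f7] at e67; exact e67
    rw [hs, f1] at e01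
    rw [f1, f2] at e12
    rw [f2, f3] at e23
    rw [f3, f4] at e34
    rw [f4, f5] at e45
    rw [f5, f6] at e56
    rw [f6, f7] at e67
    rw [f7, hs] at e70
    rw [hs, f2] at n02
    rw [hs, f4] at n04
    rw [hs, f6] at n06
    rw [f2, f4] at n24
    rw [f2, f6] at n26
    rw [f4, f6] at n46
    rw [f1, f3] at n13
    rw [f1, f5] at n15
    rw [f1, f7] at n17
    rw [f3, f5] at n35
    rw [f3, f7] at n37
    rw [f5, f7] at n57
    have t : ∀ {p q : Fin n₁}, (Sum.inl p : Fin n₁ ⊕ Fin n₂) ≠ Sum.inl q → (q : ℕ) ≠ p :=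
      fun h hh => h (congrArg Sum.inl (Fin.ext hh.symm))
    have t' : ∀ {p q : Fin n₂}, (Sum.inr p : Fin n₁ ⊕ Fin n₂) ≠ Sum.inr q → (q : ℕ) ≠ p :=
      fun h hh => h (congrArg Sum.inr (Fin.ext hh.symm))
    exact no_eight (a0 := a) (b0 := b0) (a1 := a1) (b1 := b1) (a2 := a2) (b2 := b2) (a3 := a3) (b3 := b3)
      e01 e12 e23 e34 e45 e56 e67 e70 ⟨t n02, t n04, t n24, t n06, t n26, t n46⟩
      ⟨t' n13, t' n15, t' n35, t' n17, t' n37, t' n57⟩
  rcases f0 : f 0 with a | b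
  · exact key 0 a f0
  · have e01 := hadj 0 1 (by decide)
    rcases f1 : f 1 with a | b'
    · exact key 1 a f1
    · rw [f0, f1] at e01
      exact e01

/-- A path of length seven gives an eight-cycle once its ends are joined. -/
lemma sat_of_path {n₁ n₂ : ℕ} (a0 a1 a2 a3 : Fin n₁) (b0 b1 b2 b3 : Fin n₂)
    (h00 : EE a0 b0) (h10 : EE a1 b0) (h11 : EE a1 b1) (h21 : EE a2 b1) (h22 : EE a2 b2) (h32 : EE a3 b2)
    (h33 : EE a3 b3) (ha : [a0, a1, a2, a3].Nodup) (hb : [b0, b1, b2, b3].Nodup) :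
    cycleGraph 8 ⊑ (HH n₁ n₂ ⊔ SimpleGraph.edge (Sum.inl a0) (Sum.inr b3)) := by
  simp only [List.nodup_cons, List.mem_cons, List.not_mem_nil, or_false, not_or] at ha hb
  obtain ⟨⟨p1, p2, p3⟩, ⟨p4, p5⟩, p6, -⟩ := ha
  obtain ⟨⟨q1, q2, q3⟩, ⟨q4, q5⟩, q6, -⟩ := hb
  let f : Fin 8 → Fin n₁ ⊕ Fin n₂ :=
    ![Sum.inl a0, Sum.inr b0, Sum.inl a1, Sum.inr b1, Sum.inl a2, Sum.inr b2, Sum.inl a3, Sum.inr b3]
  set G := HH n₁ n₂ ⊔ SimpleGraph.edge (Sum.inl a0) (Sum.inr b3) with hG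
  have g : ∀ x y, (HH n₁ n₂).Adj x y → G.Adj x y := fun x y h => Or.inl h
  have key : ∀ i : Fin 8, G.Adj (f i) (f (i + 1)) := by
    intro i
    fin_cases i
    · exact g _ _ h00
    · exact g _ _ h10
    · exact g _ _ h11
    · exact g _ _ h21
    · exact g _ _ h22
    · exact g _ _ h32
    · exact g _ _ h33
    · change G.Adj (Sum.inr b3) (Sum.inl a0)
      rw [hG, SimpleGraph.sup_adj, SimpleGraph.edge_adj]
      exact Or.inr ⟨Or.inr ⟨rfl, rfl⟩, by simp⟩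
  refine ⟨⟨⟨f, ?_⟩, ?_⟩⟩
  · intro i j hij
    have : j = i + 1 ∨ i = j + 1 := by
      revert i j
      decide
    rcases this with rfl | rfl
    · exact key i
    · exact (key j).symm
  · intro i j hij
    change f i = f j at hij
    fin_cases i <;> fin_cases j <;> first | rfl | (exfalso; revert hij; simp [f, p1, p2, p3, p4, p5, p6, q1,
      q2, q3, q4, q5, q6, Ne.symm p1, Ne.symm p2, Ne.symm p3, Ne.symm p4, Ne.symm p5, Ne.symm p6, Ne.symm q1,
      Ne.symm q2, Ne.symm q3, Ne.symm q4, Ne.symm q5, Ne.symm q6])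

/-- The graph is saturated. -/
lemma HH_sat_pair {n₁ n₂ : ℕ} (h₁ : 6 ≤ n₁) (h₂ : 6 ≤ n₂) (a : Fin n₁) (b : Fin n₂) (h : ¬ EE a b) :
    cycleGraph 8 ⊑ (HH n₁ n₂ ⊔ SimpleGraph.edge (Sum.inl a) (Sum.inr b)) := by
  let u : Fin 6 → Fin n₁ := fun i => ⟨i.val, by omega⟩
  let v : Fin 6 → Fin n₂ := fun i => ⟨i.val, by omega⟩
  have hu : ∀ {i j : Fin 6}, i ≠ j → u i ≠ u j := by
    intro i j hij hh
    exact hij (Fin.ext (by simpa [u] using congrArg Fin.val hh))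
  have hv : ∀ {i j : Fin 6}, i ≠ j → v i ≠ v j := by
    intro i j hij hh
    exact hij (Fin.ext (by simpa [v] using congrArg Fin.val hh))
  have hE : ∀ {i j : Fin 6}, cB i j = true → EE (u i) (v j) := fun h => EE_core _ _ h
  by_cases ha : (a : ℕ) < 6 <;> by_cases hb : (b : ℕ) < 6
  · have hc : cB ⟨a, ha⟩ ⟨b, hb⟩ = false := by
      by_contra hcon
      rw [Bool.not_eq_false] at hcon
      exact h (EE_core ⟨a, ha⟩ ⟨b, hb⟩ hcon)
    obtain ⟨b0, t1, k1, a1, t2, k2, b1, t3, t4, k3, a2, t5, t6, k4, b2, t7, t8, t9, k5, a3, t10, t11, t12, k6,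
      k7⟩ := core_path ⟨a, ha⟩ ⟨b, hb⟩ hc
    have ea : a = u ⟨a, ha⟩ := rfl
    have eb : b = v ⟨b, hb⟩ := rfl
    rw [ea, eb]
    refine sat_of_path (u ⟨a, ha⟩) (u a1) (u a2) (u a3) (v b0) (v b1) (v b2) (v ⟨b, hb⟩) (hE k1) (hE k2)
      (hE k3) (hE k4) (hE k5) (hE k6) (hE k7) ?_ ?_
    · simp [(hu t2).symm, (hu t5).symm, (hu t10).symm, (hu t6).symm, (hu t11).symm, (hu t12).symm]
    · simp [(hv t3).symm, (hv t7).symm, hv t1, (hv t8).symm, hv t4, hv t9]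
  · -- a right leaf
    have ha3 : (⟨a, ha⟩ : Fin 6) ≠ 3 := by
      intro hh
      apply h
      right; right
      exact ⟨by simpa using congrArg Fin.val hh, by omega⟩
    obtain ⟨b0, k1, a1, t1, t2, k2, b1, t3, k3, a2, t4, t5, t6, k4, b2, t7, t8, k5, k6⟩ :=
      core_path_left ⟨a, ha⟩ ha3
    have ea : a = u ⟨a, ha⟩ := rfl
    rw [ea]
    have hbv : ∀ i : Fin 6, v i ≠ b := by
      intro i hh
      have := congrArg Fin.val hh
      have hi := i.2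
      simp only [v] at this
      omega
    refine sat_of_path (u ⟨a, ha⟩) (u a1) (u a2) (u 3) (v b0) (v b1) (v b2) b (hE k1) (hE k2)
      (hE k3) (hE k4) (hE k5) (hE k6) (Or.inr (Or.inr ⟨rfl, by omega⟩)) ?_ ?_
    · simp [(hu t1).symm, (hu t4).symm, hu ha3, (hu t5).symm, hu t2, hu t6]
    · simp [(hv t3).symm, (hv t7).symm, hbv, (hv t8).symm]
  · -- a left leaf
    have hb0 : (⟨b, hb⟩ : Fin 6) ≠ 0 := by
      intro hh
      apply h
      right; left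
      exact ⟨by omega, by simpa using congrArg Fin.val hh⟩
    obtain ⟨a1, k2, b1, t1, t2, k3, a2, t3, k4, b2, t4, t5, t6, k5, a3, t7, t8, k6, k7⟩ :=
      core_path_right ⟨b, hb⟩ hb0
    have eb : b = v ⟨b, hb⟩ := rfl
    rw [eb]
    have hau : ∀ i : Fin 6, a ≠ u i := by
      intro i hh
      have := congrArg Fin.val hh
      have hi := i.2
      simp only [u] at this
      omega
    refine sat_of_path a (u a1) (u a2) (u a3) (v 0) (v b1) (v b2) (v ⟨b, hb⟩)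
      (Or.inr (Or.inl ⟨by omega, rfl⟩)) (hE k2) (hE k3) (hE k4) (hE k5) (hE k6) (hE k7) ?_ ?_
    · simp [hau, (hu t3).symm, (hu t7).symm, (hu t8).symm]
    · simp [(hv t1).symm, (hv t4).symm, (hv hb0).symm, (hv t5).symm, hv t2, hv t6]
  · -- two leaves
    obtain ⟨a1, t1, k2, b1, t2, k3, a2, t3, t4, k4, b2, t5, t6, k5, k6⟩ := core_path_both
    have hau : ∀ i : Fin 6, a ≠ u i := by
      intro i hh
      have := congrArg Fin.val hh
      have hi := i.2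
      simp only [u] at this
      omega
    have hbv : ∀ i : Fin 6, v i ≠ b := by
      intro i hh
      have := congrArg Fin.val hh
      have hi := i.2
      simp only [v] at this
      omega
    refine sat_of_path a (u a1) (u a2) (u 3) (v 0) (v b1) (v b2) b
      (Or.inr (Or.inl ⟨by omega, rfl⟩)) (hE k2) (hE k3) (hE k4) (hE k5) (hE k6)
      (Or.inr (Or.inr ⟨rfl, by omega⟩)) ?_ ?_
    · simp [hau, (hu t3).symm, hu t1, hu t4]
    · simp [hbv, (hv t2).symm, (hv t5).symm, (hv t6).symm]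

/-- The graph is saturated relative to the complete bipartite graph. -/
theorem HH_isRelSat {n₁ n₂ : ℕ} (h₁ : 6 ≤ n₁) (h₂ : 6 ≤ n₂) :
    IsRelSat (completeBipartiteGraph (Fin n₁) (Fin n₂)) (cycleGraph 8) (HH n₁ n₂) := by
  refine ⟨HH_le n₁ n₂, HH_free n₁ n₂, ?_⟩
  rintro (a | b) (a' | b') hK hH
  · simp at hK
  · exact HH_sat_pair h₁ h₂ a b' hH
  · rw [SimpleGraph.edge_comm]
    exact HH_sat_pair h₁ h₂ a' b hH
  · simp at hK

/-- The number of edges. -/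
theorem HH_edges {n₁ n₂ : ℕ} (h₁ : 6 ≤ n₁) (h₂ : 6 ≤ n₂) : (HH n₁ n₂).edgeSet.ncard ≤ n₁ + n₂ + 3 := by
  classical
  let F : Fin 15 ⊕ (Fin (n₁ - 6) ⊕ Fin (n₂ - 6)) → Sym2 (Fin n₁ ⊕ Fin n₂) := fun t => match t with
    | Sum.inl i => s(Sum.inl ⟨(core[i.val]'(by have := i.2; simp [core])).1 % n₁,
          Nat.mod_lt _ (by omega)⟩,
        Sum.inr ⟨(core[i.val]'(by have := i.2; simp [core])).2 % n₂, Nat.mod_lt _ (by omega)⟩)
    | Sum.inr (Sum.inl j) => s(Sum.inl ⟨j.val + 6, by omega⟩, Sum.inr ⟨0, by omega⟩)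
    | Sum.inr (Sum.inr j) => s(Sum.inl ⟨3, by omega⟩, Sum.inr ⟨j.val + 6, by omega⟩)
  have hsub : (HH n₁ n₂).edgeSet ⊆ Set.range F := by
    intro e he
    have key : ∀ (a : Fin n₁) (b : Fin n₂), EE a b → s(Sum.inl a, Sum.inr b) ∈ Set.range F := by
      intro a b h
      rcases h with ⟨ha, hb, h⟩ | ⟨ha, hb⟩ | ⟨ha, hb⟩
      · have h' : ((a : ℕ), (b : ℕ)) ∈ core := by simpa [cB] using h
        obtain ⟨i, hi, hh⟩ := List.mem_iff_getElem.mp h'
        refine ⟨Sum.inl ⟨i, by simpa [core] using hi⟩, ?_⟩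
        simp only [F, hh]
        exact congrArg₂ (fun x y => s(x, y)) (congrArg Sum.inl (Fin.ext (Nat.mod_eq_of_lt a.2)))
          (congrArg Sum.inr (Fin.ext (Nat.mod_eq_of_lt b.2)))
      · refine ⟨Sum.inr (Sum.inl ⟨a - 6, by omega⟩), ?_⟩
        simp only [F]
        exact congrArg₂ (fun x y => s(x, y)) (congrArg Sum.inl (Fin.ext (by simp only; omega)))
          (congrArg Sum.inr (Fin.ext hb.symm))
      · refine ⟨Sum.inr (Sum.inr ⟨b - 6, by omega⟩), ?_⟩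
        simp only [F]
        exact congrArg₂ (fun x y => s(x, y)) (congrArg Sum.inl (Fin.ext ha.symm))
          (congrArg Sum.inr (Fin.ext (by simp only; omega)))
    induction e using Sym2.ind with
    | _ x y =>
      rcases adj_lr he with ⟨a, b, rfl, rfl, h⟩ | ⟨a, b, rfl, rfl, h⟩
      · exact key a b h
      · rw [Sym2.eq_swap]
        exact key a b h
  calc (HH n₁ n₂).edgeSet.ncard ≤ (Set.range F).ncard := Set.ncard_le_ncard hsub (Set.toFinite _)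
    _ ≤ (Set.univ : Set (Fin 15 ⊕ (Fin (n₁ - 6) ⊕ Fin (n₂ - 6)))).ncard := by
        rw [← Set.image_univ]
        exact Set.ncard_image_le (Set.toFinite _)
    _ = n₁ + n₂ + 3 := by
        rw [Set.ncard_univ, Nat.card_eq_fintype_card, Fintype.card_sum, Fintype.card_sum, Fintype.card_fin,
          Fintype.card_fin, Fintype.card_fin]
        omega

end Pool.Agent.R83.RelSat
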