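import Mathlib

set_option autoImplicit false

/-!
# Saturated graphs and saturation numbers
-/

namespace Pool.Agent.R83.SatNum

open SimpleGraph

/-- `G` is `F`-saturated: it has no subgraph isomorphic to `F`, and adding any edge between two distinct
non-adjacent vertices creates one. -/
def IsSat {W V : Type} (F : SimpleGraph W) (G : SimpleGraph V) : Prop :=
  ¬ F.IsContained G ∧ ∀ x y : V, x ≠ y → ¬ G.Adj x y → F.IsContained (G ⊔ SimpleGraph.edge x y)

/-- The saturation number `sat(n, F)`: the least number of edges of an `F`-saturated graph on `n` vertices. -/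
noncomputable def satNum {W : Type} (n : ℕ) (F : SimpleGraph W) : ℕ :=
  sInf {m | ∃ G : SimpleGraph (Fin n), IsSat F G ∧ G.edgeSet.ncard = m}

lemma isSat_iso {W V V' : Type} {F : SimpleGraph W} {G : SimpleGraph V} {H : SimpleGraph V'} (e : G ≃g H)
    (h : IsSat F G) : IsSat F H := by
  refine ⟨fun hc => h.1 (hc.trans ⟨e.symm.toCopy⟩), ?_⟩
  intro x y hxy hadj
  have hc := h.2 (e.symm x) (e.symm y) (fun hh => hxy (e.symm.injective hh))
    (fun hh => hadj (by simpa using e.map_adj_iff.mpr hh))
  let f : (G ⊔ SimpleGraph.edge (e.symm x) (e.symm y)) →g (H ⊔ SimpleGraph.edge x y) :=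
    { toFun := e
      map_rel' := by
        intro a b hab
        rw [SimpleGraph.sup_adj, SimpleGraph.edge_adj] at hab ⊢
        rcases hab with hab | ⟨hab, hne⟩
        · exact Or.inl (e.map_adj_iff.mpr hab)
        · refine Or.inr ⟨?_, fun hh => hne (e.injective hh)⟩
          rcases hab with ⟨h1, h2⟩ | ⟨h1, h2⟩
          · left; exact ⟨by rw [h1]; simp, by rw [h2]; simp⟩
          · right; exact ⟨by rw [h1]; simp, by rw [h2]; simp⟩ }
  exact hc.trans ⟨⟨f, e.injective⟩⟩

/-- A saturated graph on a finite type bounds the saturation number. -/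
lemma satNum_le {W V : Type} [Fintype V] (F : SimpleGraph W) (G : SimpleGraph V) (h : IsSat F G) :
    satNum (Fintype.card V) F ≤ G.edgeSet.ncard := by
  classical
  let e := Fintype.equivFin V
  have h1 := isSat_iso (SimpleGraph.Iso.map e G) h
  apply Nat.sInf_le
  refine ⟨_, h1, ?_⟩
  have : (G.map e).edgeSet = (Sym2.map e) '' G.edgeSet := SimpleGraph.edgeSet_map e.toEmbedding G
  rw [this, Set.ncard_image_of_injective _ (Sym2.map.injective e.injective)]

end Pool.Agent.R83.SatNum
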