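import Mathlib

set_option autoImplicit false

/-!
# Theta graphs and saturation for the cycle families `C_4, ..., C_r`
-/

namespace Pool.Agent.R83.Theta

open SimpleGraph Finset

/-- `G` contains a cycle of length `l`. -/
def HasCycle {V : Type} (G : SimpleGraph V) (l : ℕ) : Prop :=
  ∃ (v : V) (w : G.Walk v v), w.IsCycle ∧ w.length = l

/-- `G` is saturated for the family of the cycles of lengths `4, ..., r`: it contains none of them, and
adding any edge between two distinct non-adjacent vertices creates one of them. -/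
def IsSat {V : Type} (r : ℕ) (G : SimpleGraph V) : Prop :=
  (∀ l, 4 ≤ l → l ≤ r → ¬ HasCycle G l) ∧
  ∀ x y : V, x ≠ y → ¬ G.Adj x y → ∃ l, 4 ≤ l ∧ l ≤ r ∧ HasCycle (G ⊔ SimpleGraph.edge x y) l

/-- The saturation number `sat(n, C_[4, r])`: the least number of edges of a graph on `n` vertices which is
saturated for the family of the cycles of lengths `4, ..., r`. -/
noncomputable def satCyc (r n : ℕ) : ℕ :=
  sInf {m | ∃ G : SimpleGraph (Fin n), IsSat r G ∧ G.edgeSet.ncard = m}

lemma HasCycle.map {V W : Type} {G : SimpleGraph V} {H : SimpleGraph W} (f : G →g H)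
    (hf : Function.Injective f) {l : ℕ} (h : HasCycle G l) : HasCycle H l := by
  obtain ⟨v, w, hw, hl⟩ := h
  exact ⟨f v, w.map f, hw.map hf, by simpa using hl⟩

lemma isSat_iso {V W : Type} {G : SimpleGraph V} {H : SimpleGraph W} (e : G ≃g H) (r : ℕ)
    (h : IsSat r G) : IsSat r H := by
  refine ⟨fun l h4 hr hc => h.1 l h4 hr (hc.map e.symm.toHom e.symm.injective), ?_⟩
  intro x y hxy hadj
  obtain ⟨l, h4, hr, hc⟩ := h.2 (e.symm x) (e.symm y) (fun hh => hxy (e.symm.injective hh))
    (fun hh => hadj (by simpa using e.map_adj_iff.mpr hh))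
  refine ⟨l, h4, hr, ?_⟩
  let f : (G ⊔ SimpleGraph.edge (e.symm x) (e.symm y)) →g (H ⊔ SimpleGraph.edge x y) :=
    { toFun := e
      map_rel' := by
        intro a b hab
        rw [SimpleGraph.sup_adj, SimpleGraph.edge_adj] at hab ⊢
        rcases hab with hab | ⟨hab, hne⟩
        · exact Or.inl (e.map_adj_iff.mpr hab)
        · refine Or.inr ⟨?_, fun hh => hne (e.injective hh)⟩
          rcases hab with ⟨h1, h2⟩ | ⟨h1, h2⟩
          · left; exact ⟨by rw [h1]; simp, by rw [h2]; simp⟩
          · right; exact ⟨by rw [h1]; simp, by rw [h2]; simp⟩ }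
  exact hc.map f e.injective

/-- A saturated graph on a finite type bounds the saturation number. -/
lemma satCyc_le {V : Type} [Fintype V] (G : SimpleGraph V) (r : ℕ) (h : IsSat r G) :
    satCyc r (Fintype.card V) ≤ G.edgeSet.ncard := by
  classical
  let e := Fintype.equivFin V
  have h1 := isSat_iso (SimpleGraph.Iso.map e G) r h
  apply Nat.sInf_le
  refine ⟨_, h1, ?_⟩
  have : (G.map e).edgeSet = (Sym2.map e) '' G.edgeSet := SimpleGraph.edgeSet_map e.toEmbedding G
  rw [this, Set.ncard_image_of_injective _ (Sym2.map.injective e.injective)]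

/-- A path from a sequence of distinct vertices. -/
lemma exists_path {V : Type} (G : SimpleGraph V) (f : ℕ → V) (n : ℕ) : ∀ s : ℕ,
    (∀ a, s ≤ a → a < s + n → G.Adj (f a) (f (a + 1))) →
    (∀ a b, s ≤ a → a ≤ s + n → s ≤ b → b ≤ s + n → f a = f b → a = b) →
    ∃ p : G.Walk (f s) (f (s + n)), p.IsPath ∧ p.length = n ∧
      ∀ v ∈ p.support, ∃ a, s ≤ a ∧ a ≤ s + n ∧ v = f a := by
  induction n with
  | zero =>
    intro s _ _
    exact ⟨Walk.nil, Walk.IsPath.nil, rfl, fun v hv => ⟨s, le_rfl, le_rfl, by simpa using hv⟩⟩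
  | succ n ih =>
    intro s h1 h2
    obtain ⟨p, hp, hl, hs⟩ := ih (s + 1) (fun a ha hb => h1 a (by omega) (by omega))
      (fun a b ha ha' hb hb' => h2 a b (by omega) (by omega) (by omega) (by omega))
    have hadj := h1 s le_rfl (by omega)
    have e : s + 1 + n = s + (n + 1) := by ring
    refine ⟨(Walk.cons hadj p).copy rfl (by rw [e]), ?_, ?_, ?_⟩
    · rw [Walk.isPath_copy, Walk.cons_isPath_iff]
      refine ⟨hp, fun hmem => ?_⟩
      obtain ⟨a, ha, ha', hh⟩ := hs _ hmem
      have := h2 s a le_rfl (by omega) (by omega) (by omega) hh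
      omega
    · simp [hl]
    · intro v hv
      rw [Walk.support_copy, Walk.support_cons, List.mem_cons] at hv
      rcases hv with rfl | hv
      · exact ⟨s, le_rfl, by omega, rfl⟩
      · obtain ⟨a, ha, ha', hh⟩ := hs _ hv
        exact ⟨a, by omega, by omega, hh⟩

/-- A path between two non-adjacent vertices gives a cycle once they are joined. -/
lemma hasCycle_of_path {V : Type} (G : SimpleGraph V) {x y : V} (hxy : x ≠ y) (hadj : ¬ G.Adj x y)
    (p : G.Walk x y) (hp : p.IsPath) : HasCycle (G ⊔ SimpleGraph.edge x y) (p.length + 1) := by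
  have hle : G ≤ G ⊔ SimpleGraph.edge x y := le_sup_left
  have hadj' : (G ⊔ SimpleGraph.edge x y).Adj y x := by
    rw [SimpleGraph.sup_adj, SimpleGraph.edge_adj]
    exact Or.inr ⟨Or.inr ⟨rfl, rfl⟩, hxy.symm⟩
  refine ⟨y, Walk.cons hadj' (p.mapLe hle), ?_, ?_⟩
  · rw [Walk.cons_isCycle_iff]
    refine ⟨hp.mapLe hle, ?_⟩
    intro hmem
    rw [Walk.edges_mapLe_eq_edges] at hmem
    exact hadj (Walk.adj_of_mem_edges p hmem).symm
  · simp

/-- A vertex of a cycle has two distinct neighbours on the cycle. -/
lemma two_nbrs {V : Type} {G : SimpleGraph V} {v : V} (w : G.Walk v v) (hw : w.IsCycle) {x : V}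
    (hx : x ∈ w.support) : ∃ a b, a ≠ b ∧ G.Adj x a ∧ G.Adj x b ∧ a ∈ w.support ∧ b ∈ w.support := by
  classical
  have hc : (w.rotate x hx).IsCycle := (Walk.isCycle_rotate hx).mpr hw
  have hsup : ∀ y, y ∈ (w.rotate x hx).support → y ∈ w.support := by
    intro y hy
    exact (Walk.mem_support_rotate_iff w x hx).mp hy
  refine ⟨(w.rotate x hx).snd, (w.rotate x hx).penultimate, hc.snd_ne_penultimate, ?_, ?_, ?_, ?_⟩
  · exact Walk.adj_snd hc.not_nil
  · exact (Walk.adj_penultimate hc.not_nil).symm
  · exact hsup _ (Walk.getVert_mem_support _ _)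
  · exact hsup _ (Walk.getVert_mem_support _ _)

/-- The vertices of the theta graph with `k` paths of length `m`: the poles and the interior vertices. -/
abbrev TV (k m : ℕ) : Type := Bool ⊕ (Fin k × Fin (m - 1))

/-- The distance to the first pole. -/
def lev {k m : ℕ} : TV k m → ℕ
  | Sum.inl false => 0
  | Sum.inl true => m
  | Sum.inr x => x.2 + 1

/-- Two vertices lie on a common path of the theta graph. -/
def comp {k m : ℕ} : TV k m → TV k m → Prop
  | Sum.inr x, Sum.inr y => x.1 = y.1
  | _, _ => True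

lemma comp_symm {k m : ℕ} (x y : TV k m) (h : comp x y) : comp y x := by
  rcases x with x | x <;> rcases y with y | y <;> simp_all [comp]

/-- The theta graph. -/
def theta (k m : ℕ) : SimpleGraph (TV k m) where
  Adj x y := comp x y ∧ (lev x + 1 = lev y ∨ lev y + 1 = lev x)
  symm := ⟨fun x y h => ⟨comp_symm x y h.1, h.2.symm⟩⟩
  loopless := ⟨fun x h => by rcases h.2 with h | h <;> omega⟩

/-- The vertex at position `t` of the path `i`. -/
def pt (k m : ℕ) (i : Fin k) (t : ℕ) : TV k m :=
  if h : t = 0 then Sum.inl false else if h' : t < m then Sum.inr (i, ⟨t - 1, by omega⟩) else Sum.inl true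

lemma lev_pt {k m : ℕ} (_hm : 1 ≤ m) (i : Fin k) (t : ℕ) (ht : t ≤ m) : lev (pt k m i t) = t := by
  unfold pt
  split_ifs with h h'
  · simp [lev, h]
  · simp only [lev]
    omega
  · simp only [lev]
    omega

lemma comp_pt {k m : ℕ} (i : Fin k) (s t : ℕ) : comp (pt k m i s) (pt k m i t) := by
  unfold pt
  split_ifs <;> simp [comp]

lemma pt_adj {k m : ℕ} (hm : 1 ≤ m) (i : Fin k) (t : ℕ) (ht : t < m) :
    (theta k m).Adj (pt k m i t) (pt k m i (t + 1)) := by
  refine ⟨comp_pt i _ _, Or.inl ?_⟩
  rw [lev_pt hm i t ht.le, lev_pt hm i (t + 1) ht]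

/-- Every vertex is on a path. -/
lemma exists_pt {k m : ℕ} (hm : 1 ≤ m) (x : TV k m) (i0 : Fin k) :
    ∃ i t, t ≤ m ∧ x = pt k m i t ∧ (t = 0 ∨ t = m → i = i0) := by
  rcases x with (_ | _) | ⟨i, j⟩
  · exact ⟨i0, 0, by omega, by simp [pt], fun _ => rfl⟩
  · exact ⟨i0, m, le_rfl, by simp [pt]; omega, fun _ => rfl⟩
  · have := j.2
    refine ⟨i, j + 1, by omega, ?_, fun h => by omega⟩
    have h1 : (j : ℕ) + 1 < m := by omega
    simp [pt, h1]

lemma pt_inj {k m : ℕ} (hm : 1 ≤ m) (i j : Fin k) (s t : ℕ) (hs : s ≤ m) (ht : t ≤ m)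
    (h : pt k m i s = pt k m j t) : s = t ∧ (0 < s → s < m → i = j) := by
  have h1 : s = t := by
    have := congrArg lev h
    rwa [lev_pt hm i s hs, lev_pt hm j t ht] at this
  refine ⟨h1, fun h0 hsm => ?_⟩
  subst h1
  unfold pt at h
  rw [dif_neg (by omega), dif_pos hsm, dif_neg (by omega), dif_pos hsm] at h
  simp only [Sum.inr.injEq, Prod.mk.injEq] at h
  exact h.1

/-- The closed curve which follows the path `i` from the first pole to the second one and comes back
along the path `j`. -/
def cyc (k m : ℕ) (i j : Fin k) (a : ℕ) : TV k m :=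
  if a % (2 * m) ≤ m then pt k m i (a % (2 * m)) else pt k m j (2 * m - a % (2 * m))

lemma cyc_adj {k m : ℕ} (hm : 1 ≤ m) (i j : Fin k) (a : ℕ) :
    (theta k m).Adj (cyc k m i j a) (cyc k m i j (a + 1)) := by
  have hlt : a % (2 * m) < 2 * m := Nat.mod_lt _ (by omega)
  have hsucc : (a + 1) % (2 * m) = if a % (2 * m) + 1 = 2 * m then 0 else a % (2 * m) + 1 := by
    rw [Nat.add_mod]
    by_cases h : a % (2 * m) + 1 = 2 * m
    · rw [if_pos h]
      by_cases h1 : 2 * m = 1
      · omega
      · rw [Nat.mod_eq_of_lt (show 1 < 2 * m by omega), h, Nat.mod_self]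
    · rw [if_neg h, Nat.mod_eq_of_lt (show 1 < 2 * m by omega)]
      exact Nat.mod_eq_of_lt (by omega)
  unfold cyc
  rw [hsucc]
  set b := a % (2 * m) with hb
  by_cases h1 : b + 1 = 2 * m
  · rw [if_pos h1, if_pos (Nat.zero_le m)]
    by_cases h2 : b ≤ m
    · rw [if_pos h2]
      have : m = 1 := by omega
      subst this
      have hb1 : b = 1 := by omega
      rw [hb1]
      have := (pt_adj (k := k) (m := 1) le_rfl i 0 (by omega)).symm
      simpa using this
    · rw [if_neg h2]
      have e : 2 * m - b = 0 + 1 := by omega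
      rw [e]
      have := (pt_adj (k := k) hm j 0 (by omega)).symm
      have e2 : pt k m i 0 = pt k m j 0 := by simp [pt]
      rw [e2]
      exact this
  · rw [if_neg h1]
    by_cases h2 : b ≤ m
    · rw [if_pos h2]
      by_cases h3 : b + 1 ≤ m
      · rw [if_pos h3]
        exact pt_adj hm i b (by omega)
      · rw [if_neg h3]
        have hbm : b = m := by omega
        have e : 2 * m - (b + 1) = m - 1 := by omega
        rw [e, hbm]
        have e2 : pt k m i m = pt k m j m := by
          simp only [pt]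
          rw [dif_neg (by omega), dif_neg (by omega), dif_neg (by omega), dif_neg (by omega)]
        rw [e2]
        have := (pt_adj (k := k) hm j (m - 1) (by omega)).symm
        rwa [Nat.sub_add_cancel hm] at this
    · rw [if_neg h2, if_neg (by omega)]
      have := (pt_adj (k := k) hm j (2 * m - (b + 1)) (by omega)).symm
      have e : 2 * m - (b + 1) + 1 = 2 * m - b := by omega
      rwa [e] at this

lemma cyc_inj {k m : ℕ} (hm : 1 ≤ m) (i j : Fin k) (hij : i ≠ j) (a b : ℕ)
    (h : cyc k m i j a = cyc k m i j b) : a % (2 * m) = b % (2 * m) := by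
  have h1 : a % (2 * m) < 2 * m := Nat.mod_lt _ (by omega)
  have h2 : b % (2 * m) < 2 * m := Nat.mod_lt _ (by omega)
  unfold cyc at h
  split_ifs at h with h3 h4 h4
  · exact (pt_inj hm i i _ _ h3 h4 h).1
  · have := pt_inj hm i j _ _ h3 (by omega) h
    by_contra hne
    exact hij (this.2 (by omega) (by omega))
  · have := pt_inj hm j i _ _ (by omega) h4 h
    by_contra hne
    exact hij (this.2 (by omega) (by omega)).symm
  · have := (pt_inj hm j j _ _ (by omega) (by omega) h).1
    omega

lemma mod_inj (M s a b n : ℕ) (hn : n < M) (ha : s ≤ a) (ha' : a ≤ s + n) (hb : s ≤ b) (hb' : b ≤ s + n)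
    (h : a % M = b % M) : a = b := by
  rcases Nat.le_total a b with hab | hab
  · have h1 : M ∣ b - a := (Nat.modEq_iff_dvd' hab).mp h
    have h2 := Nat.eq_zero_of_dvd_of_lt h1 (by omega)
    omega
  · have h1 : M ∣ a - b := (Nat.modEq_iff_dvd' hab).mp h.symm
    have h2 := Nat.eq_zero_of_dvd_of_lt h1 (by omega)
    omega

/-- Arcs of the closed curve are paths. -/
lemma arc {k m : ℕ} (hm : 1 ≤ m) (i j : Fin k) (hij : i ≠ j) (s n : ℕ) (hn : n < 2 * m) :
    ∃ p : (theta k m).Walk (cyc k m i j s) (cyc k m i j (s + n)), p.IsPath ∧ p.length = n := by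
  obtain ⟨p, hp, hl, -⟩ := exists_path (theta k m) (cyc k m i j) n s (fun a _ _ => cyc_adj hm i j a)
    (fun a b ha ha' hb hb' h => mod_inj (2 * m) s a b n hn ha ha' hb hb' (cyc_inj hm i j hij a b h))
  exact ⟨p, hp, hl⟩

/-- Two vertices on the closed curve. -/
lemma sat_on_cyc {k m : ℕ} (hm : 3 ≤ m) (i j : Fin k) (hij : i ≠ j) (s t : ℕ) (hst : s < t) (ht : t < 2 * m)
    (hadj : ¬ (theta k m).Adj (cyc k m i j s) (cyc k m i j t)) :
    ∃ l, 4 ≤ l ∧ l ≤ 2 * m - 1 ∧
      HasCycle (theta k m ⊔ SimpleGraph.edge (cyc k m i j s) (cyc k m i j t)) l := by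
  have hne : cyc k m i j s ≠ cyc k m i j t := by
    intro h
    have := cyc_inj (by omega) i j hij s t h
    rw [Nat.mod_eq_of_lt (by omega), Nat.mod_eq_of_lt ht] at this
    omega
  have h1 : t ≠ s + 1 := by
    rintro rfl
    exact hadj (cyc_adj (by omega) i j s)
  have hper : cyc k m i j (s + 2 * m) = cyc k m i j s := by
    unfold cyc
    rw [Nat.add_mod_right]
  have h2 : t + 1 ≠ s + 2 * m := by
    intro h
    apply hadj
    have := (cyc_adj (k := k) (m := m) (by omega) i j t).symm
    rwa [h, hper] at this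
  by_cases h3 : t = s + 2
  · -- the long arc
    obtain ⟨p, hp, hl⟩ := arc (k := k) (m := m) (by omega) i j hij t (2 * m - 2) (by omega)
    have e : t + (2 * m - 2) = s + 2 * m := by omega
    have e2 : cyc k m i j (t + (2 * m - 2)) = cyc k m i j s := by rw [e, hper]
    refine ⟨2 * m - 1, by omega, le_rfl, ?_⟩
    have := hasCycle_of_path (theta k m) hne hadj ((p.copy rfl e2).reverse) (by simpa using hp)
    simp only [Walk.length_reverse, Walk.length_copy, hl] at this
    have e3 : 2 * m - 2 + 1 = 2 * m - 1 := by omega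
    rwa [e3] at this
  · obtain ⟨p, hp, hl⟩ := arc (k := k) (m := m) (by omega) i j hij s (t - s) (by omega)
    have e : s + (t - s) = t := by omega
    refine ⟨t - s + 1, by omega, by omega, ?_⟩
    have := hasCycle_of_path (theta k m) hne hadj (p.copy rfl (by rw [e])) (by simpa using hp)
    simp only [Walk.length_copy, hl] at this
    exact this

/-- Any two vertices lie on a common closed curve. -/
lemma common {k m : ℕ} (hk : 2 ≤ k) (hm : 1 ≤ m) (x y : TV k m) :
    ∃ (i j : Fin k) (s t : ℕ), i ≠ j ∧ s < 2 * m ∧ t < 2 * m ∧ x = cyc k m i j s ∧ y = cyc k m i j t := by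
  have hcyc1 : ∀ (i j : Fin k) (t : ℕ), t ≤ m → cyc k m i j t = pt k m i t := by
    intro i j t ht
    unfold cyc
    rw [Nat.mod_eq_of_lt (by omega), if_pos ht]
  have hcyc2 : ∀ (i j : Fin k) (t : ℕ), 0 < t → t ≤ m → cyc k m i j (2 * m - t) = pt k m j t := by
    intro i j t h0 ht
    unfold cyc
    rw [Nat.mod_eq_of_lt (by omega)]
    split_ifs with h
    · have e : t = m := by omega
      subst e
      have e1 : 2 * t - t = t := by omega
      rw [e1]
      simp only [pt]
      rw [dif_neg (by omega), dif_neg (by omega), dif_neg (by omega), dif_neg (by omega)]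
    · congr 1
      omega
  have hpole : ∀ (i j : Fin k) (t : ℕ), (t = 0 ∨ t = m) → pt k m i t = pt k m j t := by
    rintro i j t (rfl | rfl)
    · simp [pt]
    · simp only [pt]
      rw [dif_neg (by omega), dif_neg (by omega), dif_neg (by omega), dif_neg (by omega)]
  obtain ⟨i, s, hs, rfl, -⟩ := exists_pt hm x ⟨0, by omega⟩
  obtain ⟨j, t, ht, rfl, -⟩ := exists_pt hm y ⟨0, by omega⟩
  by_cases hij : i = j
  · subst hij
    obtain ⟨j', hj'⟩ : ∃ j' : Fin k, i ≠ j' := by
      by_cases h0 : i = ⟨0, by omega⟩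
      · exact ⟨⟨1, by omega⟩, by rw [h0]; simp [Fin.ext_iff]⟩
      · exact ⟨⟨0, by omega⟩, h0⟩
    exact ⟨i, j', s, t, hj', by omega, by omega, (hcyc1 i j' s hs).symm, (hcyc1 i j' t ht).symm⟩
  · by_cases ht0 : t = 0
    · refine ⟨i, j, s, t, hij, by omega, by omega, (hcyc1 i j s hs).symm, ?_⟩
      rw [hcyc1 i j t ht]
      exact hpole j i t (Or.inl ht0)
    · refine ⟨i, j, s, 2 * m - t, hij, by omega, by omega, (hcyc1 i j s hs).symm, ?_⟩
      rw [hcyc2 i j t (by omega) ht]

/-- Adding an edge creates a short cycle. -/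
lemma theta_sat {k m : ℕ} (hk : 2 ≤ k) (hm : 3 ≤ m) (x y : TV k m) (hxy : x ≠ y)
    (hadj : ¬ (theta k m).Adj x y) :
    ∃ l, 4 ≤ l ∧ l ≤ 2 * m - 1 ∧ HasCycle (theta k m ⊔ SimpleGraph.edge x y) l := by
  obtain ⟨i, j, s, t, hij, hs, ht, rfl, rfl⟩ := common hk (by omega) x y
  rcases lt_trichotomy s t with h | h | h
  · exact sat_on_cyc hm i j hij s t h ht hadj
  · exact absurd (congrArg _ h) hxy
  · have := sat_on_cyc hm i j hij t s h hs (fun hh => hadj hh.symm)
    rwa [SimpleGraph.edge_comm] at this

/-- A vertex other than the first pole has at most one neighbour on each higher level. -/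
lemma up_unique {k m : ℕ} (x a b : TV k m) (hx : x ≠ Sum.inl false)
    (ha : (theta k m).Adj x a) (hb : (theta k m).Adj x b) (hla : lev x + 1 = lev a)
    (hlb : lev x + 1 = lev b) : a = b := by
  obtain ⟨hca, -⟩ := ha
  obtain ⟨hcb, -⟩ := hb
  rcases x with (_ | _) | ⟨i, t⟩
  · exact absurd rfl hx
  · exfalso
    rcases a with (_ | _) | ⟨j, u⟩
    · simp [lev] at hla
    · simp [lev] at hla
    · have := u.2
      simp only [lev] at hla
      omega
  · have ht := t.2
    rcases a with (_ | _) | ⟨j, u⟩ <;> rcases b with (_ | _) | ⟨j', u'⟩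
    · rfl
    · simp only [lev] at hla hlb
      omega
    · simp only [lev] at hla hlb
      omega
    · simp only [lev] at hla hlb
      omega
    · rfl
    · have := u'.2
      simp only [lev] at hla hlb
      omega
    · simp only [lev] at hla hlb
      omega
    · have := u.2
      simp only [lev] at hla hlb
      omega
    · simp only [comp] at hca hcb
      subst hca hcb
      simp only [lev] at hla hlb
      have : u = u' := Fin.ext (by omega)
      rw [this]

/-- A vertex other than the second pole has at most one neighbour on each lower level. -/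
lemma down_unique {k m : ℕ} (x a b : TV k m) (hx : x ≠ Sum.inl true)
    (ha : (theta k m).Adj x a) (hb : (theta k m).Adj x b) (hla : lev a + 1 = lev x)
    (hlb : lev b + 1 = lev x) : a = b := by
  obtain ⟨hca, -⟩ := ha
  obtain ⟨hcb, -⟩ := hb
  rcases x with (_ | _) | ⟨i, t⟩
  · exfalso
    simp [lev] at hla
  · exact absurd rfl hx
  · have ht := t.2
    rcases a with (_ | _) | ⟨j, u⟩ <;> rcases b with (_ | _) | ⟨j', u'⟩
    · rfl
    · simp only [lev] at hla hlb
      omega
    · simp only [lev] at hla hlb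
      omega
    · simp only [lev] at hla hlb
      omega
    · rfl
    · have := u'.2
      simp only [lev] at hla hlb
      omega
    · simp only [lev] at hla hlb
      omega
    · have := u.2
      simp only [lev] at hla hlb
      omega
    · simp only [comp] at hca hcb
      subst hca hcb
      simp only [lev] at hla hlb
      have : u = u' := Fin.ext (by omega)
      rw [this]

lemma lev_le {k m : ℕ} (hm : 1 ≤ m) (x : TV k m) : lev x ≤ m := by
  rcases x with (_ | _) | ⟨i, t⟩
  · simp [lev]
  · simp [lev]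
  · have := t.2
    simp only [lev]
    omega

/-- A cycle passes through the first pole. -/
lemma mem_first {k m : ℕ} {v : TV k m} (w : (theta k m).Walk v v) (hw : w.IsCycle) :
    (Sum.inl false : TV k m) ∈ w.support := by
  classical
  obtain ⟨x, hx, hmin⟩ := Finset.exists_min_image w.support.toFinset lev ⟨v, by simp⟩
  rw [List.mem_toFinset] at hx
  by_cases h : x = Sum.inl false
  · rw [← h]
    exact hx
  exfalso
  obtain ⟨a, b, hab, ha, hb, ha', hb'⟩ := two_nbrs w hw hx
  have h1 := hmin a (by simpa using ha')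
  have h2 := hmin b (by simpa using hb')
  refine hab (up_unique x a b h ha hb ?_ ?_)
  · rcases ha.2 with h3 | h3 <;> omega
  · rcases hb.2 with h3 | h3 <;> omega

/-- A cycle passes through the second pole. -/
lemma mem_second {k m : ℕ} {v : TV k m} (w : (theta k m).Walk v v) (hw : w.IsCycle) :
    (Sum.inl true : TV k m) ∈ w.support := by
  classical
  obtain ⟨x, hx, hmax⟩ := Finset.exists_max_image w.support.toFinset lev ⟨v, by simp⟩
  rw [List.mem_toFinset] at hx
  by_cases h : x = Sum.inl true
  · rw [← h]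
    exact hx
  exfalso
  obtain ⟨a, b, hab, ha, hb, ha', hb'⟩ := two_nbrs w hw hx
  have h1 := hmax a (by simpa using ha')
  have h2 := hmax b (by simpa using hb')
  refine hab (down_unique x a b h ha hb ?_ ?_)
  · rcases ha.2 with h3 | h3 <;> omega
  · rcases hb.2 with h3 | h3 <;> omega

lemma lev_walk {k m : ℕ} {x y : TV k m} (w : (theta k m).Walk x y) :
    lev y ≤ lev x + w.length ∧ lev x ≤ lev y + w.length := by
  induction w with
  | nil => simp
  | cons h p ih =>
    have := h.2
    rw [Walk.length_cons]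
    omega

/-- The cycles of the theta graph have length at least `2 * m`. -/
lemma theta_girth {k m : ℕ} {v : TV k m} (w : (theta k m).Walk v v) (hw : w.IsCycle) :
    2 * m ≤ w.length := by
  classical
  have h1 := mem_first w hw
  have h2 := mem_second w hw
  have h2' : (Sum.inl true : TV k m) ∈ (w.rotate _ h1).support := by
    rw [Walk.mem_support_rotate_iff]
    exact h2
  have hl : (w.rotate _ h1).length = w.length := Walk.length_rotate w _ h1
  have h3 := congrArg Walk.length (Walk.take_spec (w.rotate _ h1) h2')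
  rw [Walk.length_append] at h3
  have h4 := (lev_walk ((w.rotate _ h1).takeUntil _ h2')).1
  have h5 := (lev_walk ((w.rotate _ h1).dropUntil _ h2')).2
  have e1 : lev (Sum.inl true : TV k m) = m := rfl
  have e2 : lev (Sum.inl false : TV k m) = 0 := rfl
  rw [e1, e2] at h4 h5
  omega

/-- The theta graph is saturated. -/
theorem theta_isSat {k m : ℕ} (hk : 2 ≤ k) (hm : 3 ≤ m) : IsSat (2 * m - 1) (theta k m) := by
  refine ⟨?_, fun x y hxy hadj => theta_sat hk hm x y hxy hadj⟩
  rintro l h4 hl ⟨v, w, hw, rfl⟩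
  have := theta_girth w hw
  omega

/-- The number of edges of the theta graph. -/
lemma theta_edges {k m : ℕ} (hm : 2 ≤ m) : (theta k m).edgeSet.ncard ≤ k * m := by
  classical
  have key : ∀ x y : TV k m, comp x y → lev x + 1 = lev y →
      ∃ p : Fin k × Fin m, s(pt k m p.1 p.2, pt k m p.1 (p.2 + 1)) = s(x, y) := by
    intro x y hc hl
    rcases x with (_ | _) | ⟨i, t⟩
    · rcases y with (_ | _) | ⟨j, u⟩
      · simp [lev] at hl
      · simp only [lev] at hl
        omega
      · have hu := u.2
        simp only [lev] at hl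
        refine ⟨(j, ⟨0, by omega⟩), ?_⟩
        have e1 : pt k m j 0 = Sum.inl false := by simp [pt]
        have e2 : pt k m j (0 + 1) = Sum.inr (j, u) := by
          unfold pt
          rw [dif_neg (by omega), dif_pos (by omega)]
          congr 2
          exact Fin.ext (by simp; omega)
        simp only [e1, e2]
    · exfalso
      rcases y with (_ | _) | ⟨j, u⟩
      · simp [lev] at hl
      · simp [lev] at hl
      · have hu := u.2
        simp only [lev] at hl
        omega
    · have ht := t.2
      have e1 : pt k m i ((t : ℕ) + 1) = Sum.inr (i, t) := by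
        unfold pt
        rw [dif_neg (by omega), dif_pos (by omega)]
        congr 2
      refine ⟨(i, ⟨(t : ℕ) + 1, by omega⟩), ?_⟩
      rcases y with (_ | _) | ⟨j, u⟩
      · simp [lev] at hl
      · simp only [lev] at hl
        have e2 : pt k m i ((t : ℕ) + 1 + 1) = Sum.inl true := by
          unfold pt
          rw [dif_neg (by omega), dif_neg (by omega)]
        simp only [e1, e2]
      · have hu := u.2
        simp only [lev] at hl
        simp only [comp] at hc
        subst hc
        have e2 : pt k m i ((t : ℕ) + 1 + 1) = Sum.inr (i, u) := by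
          unfold pt
          rw [dif_neg (by omega), dif_pos (by omega)]
          congr 2
          exact Fin.ext (by simp; omega)
        simp only [e1, e2]
  have hsub : (theta k m).edgeSet ⊆
      Set.range (fun p : Fin k × Fin m => s(pt k m p.1 p.2, pt k m p.1 (p.2 + 1))) := by
    intro e he
    induction e using Sym2.ind with
    | _ x y =>
      obtain ⟨hc, hl | hl⟩ : comp x y ∧ (lev x + 1 = lev y ∨ lev y + 1 = lev x) := he
      · exact key x y hc hl
      · obtain ⟨p, hp⟩ := key y x (comp_symm x y hc) hl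
        exact ⟨p, by rw [Sym2.eq_swap (a := x)]; exact hp⟩
  calc (theta k m).edgeSet.ncard
      ≤ (Set.range (fun p : Fin k × Fin m => s(pt k m p.1 p.2, pt k m p.1 (p.2 + 1)))).ncard :=
        Set.ncard_le_ncard hsub (Set.toFinite _)
    _ ≤ (Set.univ : Set (Fin k × Fin m)).ncard := by
        rw [← Set.image_univ]
        exact Set.ncard_image_le (Set.toFinite _)
    _ = k * m := by
        rw [Set.ncard_univ, Nat.card_eq_fintype_card, Fintype.card_prod, Fintype.card_fin, Fintype.card_fin]

/-- The upper bound for the saturation number. -/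
theorem satCyc_theta {k m : ℕ} (hk : 2 ≤ k) (hm : 3 ≤ m) :
    satCyc (2 * m - 1) (k * (m - 1) + 2) ≤ k * m := by
  have h := satCyc_le (theta k m) (2 * m - 1) (theta_isSat hk hm)
  have hc : Fintype.card (TV k m) = k * (m - 1) + 2 := by
    rw [Fintype.card_sum, Fintype.card_bool, Fintype.card_prod, Fintype.card_fin, Fintype.card_fin]
    ring
  rw [hc] at h
  exact h.trans (theta_edges (by omega))

end Pool.Agent.R83.Theta
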