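import Pool.Agent.R83.SatNum

set_option autoImplicit false

/-!
# Saturated graphs for the virus graph `K_6^4`
-/

namespace Pool.Agent.R83.Virus

open SimpleGraph Pool.Agent.R83.SatNum

/-- The virus `K_t^s`: a complete graph on the vertices `inl i`, `i < t`, and for `i < s` a vertex `inr i` of
degree one (if `s ≤ t`) whose neighbour is `inl i`. -/
def virus (s t : ℕ) : SimpleGraph (Fin t ⊕ Fin s) where
  Adj := fun x y => match x, y with
    | .inl a, .inl b => a ≠ b
    | .inl a, .inr b => (a : ℕ) = b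
    | .inr a, .inl b => (a : ℕ) = b
    | .inr _, .inr _ => False
  symm := ⟨by
    rintro (a | a) (b | b) h
    · exact h.symm
    · exact Eq.symm h
    · exact Eq.symm h
    · exact h⟩
  loopless := ⟨by
    rintro (a | a) h
    · exact h rfl
    · exact h⟩

instance (s t : ℕ) : DecidableRel (virus s t).Adj := by
  rintro (a | a) (b | b)
  · exact inferInstanceAs (Decidable (a ≠ b))
  · exact inferInstanceAs (Decidable ((a : ℕ) = b))
  · exact inferInstanceAs (Decidable ((a : ℕ) = b))
  · exact inferInstanceAs (Decidable False)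

/-- The local graph: `8` is the hub, the other vertices form a block. In the block `0, 1, 2` are independent and
all other pairs are adjacent; the hub is adjacent to `0, ..., 5`. -/
def ladj (p q : ℕ) : Prop :=
  p ≠ q ∧ ((p < 8 ∧ q < 8 ∧ ¬ (p < 3 ∧ q < 3)) ∨ (p = 8 ∧ q < 6) ∨ (q = 8 ∧ p < 6))

instance (p q : ℕ) : Decidable (ladj p q) := by unfold ladj; infer_instance

lemma ladj_symm {p q : ℕ} (h : ladj p q) : ladj q p := by
  unfold ladj at *
  tauto

/-- The vertices: a hub and `N` blocks with `8` vertices. -/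
abbrev VV (N : ℕ) : Type := Option (Fin N × Fin 8)

/-- The local name of a vertex. -/
def loc {N : ℕ} : VV N → ℕ
  | none => 8
  | some (_, x) => x

/-- The saturated graph. -/
def GV (N : ℕ) : SimpleGraph (VV N) where
  Adj x y := ladj (loc x) (loc y) ∧ ∀ i j a b, x = some (i, a) → y = some (j, b) → i = j
  symm := ⟨fun _ _ h => ⟨ladj_symm h.1, fun i j a b h1 h2 => (h.2 j i b a h2 h1).symm⟩⟩
  loopless := ⟨fun _ h => h.1.1 rfl⟩

lemma loc_lt {N : ℕ} (x : VV N) (h : loc x ≠ 8) : ∃ i a, x = some (i, a) := by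
  rcases x with _ | ⟨i, a⟩
  · exact absurd rfl h
  · exact ⟨i, a, rfl⟩

/-- There is no complete graph on five vertices adjacent to the hub. -/
lemma no_clique : ∀ f : Fin 5 → Fin 8, (∀ i, (f i : ℕ) < 6) → (∀ i j, i ≠ j → ladj (f i) (f j)) → False := by
  intro f h1 h2
  -- three of the vertices are distinct elements of `{3, 4, 5}` at most, and at most one is `< 3`
  have hinj : Function.Injective f := by
    intro i j h
    by_contra hne
    exact (h2 i j hne).1 (by rw [h])
  have hcard : (Finset.univ.image f).card = 5 := by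
    rw [Finset.card_image_of_injective _ hinj, Finset.card_univ, Fintype.card_fin]
  have hsmall : ((Finset.univ.image f).filter (fun a : Fin 8 => (a : ℕ) < 3)).card ≤ 1 := by
    rw [Finset.card_le_one]
    intro a ha b hb
    rw [Finset.mem_filter, Finset.mem_image] at ha hb
    obtain ⟨⟨i, -, rfl⟩, ha'⟩ := ha
    obtain ⟨⟨j, -, rfl⟩, hb'⟩ := hb
    by_contra hne
    have := h2 i j (fun h => hne (by rw [h]))
    unfold ladj at this
    omega
  have hbig : ((Finset.univ.image f).filter (fun a : Fin 8 => ¬ (a : ℕ) < 3)).card ≤ 3 := by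
    have hsub : (Finset.univ.image f).filter (fun a : Fin 8 => ¬ (a : ℕ) < 3) ⊆ {3, 4, 5} := by
      intro a ha
      rw [Finset.mem_filter, Finset.mem_image] at ha
      obtain ⟨⟨i, -, rfl⟩, ha'⟩ := ha
      have := h1 i
      rw [Finset.mem_insert, Finset.mem_insert, Finset.mem_singleton]
      simp only [Fin.ext_iff]
      have e3 : ((3 : Fin 8) : ℕ) = 3 := rfl
      have e4 : ((4 : Fin 8) : ℕ) = 4 := rfl
      have e5 : ((5 : Fin 8) : ℕ) = 5 := rfl
      omega
    exact le_trans (Finset.card_le_card hsub) (Finset.card_le_three)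
  have := Finset.card_filter_add_card_filter_not (s := Finset.univ.image f) (fun a : Fin 8 => (a : ℕ) < 3)
  omega

/-- The graph has no copy of `K_6^4`. -/
lemma free (N : ℕ) : ¬ (virus 4 6).IsContained (GV N) := by
  rintro ⟨φ⟩
  have hadj : ∀ x y, (virus 4 6).Adj x y → (GV N).Adj (φ x) (φ y) := fun x y h => φ.toHom.map_adj h
  have hinj : Function.Injective φ := φ.injective
  -- the clique avoids the hub
  have hhub : ∀ a : Fin 6, φ (.inl a) ≠ none := by
    intro a ha
    -- the other five vertices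
    have hother : ∀ i : Fin 5, ladj 8 (loc (φ (.inl (a.succAbove i)))) := by
      intro i
      have := (hadj (.inl a) (.inl (a.succAbove i)) (Fin.succAbove_ne a i).symm).1
      rw [ha] at this
      exact this
    have hlt : ∀ i : Fin 5, loc (φ (.inl (a.succAbove i))) < 6 := by
      intro i
      have := hother i
      unfold ladj at this
      omega
    refine no_clique (fun i => ⟨loc (φ (.inl (a.succAbove i))), by have := hlt i; omega⟩) hlt ?_
    intro i j hij
    have h1 : a.succAbove i ≠ a.succAbove j := fun h => hij (Fin.succAbove_right_injective h)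
    exact (hadj (.inl (a.succAbove i)) (.inl (a.succAbove j)) h1).1
  -- all the vertices lie in one block or are the hub
  obtain ⟨i0, x0, h0⟩ : ∃ i x, φ (.inl 0) = some (i, x) := by
    rcases h : φ (.inl 0) with _ | ⟨i, x⟩
    · exact absurd h (hhub 0)
    · exact ⟨i, x, rfl⟩
  have hclique : ∀ a : Fin 6, ∃ x, φ (.inl a) = some (i0, x) := by
    intro a
    by_cases ha : a = 0
    · subst ha; exact ⟨x0, h0⟩
    · rcases h : φ (.inl a) with _ | ⟨i, x⟩
      · exact absurd h (hhub a)
      · have := (hadj (.inl 0) (.inl a) (fun h => ha h.symm)).2 i0 i x0 x h0 h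
        subst this
        exact ⟨x, rfl⟩
  have hleaf : ∀ b : Fin 4, φ (.inr b) = none ∨ ∃ x, φ (.inr b) = some (i0, x) := by
    intro b
    rcases h : φ (.inr b) with _ | ⟨i, x⟩
    · exact Or.inl rfl
    · right
      obtain ⟨y, hy⟩ := hclique ⟨b, by omega⟩
      have := (hadj (.inl ⟨b, by omega⟩) (.inr b) rfl).2 i0 i y x hy h
      subst this
      exact ⟨x, rfl⟩
  -- too many vertices
  let ι : Option (Fin 8) → VV N := fun o => o.map (fun x => (i0, x))
  have hall : ∀ v : Fin 6 ⊕ Fin 4, ∃ o : Option (Fin 8), ι o = φ v := by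
    rintro (a | b)
    · obtain ⟨x, hx⟩ := hclique a
      exact ⟨some x, by rw [hx]; rfl⟩
    · rcases hleaf b with h | ⟨x, hx⟩
      · exact ⟨none, by rw [h]; rfl⟩
      · exact ⟨some x, by rw [hx]; rfl⟩
  choose g hg using hall
  have hginj : Function.Injective g := by
    intro v w h
    apply hinj
    rw [← hg v, ← hg w, h]
  have := Fintype.card_le_of_injective g hginj
  simp at this

/-- Placing the local vertices `0, ..., 7` in the block `i`, the vertex `8` at the hub and `9` at `o`. -/
def place {N : ℕ} (i : Fin N) (o : VV N) (p : Fin 10) : VV N :=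
  if h : (p : ℕ) < 8 then some (i, ⟨p, h⟩) else if (p : ℕ) = 8 then none else o

lemma place_inj {N : ℕ} {i j : Fin N} (hij : i ≠ j) (y : Fin 8) :
    Function.Injective (place i (some (j, y))) := by
  intro p q h
  unfold place at h
  split_ifs at h with h1 h2 h3 h4 h5 h6
  · simp only [Option.some.injEq, Prod.mk.injEq, Fin.mk.injEq, true_and] at h
    exact Fin.ext h
  · simp only [Option.some.injEq, Prod.mk.injEq] at h
    exact absurd h.1 hij
  · exact Fin.ext (by omega)
  · simp only [Option.some.injEq, Prod.mk.injEq] at h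
    exact absurd h.1.symm hij
  · exact Fin.ext (by omega)

/-- Embedding of the virus from a table. -/
lemma embed {N : ℕ} {i j : Fin N} (hij : i ≠ j) (y : Fin 8) (u v : VV N) (f : Fin 6 ⊕ Fin 4 → Fin 10)
    (hf : Function.Injective f)
    (hadj : ∀ a b, (virus 4 6).Adj a b → ladj (f a) (f b) ∨
      (GV N ⊔ SimpleGraph.edge u v).Adj (place i (some (j, y)) (f a)) (place i (some (j, y)) (f b))) :
    (virus 4 6).IsContained (GV N ⊔ SimpleGraph.edge u v) := by
  refine ⟨⟨⟨fun a => place i (some (j, y)) (f a), ?_⟩, fun a b h => hf (place_inj hij y h)⟩⟩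
  intro a b hab
  rcases hadj a b hab with h | h
  · rw [SimpleGraph.sup_adj]
    left
    have hlt : ∀ p q : Fin 10, ladj p q → (p : ℕ) < 9 ∧ (q : ℕ) < 9 := by
      intro p q h
      unfold ladj at h
      omega
    have hloc : ∀ p : Fin 10, (p : ℕ) < 9 → loc (place i (some (j, y)) p) = p := by
      intro p hp
      unfold place
      split_ifs with h1 h2
      · rfl
      · rw [h2]; rfl
      · omega
    have hpl : ∀ p : Fin 10, (p : ℕ) < 9 → ∀ k x, place i (some (j, y)) p = some (k, x) → k = i := by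
      intro p hp k x h
      unfold place at h
      split_ifs at h with h1 h2
      · simp only [Option.some.injEq, Prod.mk.injEq] at h
        exact h.1.symm
      · omega
    obtain ⟨h1, h2⟩ := hlt _ _ h
    refine ⟨?_, ?_⟩
    · rw [hloc _ h1, hloc _ h2]
      exact h
    · intro k l x z h3 h4
      rw [hpl _ h1 k x h3, hpl _ h2 l z h4]
  · exact h


/-- The table of the embeddings used for an edge between two blocks. -/
def tab1 (x : Fin 8) : Fin 6 ⊕ Fin 4 → Fin 10 :=
  Sum.elim ((![![0, 3, 4, 5, 6, 7],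
    ![1, 3, 4, 5, 6, 7],
    ![2, 3, 4, 5, 6, 7],
    ![3, 4, 5, 6, 0, 7],
    ![4, 3, 5, 6, 0, 7],
    ![5, 3, 4, 6, 0, 7],
    ![6, 3, 4, 5, 0, 7],
    ![7, 3, 4, 5, 0, 6]] : Fin 8 → Fin 6 → Fin 10) x)
    ((![![9, 8, 1, 2],
    ![9, 8, 0, 2],
    ![9, 8, 0, 1],
    ![9, 8, 1, 2],
    ![9, 8, 1, 2],
    ![9, 8, 1, 2],
    ![9, 8, 1, 2],
    ![9, 8, 1, 2]] : Fin 8 → Fin 4 → Fin 10) x)

/-- The table of the embeddings used for an edge between the hub and the vertex `x` of a block. -/
def tab2 (x : Fin 8) : Fin 6 ⊕ Fin 4 → Fin 10 :=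
  if x = 6 then Sum.elim ![8, 6, 3, 4, 5, 0] ![9, 7, 1, 2] else Sum.elim ![8, 7, 3, 4, 5, 0] ![9, 6, 1, 2]

/-- The table of the embeddings used for an edge between two vertices of a block; `z` is the third one. -/
def tab3 (x y z : Fin 10) : Fin 6 ⊕ Fin 4 → Fin 10 := Sum.elim ![8, 3, 4, 5, x, y] ![9, 6, 7, z]

lemma tab1_inj : ∀ x : Fin 8, Function.Injective (tab1 x) := by decide +kernel

lemma tab1_adj : ∀ x : Fin 8, ∀ a b, (virus 4 6).Adj a b → ladj (tab1 x a) (tab1 x b) ∨
    (((tab1 x a : ℕ) = x ∧ (tab1 x b : ℕ) = 9) ∨ ((tab1 x a : ℕ) = 9 ∧ (tab1 x b : ℕ) = x)) := by decide +kernel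

lemma tab2_inj : ∀ x : Fin 8, Function.Injective (tab2 x) := by decide +kernel

lemma tab2_adj : ∀ x : Fin 8, 6 ≤ (x : ℕ) → ∀ a b, (virus 4 6).Adj a b → ladj (tab2 x a) (tab2 x b) ∨
    (((tab2 x a : ℕ) = 8 ∧ (tab2 x b : ℕ) = 9) ∨ ((tab2 x a : ℕ) = 9 ∧ (tab2 x b : ℕ) = 8)) ∨
    (((tab2 x a : ℕ) = 8 ∧ (tab2 x b : ℕ) = x) ∨ ((tab2 x a : ℕ) = x ∧ (tab2 x b : ℕ) = 8)) := by
  decide +kernel

/-- The third element of `{0, 1, 2}`. -/
def third (x y : Fin 8) : Fin 10 := ⟨3 - x - y, by omega⟩

/-- A vertex of a block as a local vertex. -/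
def up (x : Fin 8) : Fin 10 := ⟨x, by omega⟩

lemma tab3_inj : ∀ x y : Fin 8, x ≠ y → (x : ℕ) < 3 → (y : ℕ) < 3 →
    Function.Injective (tab3 (up x) (up y) (third x y)) := by decide +kernel

lemma tab3_adj : ∀ x y : Fin 8, x ≠ y → (x : ℕ) < 3 → (y : ℕ) < 3 → ∀ a b, (virus 4 6).Adj a b →
    ladj (tab3 (up x) (up y) (third x y) a) (tab3 (up x) (up y) (third x y) b) ∨
    (((tab3 (up x) (up y) (third x y) a : ℕ) = 8 ∧ (tab3 (up x) (up y) (third x y) b : ℕ) = 9) ∨
      ((tab3 (up x) (up y) (third x y) a : ℕ) = 9 ∧ (tab3 (up x) (up y) (third x y) b : ℕ) = 8)) ∨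
    (((tab3 (up x) (up y) (third x y) a : ℕ) = x ∧ (tab3 (up x) (up y) (third x y) b : ℕ) = y) ∨
      ((tab3 (up x) (up y) (third x y) a : ℕ) = y ∧ (tab3 (up x) (up y) (third x y) b : ℕ) = x)) := by
  decide +kernel

lemma place_block {N : ℕ} (i : Fin N) (o : VV N) (x : Fin 8) (p : Fin 10) (h : (p : ℕ) = x) :
    place i o p = some (i, x) := by
  unfold place
  rw [dif_pos (by omega)]
  have : (⟨p, by omega⟩ : Fin 8) = x := Fin.ext h
  rw [this]

lemma place_hub {N : ℕ} (i : Fin N) (o : VV N) (p : Fin 10) (h : (p : ℕ) = 8) : place i o p = none := by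
  unfold place
  rw [dif_neg (by omega), if_pos h]

lemma place_out {N : ℕ} (i : Fin N) (o : VV N) (p : Fin 10) (h : (p : ℕ) = 9) : place i o p = o := by
  unfold place
  rw [dif_neg (by omega), if_neg (by omega)]

lemma edge_adj' {V : Type} (G : SimpleGraph V) {u v : V} (h : u ≠ v) : (G ⊔ SimpleGraph.edge u v).Adj u v := by
  rw [SimpleGraph.sup_adj, SimpleGraph.edge_adj]
  exact Or.inr ⟨Or.inl ⟨rfl, rfl⟩, h⟩

lemma sat1 {N : ℕ} {i j : Fin N} (hij : i ≠ j) (x y : Fin 8) :
    (virus 4 6).IsContained (GV N ⊔ SimpleGraph.edge (some (i, x)) (some (j, y))) := by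
  have hne : (some (i, x) : VV N) ≠ some (j, y) := by
    intro h
    simp only [Option.some.injEq, Prod.mk.injEq] at h
    exact hij h.1
  refine embed hij y _ _ (tab1 x) (tab1_inj x) ?_
  intro a b hab
  rcases tab1_adj x a b hab with h | ⟨h1, h2⟩ | ⟨h1, h2⟩
  · exact Or.inl h
  · right
    rw [place_block i _ x _ h1, place_out i _ _ h2]
    exact edge_adj' _ hne
  · right
    rw [place_block i _ x _ h2, place_out i _ _ h1]
    exact (edge_adj' _ hne).symm

lemma hub_adj {N : ℕ} (j : Fin N) : (GV N).Adj none (some (j, 0)) := by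
  refine ⟨?_, fun i k a b h _ => by simp at h⟩
  change ladj 8 0
  decide

lemma sat2 {N : ℕ} {i j : Fin N} (hij : i ≠ j) (x : Fin 8) (hx : 6 ≤ (x : ℕ)) :
    (virus 4 6).IsContained (GV N ⊔ SimpleGraph.edge none (some (i, x))) := by
  have hne : (none : VV N) ≠ some (i, x) := by simp
  refine embed hij 0 _ _ (tab2 x) (tab2_inj x) ?_
  intro a b hab
  rcases tab2_adj x hx a b hab with h | (⟨h1, h2⟩ | ⟨h1, h2⟩) | (⟨h1, h2⟩ | ⟨h1, h2⟩)
  · exact Or.inl h
  · right
    rw [place_hub i _ _ h1, place_out i _ _ h2, SimpleGraph.sup_adj]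
    exact Or.inl (hub_adj j)
  · right
    rw [place_hub i _ _ h2, place_out i _ _ h1, SimpleGraph.sup_adj]
    exact Or.inl (hub_adj j).symm
  · right
    rw [place_hub i _ _ h1, place_block i _ x _ h2]
    exact edge_adj' _ hne
  · right
    rw [place_hub i _ _ h2, place_block i _ x _ h1]
    exact (edge_adj' _ hne).symm

lemma sat3 {N : ℕ} {i j : Fin N} (hij : i ≠ j) (x y : Fin 8) (hxy : x ≠ y) (hx : (x : ℕ) < 3)
    (hy : (y : ℕ) < 3) :
    (virus 4 6).IsContained (GV N ⊔ SimpleGraph.edge (some (i, x)) (some (i, y))) := by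
  have hne : (some (i, x) : VV N) ≠ some (i, y) := by
    intro h
    simp only [Option.some.injEq, Prod.mk.injEq, true_and] at h
    exact hxy h
  refine embed hij 0 _ _ (tab3 (up x) (up y) (third x y)) (tab3_inj x y hxy hx hy) ?_
  intro a b hab
  rcases tab3_adj x y hxy hx hy a b hab with h | (⟨h1, h2⟩ | ⟨h1, h2⟩) | (⟨h1, h2⟩ | ⟨h1, h2⟩)
  · exact Or.inl h
  · right
    rw [place_hub i _ _ h1, place_out i _ _ h2, SimpleGraph.sup_adj]
    exact Or.inl (hub_adj j)
  · right
    rw [place_hub i _ _ h2, place_out i _ _ h1, SimpleGraph.sup_adj]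
    exact Or.inl (hub_adj j).symm
  · right
    rw [place_block i _ x _ h1, place_block i _ y _ h2]
    exact edge_adj' _ hne
  · right
    rw [place_block i _ y _ h1, place_block i _ x _ h2]
    exact (edge_adj' _ hne).symm

/-- The graph is `K_6^4`-saturated. -/
theorem isSat {N : ℕ} (hN : 2 ≤ N) : IsSat (virus 4 6) (GV N) := by
  have hother : ∀ i : Fin N, ∃ j : Fin N, i ≠ j := by
    intro i
    by_cases h : (i : ℕ) = 0
    · exact ⟨⟨1, by omega⟩, fun h' => by rw [h'] at h; simp at h⟩
    · exact ⟨⟨0, by omega⟩, fun h' => h (by rw [h'])⟩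
  refine ⟨free N, ?_⟩
  have hhub : ∀ i : Fin N, ∀ x : Fin 8, ¬ (GV N).Adj none (some (i, x)) → 6 ≤ (x : ℕ) := by
    intro i x h
    by_contra hlt
    apply h
    refine ⟨?_, fun k l a b h _ => by simp at h⟩
    change ladj 8 x
    unfold ladj
    omega
  intro u v huv hadj
  rcases u with _ | ⟨i, x⟩ <;> rcases v with _ | ⟨j, y⟩
  · exact absurd rfl huv
  · obtain ⟨k, hk⟩ := hother j
    exact sat2 hk y (hhub j y hadj)
  · obtain ⟨k, hk⟩ := hother i
    rw [SimpleGraph.edge_comm]
    exact sat2 hk x (hhub i x (fun h => hadj h.symm))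
  · by_cases hij : i = j
    · subst hij
      obtain ⟨k, hk⟩ := hother i
      have hxy : x ≠ y := fun h => huv (by rw [h])
      have h3 : ¬ ladj x y := by
        intro h
        apply hadj
        refine ⟨h, ?_⟩
        intro k l a b h1 h2
        simp only [Option.some.injEq, Prod.mk.injEq] at h1 h2
        rw [← h1.1, ← h2.1]
      have h4 : (x : ℕ) ≠ y := fun h => hxy (Fin.ext h)
      unfold ladj at h3
      exact sat3 hk x y hxy (by omega) (by omega)
    · exact sat1 hij x y

/-- The local edges. -/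
def locE : Finset (Sym2 (Option (Fin 8))) :=
  ((Finset.univ ×ˢ Finset.univ : Finset (Option (Fin 8) × Option (Fin 8))).filter
    (fun p => ladj (p.1.elim 8 (fun x => (x : ℕ))) (p.2.elim 8 (fun x => (x : ℕ))))).image (fun p => s(p.1, p.2))

lemma locE_card : locE.card = 31 := by decide +kernel

/-- The number of edges. -/
lemma edges {N : ℕ} : (GV N).edgeSet.ncard ≤ 31 * N := by
  classical
  have hsub : (GV N).edgeSet ⊆ (((Finset.univ : Finset (Fin N)) ×ˢ locE).image
      (fun p => p.2.map (fun o : Option (Fin 8) => o.map (fun x => (p.1, x)))) : Finset (Sym2 (VV N))) := by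
    intro f hf
    rw [Finset.mem_coe, Finset.mem_image]
    induction f using Sym2.ind with
    | _ u v =>
      have hf' : (GV N).Adj u v := hf
      have hl := hf'.1
      have key : ∀ (i : Fin N) (a b : Option (Fin 8)), u = a.map (fun x => (i, x)) →
          v = b.map (fun x => (i, x)) → ∃ p ∈ (Finset.univ : Finset (Fin N)) ×ˢ locE,
            (p.2.map (fun o : Option (Fin 8) => o.map (fun x => (p.1, x)))) = s(u, v) := by
        intro i a b ha hb
        refine ⟨(i, s(a, b)), ?_, ?_⟩
        · rw [Finset.mem_product]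
          refine ⟨Finset.mem_univ _, ?_⟩
          unfold locE
          rw [Finset.mem_image]
          refine ⟨(a, b), ?_, rfl⟩
          rw [Finset.mem_filter]
          refine ⟨by simp, ?_⟩
          subst ha
          subst hb
          rcases a with _ | a <;> rcases b with _ | b <;> exact hl
        · change Sym2.map (fun o : Option (Fin 8) => o.map (fun x => (i, x))) s(a, b) = s(u, v)
          rw [Sym2.map_mk, ha, hb]
      rcases u with _ | ⟨i, x⟩ <;> rcases v with _ | ⟨j, y⟩
      · exact absurd rfl hl.1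
      · exact key j none (some y) rfl rfl
      · exact key i (some x) none rfl rfl
      · have := hf'.2 i j x y rfl rfl
        subst this
        exact key i (some x) (some y) rfl rfl
  calc (GV N).edgeSet.ncard ≤ _ := Set.ncard_le_ncard hsub (Set.toFinite _)
    _ = _ := Set.ncard_coe_finset _
    _ ≤ _ := Finset.card_image_le
    _ = 31 * N := by rw [Finset.card_product, locE_card, Finset.card_univ, Fintype.card_fin, mul_comm]

theorem satNum_virus {N : ℕ} (hN : 2 ≤ N) : satNum (8 * N + 1) (virus 4 6) ≤ 31 * N := by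
  have h := satNum_le (virus 4 6) (GV N) (isSat hN)
  have hc : Fintype.card (VV N) = 8 * N + 1 := by
    rw [Fintype.card_option, Fintype.card_prod, Fintype.card_fin, Fintype.card_fin, mul_comm]
  rw [hc] at h
  exact h.trans edges

end Pool.Agent.R83.Virus
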