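import Mathlib

set_option autoImplicit false

/-!
# Weak saturation numbers of complete bipartite graphs: a lower bound from a linear matroid
-/

namespace Pool.Agent.R83.WSat

open Finset

/-- In the graph on `V` whose edges are the pairs in `D` there is a copy of `F` which uses the edge `f`. -/
def HasCopyUsing {W V : Type} (F : SimpleGraph W) (D : Set (Sym2 V)) (f : Sym2 V) : Prop :=
  ∃ φ : W ↪ V, (∀ g ∈ F.edgeSet, g.map φ ∈ D) ∧ ∃ g ∈ F.edgeSet, g.map φ = f

/-- The pairs of distinct vertices which are not edges of `G` can be listed as `e 0, e 1, ...` so that for every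
`i` the graph `G + e 0 + ... + e i` contains a copy of `F` which uses the edge `e i`. -/
def Percolates {W V : Type} (F : SimpleGraph W) (G : SimpleGraph V) : Prop :=
  ∃ (m : ℕ) (e : Fin m → Sym2 V), Function.Injective e ∧
    (∀ f : Sym2 V, f ∈ Set.range e ↔ ¬ f.IsDiag ∧ f ∉ G.edgeSet) ∧
    ∀ i : Fin m, HasCopyUsing F (G.edgeSet ∪ {f | ∃ k : Fin m, k ≤ i ∧ e k = f}) (e i)

/-- `G` is weakly `F`-saturated: it has no subgraph isomorphic to `F`, and its non-edges can be added one by one,
each of them creating a new copy of `F`. -/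
def IsWeaklySat {W V : Type} (F : SimpleGraph W) (G : SimpleGraph V) : Prop :=
  ¬ F.IsContained G ∧ Percolates F G

/-- The weak saturation number `wsat(n, F)`. -/
noncomputable def wsat {W : Type} (n : ℕ) (F : SimpleGraph W) : ℕ :=
  sInf {k | ∃ G : SimpleGraph (Fin n), IsWeaklySat F G ∧ G.edgeSet.ncard = k}

/-- The number of edges. -/
lemma ncard_eq {n : ℕ} {G : SimpleGraph (Fin n)} {m : ℕ} {e : Fin m → Sym2 (Fin n)}
    (he : Function.Injective e) (hrange : ∀ f : Sym2 (Fin n), f ∈ Set.range e ↔ ¬ f.IsDiag ∧ f ∉ G.edgeSet) :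
    G.edgeSet.ncard + m = n.choose 2 := by
  classical
  have h1 : (⊤ : SimpleGraph (Fin n)).edgeSet.ncard = n.choose 2 := by
    rw [← SimpleGraph.coe_edgeFinset, Set.ncard_coe_finset, SimpleGraph.card_edgeFinset_top_eq_card_choose_two,
      Fintype.card_fin]
  have h2 : G.edgeSet = (⊤ : SimpleGraph (Fin n)).edgeSet \ Set.range e := by
    ext f
    rw [Set.mem_sdiff, SimpleGraph.edgeSet_top, hrange]
    constructor
    · intro h
      exact ⟨SimpleGraph.not_isDiag_of_mem_edgeSet _ h, fun h' => h'.2 h⟩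
    · rintro ⟨h3, h4⟩
      by_contra h5
      exact h4 ⟨h3, h5⟩
  have h3 : (Set.range e).ncard = m := by
    rw [← Set.image_univ, Set.ncard_image_of_injective _ he, Set.ncard_univ, Nat.card_eq_fintype_card,
      Fintype.card_fin]
  have h4 : Set.range e ⊆ (⊤ : SimpleGraph (Fin n)).edgeSet := by
    intro f hf
    rw [SimpleGraph.edgeSet_top]
    exact ((hrange f).1 hf).1
  have h5 := Set.ncard_le_ncard h4 (Set.toFinite _)
  rw [h2, Set.ncard_sdiff h4, h1, h3]
  rw [h1, h3] at h5
  omega

/-- Removing edges of copies of `F`: the minimum does not change if `F`-freeness is dropped. -/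
lemma exists_weaklySat {W : Type} {n : ℕ} (F : SimpleGraph W) (hF : F.edgeSet.Nonempty) : ∀ (k : ℕ)
    (G : SimpleGraph (Fin n)), G.edgeSet.ncard = k → Percolates F G →
    ∃ G' : SimpleGraph (Fin n), IsWeaklySat F G' ∧ G'.edgeSet.ncard ≤ k := by
  intro k
  induction k using Nat.strong_induction_on with
  | _ k ih =>
    intro G hk hG
    by_cases hc : F.IsContained G
    · obtain ⟨φ⟩ := hc
      obtain ⟨g0, hg0⟩ := hF
      set ψ : W ↪ Fin n := ⟨φ, φ.injective⟩ with hψ
      have hmem : ∀ g ∈ F.edgeSet, g.map ψ ∈ G.edgeSet := by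
        intro g hg
        induction g using Sym2.ind with
        | _ x y => exact φ.toHom.map_adj hg
      set e0 := g0.map ψ with he0
      have he0G : e0 ∈ G.edgeSet := hmem g0 hg0
      have hset : (G.deleteEdges {e0}).edgeSet = G.edgeSet \ {e0} := SimpleGraph.edgeSet_deleteEdges _
      have hcard : (G.deleteEdges {e0}).edgeSet.ncard < k := by
        rw [hset, ← hk]
        exact Set.ncard_lt_ncard ⟨Set.sdiff_subset, fun h => (h he0G).2 rfl⟩ (Set.toFinite _)
      obtain ⟨m, e, he, hrange, hcopy⟩ := hG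
      have hperc : Percolates F (G.deleteEdges {e0}) := by
        refine ⟨m + 1, Fin.cons e0 e, ?_, ?_, ?_⟩
        · rw [Fin.cons_injective_iff]
          refine ⟨?_, he⟩
          intro h
          exact ((hrange e0).1 h).2 he0G
        · intro f
          rw [Fin.range_cons, Set.mem_insert_iff, hrange, hset]
          constructor
          · rintro (rfl | ⟨h1, h2⟩)
            · exact ⟨SimpleGraph.not_isDiag_of_mem_edgeSet _ he0G, fun h => h.2 rfl⟩
            · exact ⟨h1, fun h => h2 h.1⟩
          · rintro ⟨h1, h2⟩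
            by_cases h3 : f = e0
            · exact Or.inl h3
            · exact Or.inr ⟨h1, fun h4 => h2 ⟨h4, h3⟩⟩
        · intro i
          refine Fin.cases ?_ ?_ i
          · refine ⟨ψ, ?_, g0, hg0, rfl⟩
            intro g hg
            by_cases h3 : g.map ψ = e0
            · right
              exact ⟨0, le_rfl, h3.symm⟩
            · left
              rw [hset]
              exact ⟨hmem g hg, h3⟩
          · intro i
            obtain ⟨χ, h1, h2⟩ := hcopy i
            refine ⟨χ, ?_, h2⟩
            intro g hg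
            by_cases h3 : g.map χ = e0
            · right
              exact ⟨0, Fin.zero_le _, h3.symm⟩
            · rcases h1 g hg with h4 | ⟨l, hl, hle⟩
              · left
                rw [hset]
                exact ⟨h4, h3⟩
              · right
                exact ⟨l.succ, Fin.succ_le_succ_iff.2 hl, hle⟩
      obtain ⟨G', h1, h2⟩ := ih _ hcard _ rfl hperc
      exact ⟨G', h1, h2.trans hcard.le⟩
    · exact ⟨G, ⟨hc, hG⟩, hk.le⟩

lemma wsat_le {W : Type} {n : ℕ} (F : SimpleGraph W) (hF : F.edgeSet.Nonempty) (G : SimpleGraph (Fin n))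
    (hG : Percolates F G) : wsat n F ≤ G.edgeSet.ncard := by
  obtain ⟨G', h1, h2⟩ := exists_weaklySat F hF _ G rfl hG
  exact le_trans (Nat.sInf_le ⟨G', h1, rfl⟩) h2

lemma wsat_attained {W : Type} {n : ℕ} (F : SimpleGraph W) (hF : F.edgeSet.Nonempty) (G : SimpleGraph (Fin n))
    (hG : Percolates F G) : ∃ G' : SimpleGraph (Fin n), IsWeaklySat F G' ∧ G'.edgeSet.ncard = wsat n F := by
  obtain ⟨G', h1, h2⟩ := exists_weaklySat F hF _ G rfl hG
  exact Nat.sInf_mem (s := {k | ∃ G : SimpleGraph (Fin n), IsWeaklySat F G ∧ G.edgeSet.ncard = k})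
    ⟨_, G', h1, rfl⟩

/-! ### The lower bound -/

section Lower

variable {n j : ℕ}

/-- The vector of the pair `(u, v)`. -/
def rv (u v : Fin n) : Fin n → Fin (j + 1) → ℚ := fun w k =>
  (if w = u then ((v : ℕ) : ℚ) ^ (k : ℕ) else 0) - (if w = v then ((u : ℕ) : ℚ) ^ (k : ℕ) else 0)

/-- The polynomial vanishing on `J`. -/
noncomputable def pol (J : Finset (Fin n)) : Polynomial ℚ := ∏ a ∈ J, (Polynomial.X - Polynomial.C ((a : ℕ) : ℚ))

lemma pol_eval (J : Finset (Fin n)) (x : ℚ) : (pol J).eval x = ∏ a ∈ J, (x - ((a : ℕ) : ℚ)) := by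
  unfold pol
  rw [Polynomial.eval_prod]
  simp

lemma pol_eval_zero (J : Finset (Fin n)) (v : Fin n) : (pol J).eval ((v : ℕ) : ℚ) = 0 ↔ v ∈ J := by
  rw [pol_eval, Finset.prod_eq_zero_iff]
  constructor
  · rintro ⟨a, ha, h⟩
    have h1 : ((v : ℕ) : ℚ) = ((a : ℕ) : ℚ) := by linarith
    have h2 : v = a := Fin.ext (by exact_mod_cast h1)
    rw [h2]
    exact ha
  · intro h
    exact ⟨v, h, by ring⟩

lemma pol_natDegree (J : Finset (Fin n)) : (pol J).natDegree = J.card := by
  unfold pol
  rw [Polynomial.natDegree_prod_of_monic _ _ (fun a _ => Polynomial.monic_X_sub_C _),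
    Finset.sum_congr rfl (fun a _ => Polynomial.natDegree_X_sub_C _)]
  simp

lemma sum_coeff (J : Finset (Fin n)) (hJ : J.card ≤ j) (x : ℚ) :
    ∑ k : Fin (j + 1), (pol J).coeff k * x ^ (k : ℕ) = (pol J).eval x := by
  rw [Polynomial.eval_eq_sum_range' (n := j + 1) (by rw [pol_natDegree]; omega)]
  rw [Finset.sum_range]

open Classical in
/-- The functional of the cut. -/
noncomputable def fn (A J : Finset (Fin n)) : (Fin n → Fin (j + 1) → ℚ) →ₗ[ℚ] ℚ :=
  ∑ x ∈ A, (pol J).eval ((x : ℕ) : ℚ) •
    ∑ k : Fin (j + 1), (pol J).coeff k • ((LinearMap.proj k : (Fin (j + 1) → ℚ) →ₗ[ℚ] ℚ) ∘ₗ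
      (LinearMap.proj x : (Fin n → Fin (j + 1) → ℚ) →ₗ[ℚ] (Fin (j + 1) → ℚ)))

open Classical in
lemma fn_rv (A J : Finset (Fin n)) (hJ : J.card ≤ j) (u v : Fin n) :
    fn A J (rv (j := j) u v) = (pol J).eval ((u : ℕ) : ℚ) * (pol J).eval ((v : ℕ) : ℚ) *
      ((if u ∈ A then 1 else 0) - (if v ∈ A then 1 else 0)) := by
  have h1 : ∀ x : Fin n, ∑ k : Fin (j + 1), (pol J).coeff k * rv (j := j) u v x k =
      (if x = u then (pol J).eval ((v : ℕ) : ℚ) else 0) - (if x = v then (pol J).eval ((u : ℕ) : ℚ) else 0) := by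
    intro x
    unfold rv
    rw [← sum_coeff J hJ, ← sum_coeff J hJ]
    simp only [mul_sub, Finset.sum_sub_distrib, mul_ite, mul_zero]
    congr 1
    · split_ifs <;> simp
    · split_ifs <;> simp
  have h2 : fn A J (rv (j := j) u v) = ∑ x ∈ A, (pol J).eval ((x : ℕ) : ℚ) *
      ∑ k : Fin (j + 1), (pol J).coeff k * rv (j := j) u v x k := by
    unfold fn
    simp [LinearMap.sum_apply, Finset.mul_sum]
  rw [h2]
  simp only [h1, mul_sub, Finset.sum_sub_distrib, mul_ite, mul_zero, Finset.sum_ite_eq', mul_one]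
  split_ifs <;> ring

/-- The complement of a percolating graph has few edges. -/
theorem card_le {s t : ℕ} (G : SimpleGraph (Fin (s + t + j)))
    (hG : Percolates (completeBipartiteGraph (Fin s) (Fin t)) G) :
    (s + t + j).choose 2 ≤ G.edgeSet.ncard + (j + 1) * (s + t + j) := by
  classical
  obtain ⟨m, e, he, hrange, hcopy⟩ := hG
  have hm := ncard_eq he hrange
  suffices h : m ≤ (j + 1) * (s + t + j) by omega
  have hpair : ∀ i : Fin m, ∃ p : Fin (s + t + j) × Fin (s + t + j), e i = s(p.1, p.2) := by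
    intro i
    induction h : e i using Sym2.ind with
    | _ x y => exact ⟨(x, y), rfl⟩
  choose p hp using hpair
  choose φ hφ1 hφ2 using hcopy
  -- the cuts
  set A : Fin m → Finset (Fin (s + t + j)) := fun i => univ.image (fun a : Fin s => φ i (Sum.inl a)) with hA
  set B : Fin m → Finset (Fin (s + t + j)) := fun i => univ.image (fun b : Fin t => φ i (Sum.inr b)) with hB
  set J : Fin m → Finset (Fin (s + t + j)) := fun i => univ \ (A i ∪ B i) with hJ
  have hdisj : ∀ i, Disjoint (A i) (B i) := by
    intro i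
    rw [Finset.disjoint_left]
    intro x hx hx'
    simp only [hA, hB, mem_image, mem_univ, true_and] at hx hx'
    obtain ⟨a, ha⟩ := hx
    obtain ⟨b, hb⟩ := hx'
    have := (φ i).injective (ha.trans hb.symm)
    simp at this
  have hJcard : ∀ i, (J i).card ≤ j := by
    intro i
    have h1 : (A i).card = s := by
      rw [hA]
      change (univ.image (fun a : Fin s => φ i (Sum.inl a))).card = s
      rw [Finset.card_image_of_injective, card_univ, Fintype.card_fin]
      intro a b h
      exact Sum.inl_injective ((φ i).injective h)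
    have h2 : (B i).card = t := by
      rw [hB]
      change (univ.image (fun a : Fin t => φ i (Sum.inr a))).card = t
      rw [Finset.card_image_of_injective, card_univ, Fintype.card_fin]
      intro a b h
      exact Sum.inr_injective ((φ i).injective h)
    have h3 : (A i ∪ B i).card = s + t := by rw [Finset.card_union_of_disjoint (hdisj i), h1, h2]
    rw [hJ]
    change (univ \ (A i ∪ B i)).card ≤ j
    rw [Finset.card_sdiff_of_subset (Finset.subset_univ _), card_univ, Fintype.card_fin, h3]
    omega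
  have hnotJ : ∀ i x, x ∉ J i ↔ (x ∈ A i ∨ x ∈ B i) := by
    intro i x
    simp only [hJ, mem_sdiff, mem_univ, true_and, not_not, mem_union]
  -- the pairs between `A i` and `B i`
  have hcross : ∀ i x y, x ∈ A i → y ∈ B i →
      s(x, y) ∈ G.edgeSet ∪ {f | ∃ k : Fin m, k ≤ i ∧ e k = f} := by
    intro i x y hx hy
    simp only [hA, hB, mem_image, mem_univ, true_and] at hx hy
    obtain ⟨a, rfl⟩ := hx
    obtain ⟨b, rfl⟩ := hy
    exact hφ1 i s(Sum.inl a, Sum.inr b) (by simp)
  have hself : ∀ i, ((p i).1 ∈ A i ∧ (p i).2 ∈ B i) ∨ ((p i).2 ∈ A i ∧ (p i).1 ∈ B i) := by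
    intro i
    obtain ⟨g, hg, hge⟩ := hφ2 i
    have key : ∀ a b, s(φ i (Sum.inl a), φ i (Sum.inr b)) = s((p i).1, (p i).2) →
        ((p i).1 ∈ A i ∧ (p i).2 ∈ B i) ∨ ((p i).2 ∈ A i ∧ (p i).1 ∈ B i) := by
      intro a b h
      rw [Sym2.eq_iff] at h
      rcases h with ⟨h1, h2⟩ | ⟨h1, h2⟩
      · left
        rw [← h1, ← h2]
        exact ⟨mem_image_of_mem _ (mem_univ _), mem_image_of_mem _ (mem_univ _)⟩
      · right
        rw [← h1, ← h2]
        exact ⟨mem_image_of_mem _ (mem_univ _), mem_image_of_mem _ (mem_univ _)⟩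
    induction g using Sym2.ind with
    | _ x y =>
      rw [Sym2.map_mk, hp i] at hge
      rcases x with a | a <;> rcases y with b | b
      · simp at hg
      · exact key a b hge
      · exact key b a (by rw [Sym2.eq_swap]; exact hge)
      · simp at hg
  -- the matrix is triangular
  have hdiag : ∀ i, fn (A i) (J i) (rv (j := j) (p i).1 (p i).2) ≠ 0 := by
    intro i
    rw [fn_rv _ _ (hJcard i)]
    have h1 : (pol (J i)).eval (((p i).1 : ℕ) : ℚ) ≠ 0 := by
      rw [Ne, pol_eval_zero, hnotJ]
      rcases hself i with ⟨h, -⟩ | ⟨-, h⟩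
      · exact Or.inl h
      · exact Or.inr h
    have h2 : (pol (J i)).eval (((p i).2 : ℕ) : ℚ) ≠ 0 := by
      rw [Ne, pol_eval_zero, hnotJ]
      rcases hself i with ⟨-, h⟩ | ⟨h, -⟩
      · exact Or.inr h
      · exact Or.inl h
    refine mul_ne_zero (mul_ne_zero h1 h2) ?_
    rcases hself i with ⟨h, h'⟩ | ⟨h, h'⟩
    · rw [if_pos h, if_neg (fun h'' => Finset.disjoint_left.1 (hdisj i) h'' h')]
      norm_num
    · rw [if_pos h, if_neg (fun h'' => Finset.disjoint_left.1 (hdisj i) h'' h')]
      norm_num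
  have hoff : ∀ i l : Fin m, i < l → fn (A i) (J i) (rv (j := j) (p l).1 (p l).2) = 0 := by
    intro i l hil
    rw [fn_rv _ _ (hJcard i)]
    have hno : ∀ x y, x ∈ A i → y ∉ A i → e l = s(x, y) → (pol (J i)).eval ((y : ℕ) : ℚ) = 0 := by
      intro x y hx hy hxy
      rw [pol_eval_zero]
      by_contra hyJ
      rw [hnotJ] at hyJ
      rcases hyJ with h | h
      · exact hy h
      · have hmem := hcross i x y hx h
        rw [← hxy] at hmem
        rcases hmem with h1 | ⟨k, hk, hke⟩
        · exact ((hrange (e l)).1 ⟨l, rfl⟩).2 h1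
        · have := he hke
          subst this
          exact absurd hk (not_le.2 hil)
    by_cases h1 : (p l).1 ∈ A i <;> by_cases h2 : (p l).2 ∈ A i
    · rw [if_pos h1, if_pos h2]; ring
    · rw [hno _ _ h1 h2 (hp l)]; ring
    · rw [hno _ _ h2 h1 (by rw [hp l, Sym2.eq_swap])]; ring
    · rw [if_neg h1, if_neg h2]; ring
  have hli : LinearIndependent ℚ (fun i : Fin m => rv (j := j) (p i).1 (p i).2) := by
    rw [Fintype.linearIndependent_iff]
    intro c hc
    by_contra hcon
    push Not at hcon
    obtain ⟨i, hi, hmin⟩ : ∃ i, c i ≠ 0 ∧ ∀ l, l < i → c l = 0 := by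
      obtain ⟨i, hi⟩ := hcon
      obtain ⟨i', hi', hmin⟩ := Finset.exists_min_image (univ.filter (fun i => c i ≠ 0)) id
        ⟨i, by rw [mem_filter]; exact ⟨mem_univ _, hi⟩⟩
      rw [mem_filter] at hi'
      refine ⟨i', hi'.2, ?_⟩
      intro l hl
      by_contra hne
      have := hmin l (by rw [mem_filter]; exact ⟨mem_univ _, hne⟩)
      exact absurd hl (not_lt.2 this)
    have h0 := congrArg (fn (A i) (J i)) hc
    rw [map_sum, map_zero] at h0
    rw [Finset.sum_eq_single i] at h0
    · rw [map_smul, smul_eq_mul] at h0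
      exact mul_ne_zero hi (hdiag i) h0
    · intro l _ hl
      rw [map_smul, smul_eq_mul]
      rcases lt_or_gt_of_ne hl with h | h
      · rw [hmin l h, zero_mul]
      · rw [hoff i l h, mul_zero]
    · intro h
      exact absurd (mem_univ _) h
  have hfin := hli.fintype_card_le_finrank
  rw [Fintype.card_fin] at hfin
  have hdim : Module.finrank ℚ (Fin (s + t + j) → Fin (j + 1) → ℚ) = (j + 1) * (s + t + j) := by
    rw [Module.finrank_pi_fintype]
    simp
    ring
  rw [hdim] at hfin
  exact hfin

end Lower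

/-! ### The upper bound -/

section Upper

variable {s t j : ℕ}

/-- The complement of a complete bipartite graph between the first `j + 1` and the next `t` vertices. -/
def CG (s t j : ℕ) : SimpleGraph (Fin (s + t + j)) where
  Adj u v := u ≠ v ∧ ¬ ((u : ℕ) < j + 1 ∧ j + 1 ≤ (v : ℕ) ∧ (v : ℕ) < j + 1 + t) ∧
    ¬ ((v : ℕ) < j + 1 ∧ j + 1 ≤ (u : ℕ) ∧ (u : ℕ) < j + 1 + t)
  symm := ⟨fun u v h => ⟨h.1.symm, h.2.2, h.2.1⟩⟩
  loopless := ⟨fun u h => h.1 rfl⟩

/-- The copy of `K_{s,t}` used for the pair of the hub `h` and the vertex `j + 1 + v`. -/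
def cp (hs : 1 ≤ s) (h : Fin (j + 1)) (v : Fin t) : Fin s ⊕ Fin t → Fin (s + t + j)
  | .inl a => if (a : ℕ) = 0 then ⟨j + 1 + v, by omega⟩ else ⟨j + t + a, by omega⟩
  | .inr b => if b = v then ⟨h, by omega⟩ else ⟨j + 1 + b, by omega⟩

lemma cp_inj (hs : 1 ≤ s) (h : Fin (j + 1)) (v : Fin t) : Function.Injective (cp hs h v) := by
  intro x y hxy
  rcases x with a | a <;> rcases y with b | b <;> simp only [cp] at hxy
  · split_ifs at hxy with h1 h2 h2
    · rw [Fin.ext_iff.2 (h1.trans h2.symm)]
    · have := congrArg Fin.val hxy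
      simp only at this
      omega
    · have := congrArg Fin.val hxy
      simp only at this
      omega
    · have := congrArg Fin.val hxy
      simp only at this
      rw [Fin.ext_iff.2 (show (a : ℕ) = b by omega)]
  · split_ifs at hxy with h1 h2 h2
    · have := congrArg Fin.val hxy
      simp only at this
      omega
    · have := congrArg Fin.val hxy
      simp only at this
      exact absurd (Fin.ext (by omega)) h2
    · have := congrArg Fin.val hxy
      simp only at this
      omega
    · have := congrArg Fin.val hxy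
      simp only at this
      omega
  · split_ifs at hxy with h1 h2 h2
    · have := congrArg Fin.val hxy
      simp only at this
      omega
    · have := congrArg Fin.val hxy
      simp only at this
      omega
    · have := congrArg Fin.val hxy
      simp only at this
      exact absurd (Fin.ext (by omega)) h1
    · have := congrArg Fin.val hxy
      simp only at this
      omega
  · split_ifs at hxy with h1 h2 h2
    · rw [h1, h2]
    · have := congrArg Fin.val hxy
      simp only at this
      omega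
    · have := congrArg Fin.val hxy
      simp only at this
      omega
    · have := congrArg Fin.val hxy
      simp only at this
      rw [Fin.ext_iff.2 (show (a : ℕ) = b by omega)]

lemma cp_adj (hs : 1 ≤ s) (h : Fin (j + 1)) (v : Fin t) (a : Fin s) (b : Fin t) :
    s(cp (j := j) hs h v (.inl a), cp hs h v (.inr b)) ∈ (CG s t j).edgeSet ∨
      ((a : ℕ) = 0 ∧ b = v) := by
  by_cases h1 : (a : ℕ) = 0 <;> by_cases h2 : b = v
  · exact Or.inr ⟨h1, h2⟩
  · left
    have hbv : (b : ℕ) ≠ v := fun hh => h2 (Fin.ext hh)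
    simp only [cp, h1, h2, if_true, if_false]
    rw [SimpleGraph.mem_edgeSet]
    refine ⟨?_, ?_, ?_⟩
    · intro hh
      have := congrArg Fin.val hh
      simp only at this
      omega
    · simp only; omega
    · simp only; omega
  · left
    simp only [cp, h1, h2, if_true, if_false]
    rw [SimpleGraph.mem_edgeSet]
    refine ⟨?_, ?_, ?_⟩
    · intro hh
      have := congrArg Fin.val hh
      simp only at this
      omega
    · simp only; omega
    · simp only; omega
  · left
    simp only [cp, h1, h2, if_false]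
    rw [SimpleGraph.mem_edgeSet]
    refine ⟨?_, ?_, ?_⟩
    · intro hh
      have := congrArg Fin.val hh
      simp only at this
      omega
    · simp only; omega
    · simp only; omega

lemma CG_percolates (hs : 1 ≤ s) : Percolates (completeBipartiteGraph (Fin s) (Fin t)) (CG s t j) := by
  classical
  set L := (univ.filter (fun f : Sym2 (Fin (s + t + j)) => ¬ f.IsDiag ∧ f ∉ (CG s t j).edgeSet)).toList with hL
  have hmem : ∀ f, f ∈ L ↔ ¬ f.IsDiag ∧ f ∉ (CG s t j).edgeSet := by intro f; simp [hL]
  refine ⟨L.length, L.get, List.nodup_iff_injective_get.1 (nodup_toList _), ?_, ?_⟩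
  · intro f
    rw [← hmem]
    constructor
    · rintro ⟨i, rfl⟩
      exact List.get_mem _ _
    · intro h
      obtain ⟨i, hi⟩ := List.mem_iff_get.1 h
      exact ⟨i, hi⟩
  · intro i
    have hi : L.get i ∈ L := List.get_mem _ _
    rw [hmem] at hi
    -- the form of the pair
    obtain ⟨h, v, hv⟩ : ∃ (h : Fin (j + 1)) (v : Fin t),
        L.get i = s((⟨j + 1 + v, by omega⟩ : Fin (s + t + j)), ⟨h, by omega⟩) := by
      generalize L.get i = f at hi
      induction f using Sym2.ind with
      | _ x y =>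
        rw [Sym2.mk_isDiag_iff, SimpleGraph.mem_edgeSet] at hi
        have h3 : ¬ (x ≠ y ∧ ¬ ((x : ℕ) < j + 1 ∧ j + 1 ≤ (y : ℕ) ∧ (y : ℕ) < j + 1 + t) ∧
          ¬ ((y : ℕ) < j + 1 ∧ j + 1 ≤ (x : ℕ) ∧ (x : ℕ) < j + 1 + t)) := hi.2
        by_cases h4 : (x : ℕ) < j + 1 ∧ j + 1 ≤ (y : ℕ) ∧ (y : ℕ) < j + 1 + t
        · refine ⟨⟨x, h4.1⟩, ⟨y - (j + 1), by omega⟩, ?_⟩
          rw [Sym2.eq_swap]
          congr 2
          · exact Fin.ext (by simp only; omega)
        · have h5 : (y : ℕ) < j + 1 ∧ j + 1 ≤ (x : ℕ) ∧ (x : ℕ) < j + 1 + t := by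
            by_contra h6
            exact h3 ⟨hi.1, h4, h6⟩
          refine ⟨⟨y, h5.1⟩, ⟨x - (j + 1), by omega⟩, ?_⟩
          congr 2
          · exact Fin.ext (by simp only; omega)
    have hcp : L.get i = s(cp (j := j) hs h v (.inl ⟨0, by omega⟩), cp hs h v (.inr v)) := by
      rw [hv]
      simp [cp]
    refine ⟨⟨cp hs h v, cp_inj hs h v⟩, ?_, s(.inl ⟨0, by omega⟩, .inr v), by simp, ?_⟩
    · intro g hg
      have key : ∀ (a : Fin s) (b : Fin t), s(cp (j := j) hs h v (.inl a), cp hs h v (.inr b)) ∈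
          (CG s t j).edgeSet ∪ {f | ∃ k : Fin L.length, k ≤ i ∧ L.get k = f} := by
        intro a b
        rcases cp_adj (j := j) hs h v a b with h1 | ⟨h1, h2⟩
        · exact Or.inl h1
        · right
          refine ⟨i, le_rfl, ?_⟩
          rw [hcp]
          have : a = ⟨0, by omega⟩ := Fin.ext h1
          rw [this, h2]
      induction g using Sym2.ind with
      | _ x y =>
        rcases x with a | a <;> rcases y with b | b
        · simp at hg
        · exact key a b
        · rw [Sym2.eq_swap]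
          exact key b a
        · simp at hg
    · rw [hcp]
      rfl

lemma CG_card (hs : 1 ≤ s) : (CG s t j).edgeSet.ncard + (j + 1) * t ≤ (s + t + j).choose 2 := by
  classical
  obtain ⟨m, e, he, hrange, -⟩ := CG_percolates (s := s) (t := t) (j := j) hs
  rw [← ncard_eq he hrange]
  suffices h : (j + 1) * t ≤ m by omega
  have h1 : ∀ p : Fin (j + 1) × Fin t, ∃ i : Fin m,
      e i = s((⟨p.1, by omega⟩ : Fin (s + t + j)), ⟨j + 1 + p.2, by omega⟩) := by
    intro p
    have h2 := (hrange s((⟨p.1, by omega⟩ : Fin (s + t + j)), ⟨j + 1 + p.2, by omega⟩)).2 (by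
      constructor
      · rw [Sym2.mk_isDiag_iff]
        intro hh
        have := congrArg Fin.val hh
        simp only at this
        omega
      · rw [SimpleGraph.mem_edgeSet]
        intro hh
        apply hh.2.1
        simp only
        omega)
    obtain ⟨i, hi⟩ := h2
    exact ⟨i, hi⟩
  choose g hg using h1
  have hginj : Function.Injective g := by
    intro p q hpq
    have h2 := (hg p).symm.trans ((congrArg e hpq).trans (hg q))
    rw [Sym2.eq_iff] at h2
    rcases h2 with ⟨h3, h4⟩ | ⟨h3, h4⟩
    · have h5 := congrArg Fin.val h3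
      have h6 := congrArg Fin.val h4
      simp only at h5 h6
      exact Prod.ext (Fin.ext h5) (Fin.ext (by omega))
    · have h5 := congrArg Fin.val h3
      simp only at h5
      omega
  have := Fintype.card_le_of_injective g hginj
  rw [Fintype.card_prod, Fintype.card_fin, Fintype.card_fin, Fintype.card_fin] at this
  exact this

end Upper

/-- The two bounds: `C(n, 2) - (j + 1) n ≤ wsat(n, K_{s,t}) ≤ C(n, 2) - (j + 1) t`, where `n = s + t + j`. -/
theorem wsat_bounds (s t j : ℕ) (hs : 1 ≤ s) (ht : 1 ≤ t) :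
    (s + t + j).choose 2 ≤ wsat (s + t + j) (completeBipartiteGraph (Fin s) (Fin t)) + (j + 1) * (s + t + j) ∧
    wsat (s + t + j) (completeBipartiteGraph (Fin s) (Fin t)) + (j + 1) * t ≤ (s + t + j).choose 2 := by
  have hF : (completeBipartiteGraph (Fin s) (Fin t)).edgeSet.Nonempty :=
    ⟨s(.inl ⟨0, by omega⟩, .inr ⟨0, by omega⟩), by simp⟩
  constructor
  · obtain ⟨G', h1, h2⟩ := wsat_attained _ hF (CG s t j) (CG_percolates hs)
    rw [← h2]
    exact card_le G' h1.2
  · have h1 := wsat_le _ hF (CG s t j) (CG_percolates hs)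
    have h2 := CG_card (s := s) (t := t) (j := j) hs
    omega

end Pool.Agent.R83.WSat
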