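import Mathlib

set_option autoImplicit false

/-!
# Weak rainbow saturation numbers of complete graphs
-/

namespace Pool.Agent.R83.WR

open Finset

/-- The pair `f` has the colour `a` in the edge-coloured graph obtained from the graph `G`, coloured by `χ`,
by adding the edges `e 0, ..., e i` with the colours `c 0, ..., c i`. -/
def HasCol {V : Type} (G : SimpleGraph V) (χ : Sym2 V → ℕ) {m : ℕ} (e : Fin m → Sym2 V) (c : Fin m → ℕ)
    (i : Fin m) (f : Sym2 V) (a : ℕ) : Prop :=
  (f ∈ G.edgeSet ∧ χ f = a) ∨ ∃ j : Fin m, j ≤ i ∧ e j = f ∧ c j = a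

/-- The graph `G`, with the edge-colouring `χ`, is weakly `K_r`-rainbow saturated: the pairs of distinct
vertices which are not edges of `G` can be listed as `e 0, e 1, ...` so that, for all pairwise distinct
colours `c 0, c 1, ...`, once the edges `e 0, ..., e i` are added with the colours `c 0, ..., c i`, there is a
set `S` of `r` vertices containing the ends of `e i`, all pairs of which are edges, with pairwise distinct
colours. -/
def IsWeaklySat {V : Type} (r : ℕ) (G : SimpleGraph V) (χ : Sym2 V → ℕ) : Prop :=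
  ∃ (m : ℕ) (e : Fin m → Sym2 V), Function.Injective e ∧
    (∀ f : Sym2 V, f ∈ Set.range e ↔ ¬ f.IsDiag ∧ f ∉ G.edgeSet) ∧
    ∀ c : Fin m → ℕ, Function.Injective c → ∀ i : Fin m, ∃ S : Finset V, S.card = r ∧
      (∀ v ∈ e i, v ∈ S) ∧
      (∀ u ∈ S, ∀ v ∈ S, u ≠ v → ∃ a, HasCol G χ e c i s(u, v) a) ∧
      (∀ (f f' : Sym2 V) (a : ℕ), (∀ v ∈ f, v ∈ S) → (∀ v ∈ f', v ∈ S) →
        HasCol G χ e c i f a → HasCol G χ e c i f' a → f = f')

/-- The weak rainbow saturation number `rwsat(n, K_r)`. -/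
noncomputable def rwsat (n r : ℕ) : ℕ :=
  sInf {k | ∃ (G : SimpleGraph (Fin n)) (χ : Sym2 (Fin n) → ℕ), IsWeaklySat r G χ ∧ G.edgeSet.ncard = k}

open Classical in
/-- A set of few pairs is avoided by some large subset. -/
lemma avoid {V : Type} (s : ℕ) (C : Finset V) (hC : C.card = 4 * (s + 2) ^ 2 + 2)
    (B : Finset (Sym2 V)) (hB : B.card ≤ 2 * C.card + 1) :
    ∃ W ⊆ C, W.card = s + 2 ∧ ∀ a ∈ W, ∀ b ∈ W, a ≠ b → s(a, b) ∉ B := by
  by_contra hcon
  push Not at hcon
  set m := 4 * (s + 2) ^ 2 with hm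
  -- every large subset contains a bad pair
  have hsub : C.powersetCard (s + 2) ⊆ B.biUnion (fun p => (C.powersetCard (s + 2)).filter
      (fun W => ¬ p.IsDiag ∧ ∀ v ∈ p, v ∈ W)) := by
    intro W hW
    rw [mem_powersetCard] at hW
    obtain ⟨a, ha, b, hb, hab, hp⟩ := hcon W hW.1 hW.2
    rw [mem_biUnion]
    refine ⟨s(a, b), hp, ?_⟩
    rw [mem_filter, mem_powersetCard]
    refine ⟨hW, by simpa using hab, ?_⟩
    intro v hv
    rw [Sym2.mem_iff] at hv
    rcases hv with rfl | rfl <;> assumption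
  have hone : ∀ p ∈ B, ((C.powersetCard (s + 2)).filter
      (fun W => ¬ p.IsDiag ∧ ∀ v ∈ p, v ∈ W)).card ≤ m.choose s := by
    intro p _
    induction p using Sym2.ind with
    | _ a b =>
      by_cases hab : a = b
      · subst hab
        have : ((C.powersetCard (s + 2)).filter
            (fun W => ¬ (s(a, a) : Sym2 V).IsDiag ∧ ∀ v ∈ s(a, a), v ∈ W)) = ∅ := by
          apply filter_false_of_mem
          intro W _ h
          exact h.1 (by simp)
        rw [this]
        simp
      · by_cases hmem : a ∈ C ∧ b ∈ C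
        · calc _ ≤ ((C \ {a, b}).powersetCard s).card := by
                apply card_le_card_of_injOn (fun W => W \ {a, b})
                · intro W hW
                  rw [mem_coe, mem_filter, mem_powersetCard] at hW
                  obtain ⟨⟨hWC, hWc⟩, -, hW2⟩ := hW
                  rw [mem_coe, mem_powersetCard]
                  refine ⟨sdiff_subset_sdiff hWC le_rfl, ?_⟩
                  have h1 : ({a, b} : Finset V) ⊆ W := by
                    intro v hv
                    rw [mem_insert, mem_singleton] at hv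
                    exact hW2 v (by rw [Sym2.mem_iff]; exact hv)
                  rw [card_sdiff_of_subset h1, hWc, card_pair hab]
                  rfl
                · intro W hW W' hW' h
                  rw [mem_coe, mem_filter, mem_powersetCard] at hW hW'
                  have h1 : ∀ W : Finset V, (∀ v ∈ s(a, b), v ∈ W) → W \ {a, b} ∪ {a, b} = W := by
                    intro W hW
                    apply sdiff_union_of_subset
                    intro v hv
                    rw [mem_insert, mem_singleton] at hv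
                    exact hW v (by rw [Sym2.mem_iff]; exact hv)
                  have h2 : W \ {a, b} = W' \ {a, b} := h
                  rw [← h1 W hW.2.2, ← h1 W' hW'.2.2, h2]
            _ = m.choose s := by
                rw [card_powersetCard]
                congr 1
                have h1 : ({a, b} : Finset V) ⊆ C := by
                  intro v hv
                  rw [mem_insert, mem_singleton] at hv
                  rcases hv with rfl | rfl
                  · exact hmem.1
                  · exact hmem.2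
                rw [card_sdiff_of_subset h1, hC, card_pair hab]
                rfl
        · have : ((C.powersetCard (s + 2)).filter
              (fun W => ¬ (s(a, b) : Sym2 V).IsDiag ∧ ∀ v ∈ s(a, b), v ∈ W)) = ∅ := by
            apply filter_false_of_mem
            intro W hW h
            rw [mem_powersetCard] at hW
            exact hmem ⟨hW.1 (h.2 a (by simp)), hW.1 (h.2 b (by simp))⟩
          rw [this]
          simp
  have hcard : (m + 2).choose (s + 2) ≤ (2 * (m + 2) + 1) * m.choose s := by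
    calc (m + 2).choose (s + 2) = (C.powersetCard (s + 2)).card := by rw [card_powersetCard, hC]
      _ ≤ _ := card_le_card hsub
      _ ≤ ∑ p ∈ B, _ := card_biUnion_le
      _ ≤ ∑ p ∈ B, m.choose s := sum_le_sum hone
      _ = B.card * m.choose s := by rw [sum_const, smul_eq_mul]
      _ ≤ (2 * (m + 2) + 1) * m.choose s := by
          apply Nat.mul_le_mul_right
          rw [hC] at hB
          exact hB
  have h1 : (m + 2) * (m + 1).choose (s + 1) = (m + 2).choose (s + 2) * (s + 2) :=
    Nat.add_one_mul_choose_eq (m + 1) (s + 1)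
  have h2 : (m + 1) * m.choose s = (m + 1).choose (s + 1) * (s + 1) := Nat.add_one_mul_choose_eq m s
  have hpos : 0 < m.choose s := by
    apply Nat.choose_pos
    rw [hm]
    nlinarith
  have h3 : (m + 2) * (m + 1) * m.choose s ≤ (2 * (m + 2) + 1) * (s + 2) * (s + 1) * m.choose s := by
    calc (m + 2) * (m + 1) * m.choose s = (m + 2) * ((m + 1) * m.choose s) := by ring
      _ = (m + 2) * ((m + 1).choose (s + 1) * (s + 1)) := by rw [h2]
      _ = ((m + 2) * (m + 1).choose (s + 1)) * (s + 1) := by ring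
      _ = ((m + 2).choose (s + 2) * (s + 2)) * (s + 1) := by rw [h1]
      _ ≤ ((2 * (m + 2) + 1) * m.choose s * (s + 2)) * (s + 1) := by gcongr
      _ = (2 * (m + 2) + 1) * (s + 2) * (s + 1) * m.choose s := by ring
  have h4 := Nat.le_of_mul_le_mul_right h3 hpos
  have h5 : 4 * ((s + 2) * (s + 1)) ≤ m := by
    rw [hm]
    nlinarith
  nlinarith

/-- The size of the core. -/
def MM (r : ℕ) : ℕ := (r - 1) + (4 * (r + 2) ^ 2 + 2)

/-- The starting graph: a complete core, and every other vertex joined to the first `r - 1` vertices. -/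
def GG (r n : ℕ) : SimpleGraph (Fin n) where
  Adj u v := u ≠ v ∧ (((u : ℕ) < MM r ∧ (v : ℕ) < MM r) ∨ (u : ℕ) < r - 1 ∨ (v : ℕ) < r - 1)
  symm := ⟨fun u v h => ⟨h.1.symm, by tauto⟩⟩
  loopless := ⟨fun u h => h.1 rfl⟩

/-- The colouring of the starting graph. -/
def col (r n : ℕ) : Sym2 (Fin n) → ℕ :=
  Sym2.lift ⟨fun u v => if max (u : ℕ) v < MM r then min (u : ℕ) v * MM r + max (u : ℕ) v
    else MM r * MM r + min (u : ℕ) v, fun u v => by dsimp only; rw [max_comm (u : ℕ), min_comm (u : ℕ)]⟩

lemma col_mk (r n : ℕ) (u v : Fin n) : col r n s(u, v) =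
    if max (u : ℕ) v < MM r then min (u : ℕ) v * MM r + max (u : ℕ) v
    else MM r * MM r + min (u : ℕ) v := rfl

/-- Colours in the core. -/
lemma col_core {r n : ℕ} {u v : Fin n} (hu : (u : ℕ) < MM r) (hv : (v : ℕ) < MM r) :
    col r n s(u, v) = min (u : ℕ) v * MM r + max (u : ℕ) v ∧ col r n s(u, v) < MM r * MM r := by
  have h : max (u : ℕ) v < MM r := max_lt hu hv
  have h' : min (u : ℕ) v < MM r := lt_of_le_of_lt (min_le_max) h
  rw [col_mk, if_pos h]
  refine ⟨rfl, ?_⟩
  calc min (u : ℕ) v * MM r + max (u : ℕ) v < min (u : ℕ) v * MM r + MM r := by omega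
    _ = (min (u : ℕ) v + 1) * MM r := by ring
    _ ≤ MM r * MM r := Nat.mul_le_mul_right _ h'

lemma col_core_inj {r n : ℕ} {u v u' v' : Fin n} (hu : (u : ℕ) < MM r) (hv : (v : ℕ) < MM r)
    (hu' : (u' : ℕ) < MM r) (hv' : (v' : ℕ) < MM r) (h : col r n s(u, v) = col r n s(u', v')) :
    (s(u, v) : Sym2 (Fin n)) = s(u', v') := by
  rw [(col_core hu hv).1, (col_core hu' hv').1] at h
  have h1 : max (u : ℕ) v < MM r := max_lt hu hv
  have h1' : max (u' : ℕ) v' < MM r := max_lt hu' hv'
  have e1 : max (u : ℕ) v = max (u' : ℕ) v' := by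
    have h3 : (min (u : ℕ) v * MM r + max (u : ℕ) v) % MM r = max (u : ℕ) v := by
      rw [Nat.mul_comm, Nat.mul_add_mod, Nat.mod_eq_of_lt h1]
    have h3' : (min (u' : ℕ) v' * MM r + max (u' : ℕ) v') % MM r = max (u' : ℕ) v' := by
      rw [Nat.mul_comm, Nat.mul_add_mod, Nat.mod_eq_of_lt h1']
    rw [← h3, h, h3']
  have e2 : min (u : ℕ) v = min (u' : ℕ) v' := by
    have hpos : 0 < MM r := by omega
    rw [e1] at h
    exact Nat.eq_of_mul_eq_mul_right hpos (by omega)
  rw [Sym2.eq_iff]
  rcases le_total (u : ℕ) v with h2 | h2 <;> rcases le_total (u' : ℕ) v' with h3 | h3 <;>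
    simp only [max_eq_left, max_eq_right, min_eq_left, min_eq_right, h2, h3] at e1 e2
  · left; exact ⟨Fin.ext e2, Fin.ext e1⟩
  · right; exact ⟨Fin.ext e2, Fin.ext e1⟩
  · right; exact ⟨Fin.ext e1, Fin.ext e2⟩
  · left; exact ⟨Fin.ext e1, Fin.ext e2⟩

/-- Colours of the edges leaving the core. -/
lemma col_out {r n : ℕ} {u v : Fin n} (hu : MM r ≤ (u : ℕ)) (hv : (v : ℕ) < MM r) :
    col r n s(u, v) = MM r * MM r + v := by
  rw [col_mk, if_neg (by rw [not_lt]; exact le_max_of_le_left hu), min_eq_right (by omega)]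


lemma col_inj_aux {r n : ℕ} {v : Fin n} (hv : MM r ≤ (v : ℕ)) (x y x' y' : Fin n)
    (hx : x = v ∨ (x : ℕ) < MM r) (hy : (y : ℕ) < MM r)
    (hx' : x' = v ∨ (x' : ℕ) < MM r) (hy' : (y' : ℕ) < MM r)
    (h : col r n s(x, y) = col r n s(x', y')) : (s(x, y) : Sym2 (Fin n)) = s(x', y') := by
  rcases hx with hx | hx <;> rcases hx' with hx' | hx'
  · subst hx
    subst hx'
    rw [col_out hv hy, col_out hv hy'] at h
    have : y = y' := Fin.ext (by omega)
    rw [this]
  · exfalso
    subst hx
    rw [col_out hv hy] at h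
    have := (col_core hx' hy').2
    omega
  · exfalso
    subst hx'
    rw [col_out hv hy'] at h
    have := (col_core hx hy).2
    omega
  · exact col_core_inj hx hy hx' hy' h

/-- Colours of pairs inside the core together with one outer vertex are distinct. -/
lemma col_inj {r n : ℕ} {v : Fin n} (hv : MM r ≤ (v : ℕ)) {x y x' y' : Fin n}
    (hx : x = v ∨ (x : ℕ) < MM r) (hy : y = v ∨ (y : ℕ) < MM r)
    (hx' : x' = v ∨ (x' : ℕ) < MM r) (hy' : y' = v ∨ (y' : ℕ) < MM r) (hxy : x ≠ y) (hxy' : x' ≠ y')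
    (h : col r n s(x, y) = col r n s(x', y')) : (s(x, y) : Sym2 (Fin n)) = s(x', y') := by
  rcases hy with rfl | hy <;> rcases hy' with rfl | hy'
  · rw [Sym2.eq_swap (a := x), Sym2.eq_swap (a := x')] at h ⊢
    refine col_inj_aux hv _ _ _ _ (Or.inl rfl) ?_ (Or.inl rfl) ?_ h
    · exact hx.resolve_left hxy
    · exact hx'.resolve_left hxy'
  · rw [Sym2.eq_swap (a := x)] at h ⊢
    exact col_inj_aux hv _ _ _ _ (Or.inl rfl) (hx.resolve_left hxy) hx' hy' h
  · rw [Sym2.eq_swap (a := x')] at h ⊢
    exact col_inj_aux hv _ _ _ _ hx hy (Or.inl rfl) (hx'.resolve_left hxy') h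
  · exact col_inj_aux hv _ _ _ _ hx hy hx' hy' h

section Main

variable {r n : ℕ}

/-- Pairs of the first phase. -/
def IsP1 (r n : ℕ) (f : Sym2 (Fin n)) : Prop :=
  ∃ v u : Fin n, MM r ≤ (v : ℕ) ∧ r - 1 ≤ (u : ℕ) ∧ (u : ℕ) < MM r ∧ f = s(v, u)

/-- Pairs of the second phase. -/
def IsP2 (r n : ℕ) (f : Sym2 (Fin n)) : Prop :=
  ∃ v u : Fin n, MM r ≤ (v : ℕ) ∧ MM r ≤ (u : ℕ) ∧ v ≠ u ∧ f = s(v, u)

lemma gg_adj {u v : Fin n} : s(u, v) ∈ (GG r n).edgeSet ↔
    u ≠ v ∧ (((u : ℕ) < MM r ∧ (v : ℕ) < MM r) ∨ (u : ℕ) < r - 1 ∨ (v : ℕ) < r - 1) := Iff.rfl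

lemma le_MM : r - 1 ≤ MM r := by unfold MM; omega

lemma not_p1_p2 {f : Sym2 (Fin n)} (h1 : IsP1 r n f) (h2 : IsP2 r n f) : False := by
  obtain ⟨v, u, h3, h4, h5, rfl⟩ := h1
  obtain ⟨v', u', h3', h4', h5', h6⟩ := h2
  rw [Sym2.eq_iff] at h6
  rcases h6 with ⟨rfl, rfl⟩ | ⟨rfl, rfl⟩ <;> omega

lemma p1_or_p2 (f : Sym2 (Fin n)) : (IsP1 r n f ∨ IsP2 r n f) ↔ ¬ f.IsDiag ∧ f ∉ (GG r n).edgeSet := by
  have hM := le_MM (r := r)
  induction f using Sym2.ind with
  | _ x y =>
    rw [gg_adj, Sym2.mk_isDiag_iff]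
    constructor
    · rintro (⟨v, u, h3, h4, h5, h6⟩ | ⟨v, u, h3, h4, h5, h6⟩)
      · rw [Sym2.eq_iff] at h6
        rcases h6 with ⟨rfl, rfl⟩ | ⟨rfl, rfl⟩
        · refine ⟨fun h => by subst h; omega, fun h => by omega⟩
        · refine ⟨fun h => by subst h; omega, fun h => by omega⟩
      · rw [Sym2.eq_iff] at h6
        rcases h6 with ⟨rfl, rfl⟩ | ⟨rfl, rfl⟩
        · refine ⟨h5, fun h => by omega⟩
        · refine ⟨fun h => h5 h.symm, fun h => by omega⟩
    · rintro ⟨h1, h2⟩
      have h3 : ¬ (((x : ℕ) < MM r ∧ (y : ℕ) < MM r) ∨ (x : ℕ) < r - 1 ∨ (y : ℕ) < r - 1) :=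
        fun h => h2 ⟨h1, h⟩
      push Not at h3
      by_cases hx : (x : ℕ) < MM r
      · left
        exact ⟨y, x, h3.1 hx, h3.2.1, hx, Sym2.eq_swap⟩
      · by_cases hy : (y : ℕ) < MM r
        · left
          exact ⟨x, y, by omega, h3.2.2, hy, rfl⟩
        · right
          exact ⟨x, y, by omega, by omega, h1, rfl⟩

open Classical in
/-- The ordering. -/
lemma exists_order (r n : ℕ) : ∃ (m : ℕ) (e : Fin m → Sym2 (Fin n)), Function.Injective e ∧
    (∀ f : Sym2 (Fin n), f ∈ Set.range e ↔ ¬ f.IsDiag ∧ f ∉ (GG r n).edgeSet) ∧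
    ∀ i j : Fin m, IsP2 r n (e i) → IsP1 r n (e j) → j ≤ i := by
  set L1 := (univ.filter (fun f : Sym2 (Fin n) => IsP1 r n f)).toList with hL1
  set L2 := (univ.filter (fun f : Sym2 (Fin n) => IsP2 r n f)).toList with hL2
  have m1 : ∀ f, f ∈ L1 ↔ IsP1 r n f := by intro f; simp [hL1]
  have m2 : ∀ f, f ∈ L2 ↔ IsP2 r n f := by intro f; simp [hL2]
  have hnd : (L1 ++ L2).Nodup := by
    rw [List.nodup_append]
    refine ⟨nodup_toList _, nodup_toList _, ?_⟩
    intro a ha b hb hab
    subst hab
    exact not_p1_p2 ((m1 a).1 ha) ((m2 a).1 hb)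
  refine ⟨(L1 ++ L2).length, (L1 ++ L2).get, List.nodup_iff_injective_get.1 hnd, ?_, ?_⟩
  · intro f
    rw [← p1_or_p2, ← m1, ← m2, ← List.mem_append]
    constructor
    · rintro ⟨i, rfl⟩
      exact List.get_mem _ _
    · intro h
      obtain ⟨i, hi⟩ := List.mem_iff_get.1 h
      exact ⟨i, hi⟩
  · intro i j hi hj
    have h1 : L1.length ≤ (i : ℕ) := by
      by_contra hlt
      push Not at hlt
      have h2 : (L1 ++ L2).get i = L1[(i : ℕ)] := by
        rw [List.get_eq_getElem, List.getElem_append_left hlt]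
      rw [h2] at hi
      exact not_p1_p2 ((m1 _).1 (List.getElem_mem hlt)) hi
    have h3 : (j : ℕ) < L1.length := by
      by_contra hge
      push Not at hge
      have h2 : (L1 ++ L2).get j = L2[(j : ℕ) - L1.length]'(by
          have h4 := j.2
          have h5 : (L1 ++ L2).length = L1.length + L2.length := List.length_append
          omega) := by
        rw [List.get_eq_getElem, List.getElem_append_right hge]
      rw [h2] at hj
      exact not_p1_p2 hj ((m2 _).1 (List.getElem_mem _))
    exact Fin.le_def.2 (by omega)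

open Classical in
/-- The first phase. -/
lemma phase1 (hr : 3 ≤ r) (hn : MM r ≤ n) {m : ℕ} {e : Fin m → Sym2 (Fin n)} (he : Function.Injective e)
    (hrange : ∀ f : Sym2 (Fin n), f ∈ Set.range e ↔ ¬ f.IsDiag ∧ f ∉ (GG r n).edgeSet)
    (c : Fin m → ℕ) (i : Fin m) (hi : IsP1 r n (e i)) :
    ∃ S : Finset (Fin n), S.card = r ∧
      (∀ v ∈ e i, v ∈ S) ∧
      (∀ u ∈ S, ∀ v ∈ S, u ≠ v → ∃ a, HasCol (GG r n) (col r n) e c i s(u, v) a) ∧
      (∀ (f f' : Sym2 (Fin n)) (a : ℕ), (∀ v ∈ f, v ∈ S) → (∀ v ∈ f', v ∈ S) →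
        HasCol (GG r n) (col r n) e c i f a → HasCol (GG r n) (col r n) e c i f' a → f = f') := by
  obtain ⟨v, u, hv, hu1, hu2, hei⟩ := hi
  have hM := le_MM (r := r)
  set N : Finset (Fin n) := univ.filter (fun w : Fin n => (w : ℕ) < r - 1) with hN
  have hNmem : ∀ w : Fin n, w ∈ N ↔ (w : ℕ) < r - 1 := by intro w; simp [hN]
  have hNcard : N.card = r - 1 := by
    rw [hN]
    have : (univ.filter (fun w : Fin n => (w : ℕ) < r - 1)) =
        (univ : Finset (Fin (r - 1))).map (Fin.castLEEmb (by omega)) := by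
      ext w
      simp only [mem_filter, mem_univ, true_and, mem_map, Fin.castLEEmb_apply]
      constructor
      · intro h
        exact ⟨⟨w, h⟩, Fin.ext rfl⟩
      · rintro ⟨x, rfl⟩
        exact x.2
    rw [this, card_map, card_univ, Fintype.card_fin]
  have hvu : v ≠ u := fun h => by subst h; omega
  -- the set of all the vertices which could be used
  have hexw : ∃ w ∈ N, ∀ f : Sym2 (Fin n), f ∈ (GG r n).edgeSet → (∀ x ∈ f, x = v ∨ x = u ∨ x ∈ N) →
      col r n f = c i → w ∈ f := by
    by_cases hex : ∃ f : Sym2 (Fin n), f ∈ (GG r n).edgeSet ∧ (∀ x ∈ f, x = v ∨ x = u ∨ x ∈ N) ∧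
      col r n f = c i
    · obtain ⟨f, hf1, hf2, hf3⟩ := hex
      have huniq : ∀ f' : Sym2 (Fin n), f' ∈ (GG r n).edgeSet → (∀ x ∈ f', x = v ∨ x = u ∨ x ∈ N) →
          col r n f' = c i → f' = f := by
        intro f' hf1' hf2' hf3'
        induction f using Sym2.ind with
        | _ x y =>
          induction f' using Sym2.ind with
          | _ x' y' =>
            have hc : ∀ z : Fin n, (z = v ∨ z = u ∨ z ∈ N) → (z = v ∨ (z : ℕ) < MM r) := by
              intro z hz
              rcases hz with rfl | rfl | hz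
              · exact Or.inl rfl
              · exact Or.inr hu2
              · rw [hNmem] at hz
                exact Or.inr (by omega)
            refine col_inj hv (hc _ (hf2' x' (by simp))) (hc _ (hf2' y' (by simp)))
              (hc _ (hf2 x (by simp))) (hc _ (hf2 y (by simp))) (gg_adj.1 hf1').1 (gg_adj.1 hf1).1 ?_
            rw [hf3, hf3']
      have hw : ∃ w ∈ N, w ∈ f := by
        induction f using Sym2.ind with
        | _ x y =>
          by_contra hcon
          push Not at hcon
          have hx := hf2 x (by simp)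
          have hy := hf2 y (by simp)
          have hx' : x ∉ N := fun h => hcon x h (by simp)
          have hy' : y ∉ N := fun h => hcon y h (by simp)
          have hadj := gg_adj.1 hf1
          rw [hNmem] at hx' hy'
          have : s(x, y) = s(v, u) ∨ x = y := by
            rcases hx with rfl | rfl | hx
            · rcases hy with rfl | rfl | hy
              · exact Or.inr rfl
              · exact Or.inl rfl
              · exact absurd ((hNmem y).1 hy) hy'
            · rcases hy with rfl | rfl | hy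
              · exact Or.inl Sym2.eq_swap
              · exact Or.inr rfl
              · exact absurd ((hNmem y).1 hy) hy'
            · exact absurd ((hNmem x).1 hx) hx'
          rcases this with h | h
          · rw [h] at hf1
            have := gg_adj.1 hf1
            omega
          · exact hadj.1 h
      obtain ⟨w, hwN, hwf⟩ := hw
      refine ⟨w, hwN, ?_⟩
      intro f' h1 h2 h3
      rw [huniq f' h1 h2 h3]
      exact hwf
    · have hne : N.Nonempty := by
        rw [← card_pos, hNcard]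
        omega
      obtain ⟨w, hw⟩ := hne
      exact ⟨w, hw, fun f h1 h2 h3 => absurd ⟨f, h1, h2, h3⟩ hex⟩
  obtain ⟨w, hwN, hw⟩ := hexw
  have huN : u ∉ N := by rw [hNmem]; omega
  have hvN : v ∉ N := by rw [hNmem]; omega
  set S : Finset (Fin n) := insert v (insert u (N.erase w)) with hS
  have hSmem : ∀ x ∈ S, x = v ∨ x = u ∨ x ∈ N := by
    intro x hx
    rw [hS, mem_insert, mem_insert, mem_erase] at hx
    tauto
  have hwS : w ∉ S := by
    rw [hS, mem_insert, mem_insert, mem_erase]
    rintro (h | h | h)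
    · exact hvN (h ▸ hwN)
    · exact huN (h ▸ hwN)
    · exact h.1 rfl
  -- pairs in S are edges of G or the new edge
  have hpair : ∀ x ∈ S, ∀ y ∈ S, x ≠ y → s(x, y) = s(v, u) ∨ s(x, y) ∈ (GG r n).edgeSet := by
    intro x hx y hy hxy
    rw [gg_adj]
    have hxu : ∀ z, (z = v ∨ z = u ∨ z ∈ N) → z = v ∨ (z : ℕ) < MM r := by
      intro z hz
      rcases hz with h | h | h
      · exact Or.inl h
      · exact Or.inr (h ▸ hu2)
      · exact Or.inr (by have := (hNmem z).1 h; omega)
    rcases hSmem x hx with h | h | h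
    · rcases hSmem y hy with h' | h' | h'
      · exact absurd (h.trans h'.symm) hxy
      · left; rw [h, h']
      · right; exact ⟨hxy, Or.inr (Or.inr ((hNmem y).1 h'))⟩
    · rcases hSmem y hy with h' | h' | h'
      · left; rw [h, h']; exact Sym2.eq_swap
      · exact absurd (h.trans h'.symm) hxy
      · right; exact ⟨hxy, Or.inr (Or.inr ((hNmem y).1 h'))⟩
    · right; exact ⟨hxy, Or.inr (Or.inl ((hNmem x).1 h))⟩
  -- colours
  have hcolS : ∀ (f : Sym2 (Fin n)) (a : ℕ), (∀ x ∈ f, x ∈ S) →
      HasCol (GG r n) (col r n) e c i f a →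
      (f ∈ (GG r n).edgeSet ∧ col r n f = a) ∨ (f = s(v, u) ∧ c i = a) := by
    intro f a hf h
    rcases h with h | ⟨j, hj, hej, hcj⟩
    · exact Or.inl h
    · right
      have hnot := (hrange f).1 ⟨j, hej⟩
      have : f = s(v, u) := by
        induction f using Sym2.ind with
        | _ x y =>
          have hxy : x ≠ y := by
            intro h
            exact hnot.1 (by rw [h]; simp)
          rcases hpair x (hf x (by simp)) y (hf y (by simp)) hxy with h | h
          · exact h
          · exact absurd h hnot.2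
      refine ⟨this, ?_⟩
      have : j = i := he (by rw [hej, hei, this])
      rw [← this, hcj]
  have hclash : ∀ (f : Sym2 (Fin n)), (∀ x ∈ f, x ∈ S) → f ∈ (GG r n).edgeSet → col r n f = c i →
      False := by
    intro f hf h1 h2
    exact hwS (hf w (hw f h1 (fun x hx => hSmem x (hf x hx)) h2))
  refine ⟨S, ?_, ?_, ?_, ?_⟩
  · rw [hS, card_insert_of_notMem, card_insert_of_notMem, card_erase_of_mem hwN, hNcard]
    · omega
    · intro h; exact huN (mem_of_mem_erase h)
    · rw [mem_insert]
      rintro (h | h)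
      · exact hvu h
      · exact hvN (mem_of_mem_erase h)
  · intro x hx
    rw [hei, Sym2.mem_iff] at hx
    rw [hS]
    rcases hx with rfl | rfl <;> simp
  · intro x hx y hy hxy
    rcases hpair x hx y hy hxy with h | h
    · exact ⟨c i, Or.inr ⟨i, le_rfl, by rw [hei, h], rfl⟩⟩
    · exact ⟨_, Or.inl ⟨h, rfl⟩⟩
  · intro f f' a hf hf' h h'
    rcases hcolS f a hf h with ⟨h1, h2⟩ | ⟨h1, h2⟩ <;>
      rcases hcolS f' a hf' h' with ⟨h1', h2'⟩ | ⟨h1', h2'⟩
    · induction f using Sym2.ind with
      | _ x y =>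
        induction f' using Sym2.ind with
        | _ x' y' =>
          have hc : ∀ z ∈ S, (z = v ∨ (z : ℕ) < MM r) := by
            intro z hz
            rcases hSmem z hz with h | h | h
            · exact Or.inl h
            · exact Or.inr (h ▸ hu2)
            · exact Or.inr (by have := (hNmem z).1 h; omega)
          refine col_inj hv (hc _ (hf x (by simp))) (hc _ (hf y (by simp)))
            (hc _ (hf' x' (by simp))) (hc _ (hf' y' (by simp))) (gg_adj.1 h1).1 (gg_adj.1 h1').1 ?_
          rw [h2, h2']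
    · exact absurd (hclash f hf h1 (by rw [h2, h2'])) id
    · exact absurd (hclash f' hf' h1' (by rw [h2, h2'])) id
    · rw [h1, h1']


open Classical in
/-- The second phase. -/
lemma phase2 (hr : 3 ≤ r) (hn : MM r ≤ n) {m : ℕ} {e : Fin m → Sym2 (Fin n)} (he : Function.Injective e)
    (hrange : ∀ f : Sym2 (Fin n), f ∈ Set.range e ↔ ¬ f.IsDiag ∧ f ∉ (GG r n).edgeSet)
    (hord : ∀ i j : Fin m, IsP2 r n (e i) → IsP1 r n (e j) → j ≤ i)
    (c : Fin m → ℕ) (hc : Function.Injective c) (i : Fin m) (hi : IsP2 r n (e i)) :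
    ∃ S : Finset (Fin n), S.card = r ∧
      (∀ v ∈ e i, v ∈ S) ∧
      (∀ u ∈ S, ∀ v ∈ S, u ≠ v → ∃ a, HasCol (GG r n) (col r n) e c i s(u, v) a) ∧
      (∀ (f f' : Sym2 (Fin n)) (a : ℕ), (∀ v ∈ f, v ∈ S) → (∀ v ∈ f', v ∈ S) →
        HasCol (GG r n) (col r n) e c i f a → HasCol (GG r n) (col r n) e c i f' a → f = f') := by
  have hi' := hi
  obtain ⟨v, v', hv, hv', hvv', hei⟩ := hi
  have hM := le_MM (r := r)
  set C : Finset (Fin n) := univ.filter (fun w : Fin n => r - 1 ≤ (w : ℕ) ∧ (w : ℕ) < MM r) with hC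
  have hCmem : ∀ w : Fin n, w ∈ C ↔ r - 1 ≤ (w : ℕ) ∧ (w : ℕ) < MM r := by intro w; simp [hC]
  have hCcard : C.card = 4 * (r + 2) ^ 2 + 2 := by
    have hKM : MM r = (r - 1) + (4 * (r + 2) ^ 2 + 2) := rfl
    have h1 : C.map Fin.valEmbedding = Finset.Ico (r - 1) (MM r) := by
      ext w
      rw [mem_map, mem_Ico]
      constructor
      · rintro ⟨x, hx, rfl⟩
        exact (hCmem x).1 hx
      · rintro ⟨h1, h2⟩
        exact ⟨⟨w, by omega⟩, (hCmem _).2 ⟨h1, h2⟩, rfl⟩
    rw [← card_map Fin.valEmbedding, h1, Nat.card_Ico]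
    omega
  -- the earlier edges
  set T : Finset (Sym2 (Fin n)) := insert s(v, v') (C.image (fun w => s(v, w)) ∪ C.image (fun w => s(v', w)))
    with hT
  have hTcard : T.card ≤ 2 * C.card + 1 := by
    calc T.card ≤ (C.image (fun w => s(v, w)) ∪ C.image (fun w => s(v', w))).card + 1 := card_insert_le _ _
      _ ≤ ((C.image (fun w => s(v, w))).card + (C.image (fun w => s(v', w))).card) + 1 := by
          gcongr; exact card_union_le _ _
      _ ≤ (C.card + C.card) + 1 := by gcongr <;> exact card_image_le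
      _ = 2 * C.card + 1 := by ring
  set A : Finset ℕ := (univ.filter (fun j : Fin m => e j ∈ T)).image c with hA
  have hAcard : A.card ≤ 2 * C.card + 1 := by
    refine le_trans card_image_le (le_trans ?_ hTcard)
    apply card_le_card_of_injOn e
    · intro j hj
      rw [mem_coe, mem_filter] at hj
      exact hj.2
    · exact he.injOn
  set B : Finset (Sym2 (Fin n)) := univ.filter (fun p => (∀ x ∈ p, (x : ℕ) < MM r) ∧ col r n p ∈ A) with hB
  have hBcard : B.card ≤ 2 * C.card + 1 := by
    refine le_trans ?_ hAcard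
    apply card_le_card_of_injOn (col r n)
    · intro p hp
      rw [mem_coe, hB, mem_filter] at hp
      exact hp.2.2
    · intro p hp q hq h
      rw [mem_coe, hB, mem_filter] at hp hq
      induction p using Sym2.ind with
      | _ x y =>
        induction q using Sym2.ind with
        | _ x' y' =>
          exact col_core_inj (hp.2.1 x (by simp)) (hp.2.1 y (by simp)) (hq.2.1 x' (by simp))
            (hq.2.1 y' (by simp)) h
  obtain ⟨W0, hW0C, hW0card, hW0⟩ := avoid r C hCcard B hBcard
  obtain ⟨W, hWW0, hWcard⟩ := exists_subset_card_eq (s := W0) (n := r - 2) (by omega)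
  have hWC : W ⊆ C := hWW0.trans hW0C
  set S : Finset (Fin n) := insert v (insert v' W) with hS
  have hSmem : ∀ x ∈ S, x = v ∨ x = v' ∨ x ∈ W := by
    intro x hx
    rw [hS, mem_insert, mem_insert] at hx
    exact hx
  have hvC : v ∉ C := by rw [hCmem]; omega
  have hv'C : v' ∉ C := by rw [hCmem]; omega
  -- pairs in S
  have hpair : ∀ x ∈ S, ∀ y ∈ S, x ≠ y → (s(x, y) = s(v, v') ∨ ∃ w ∈ W, (s(x, y) = s(v, w) ∨ s(x, y) = s(v', w)))
      ∨ (x ∈ W ∧ y ∈ W) := by
    intro x hx y hy hxy
    rcases hSmem x hx with h | h | h <;> rcases hSmem y hy with h' | h' | h'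
    · exact absurd (h.trans h'.symm) hxy
    · left; left; rw [h, h']
    · left; right; exact ⟨y, h', Or.inl (by rw [h])⟩
    · left; left; rw [h, h']; exact Sym2.eq_swap
    · exact absurd (h.trans h'.symm) hxy
    · left; right; exact ⟨y, h', Or.inr (by rw [h])⟩
    · left; right; exact ⟨x, h, Or.inl (by rw [h']; exact Sym2.eq_swap)⟩
    · left; right; exact ⟨x, h, Or.inr (by rw [h']; exact Sym2.eq_swap)⟩
    · right; exact ⟨h, h'⟩
  have hTnot : ∀ f ∈ T, f ∉ (GG r n).edgeSet := by
    intro f hf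
    have : IsP1 r n f ∨ IsP2 r n f := by
      rw [hT, mem_insert, mem_union, mem_image, mem_image] at hf
      rcases hf with rfl | ⟨w, hw, rfl⟩ | ⟨w, hw, rfl⟩
      · exact Or.inr ⟨v, v', hv, hv', hvv', rfl⟩
      · exact Or.inl ⟨v, w, hv, ((hCmem w).1 hw).1, ((hCmem w).1 hw).2, rfl⟩
      · exact Or.inl ⟨v', w, hv', ((hCmem w).1 hw).1, ((hCmem w).1 hw).2, rfl⟩
    exact ((p1_or_p2 f).1 this).2
  have hTcase : ∀ f : Sym2 (Fin n), ¬ f.IsDiag → (∀ x ∈ f, x ∈ S) →
      f ∈ T ∨ (∀ x ∈ f, x ∈ W) := by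
    intro f hf1 hf2
    induction f using Sym2.ind with
    | _ x y =>
      have hxy : x ≠ y := by intro h; exact hf1 (by rw [h]; simp)
      rcases hpair x (hf2 x (by simp)) y (hf2 y (by simp)) hxy with (h | ⟨w, hw, h | h⟩) | ⟨h, h'⟩
      · left; rw [h, hT]; exact mem_insert_self _ _
      · left; rw [h, hT]
        exact mem_insert_of_mem (mem_union_left _ (mem_image_of_mem _ (hWC hw)))
      · left; rw [h, hT]
        exact mem_insert_of_mem (mem_union_right _ (mem_image_of_mem _ (hWC hw)))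
      · right
        intro z hz
        rw [Sym2.mem_iff] at hz
        rcases hz with rfl | rfl <;> assumption
  have hcoreW : ∀ x ∈ W, (x : ℕ) < MM r := fun x hx => ((hCmem x).1 (hWC hx)).2
  -- colours
  have hcolS : ∀ (f : Sym2 (Fin n)) (a : ℕ), (∀ x ∈ f, x ∈ S) →
      HasCol (GG r n) (col r n) e c i f a →
      (¬ f.IsDiag ∧ (∀ x ∈ f, x ∈ W) ∧ col r n f = a) ∨ (a ∈ A ∧ ∃ j, e j = f ∧ c j = a) := by
    intro f a hf h
    rcases h with ⟨h1, h2⟩ | ⟨j, hj, hej, hcj⟩
    · left
      have hd : ¬ f.IsDiag := SimpleGraph.not_isDiag_of_mem_edgeSet _ h1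
      refine ⟨hd, ?_, h2⟩
      rcases hTcase f hd hf with h | h
      · exact absurd h1 (hTnot f h)
      · exact h
    · right
      have hnot := (hrange f).1 ⟨j, hej⟩
      refine ⟨?_, j, hej, hcj⟩
      rcases hTcase f hnot.1 hf with h | h
      · rw [hA, mem_image]
        exact ⟨j, by rw [mem_filter]; exact ⟨mem_univ _, by rw [hej]; exact h⟩, hcj⟩
      · exfalso
        apply hnot.2
        induction f using Sym2.ind with
        | _ x y =>
          rw [gg_adj]
          exact ⟨by intro h; exact hnot.1 (by rw [h]; simp),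
            Or.inl ⟨hcoreW x (h x (by simp)), hcoreW y (h y (by simp))⟩⟩
  have hclash : ∀ (f : Sym2 (Fin n)), ¬ f.IsDiag → (∀ x ∈ f, x ∈ W) → col r n f ∈ A → False := by
    intro f hd hf hfA
    induction f using Sym2.ind with
    | _ x y =>
      refine hW0 x (hWW0 (hf x (by simp))) y (hWW0 (hf y (by simp))) (by intro h; exact hd (by rw [h]; simp)) ?_
      rw [hB, mem_filter]
      exact ⟨mem_univ _, fun z hz => hcoreW z (hf z hz), hfA⟩
  refine ⟨S, ?_, ?_, ?_, ?_⟩
  · rw [hS, card_insert_of_notMem, card_insert_of_notMem, hWcard]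
    · omega
    · intro h; exact hv'C (hWC h)
    · rw [mem_insert]
      rintro (h | h)
      · exact hvv' h
      · exact hvC (hWC h)
  · intro x hx
    rw [hei, Sym2.mem_iff] at hx
    rw [hS]
    rcases hx with rfl | rfl <;> simp
  · intro x hx y hy hxy
    have hP : ∀ (z w : Fin n), MM r ≤ (z : ℕ) → w ∈ W → ∃ a, HasCol (GG r n) (col r n) e c i s(z, w) a := by
      intro z w hz hw
      have hw' := (hCmem w).1 (hWC hw)
      have h1 : IsP1 r n s(z, w) := ⟨z, w, hz, hw'.1, hw'.2, rfl⟩
      obtain ⟨j, hj⟩ := (hrange s(z, w)).2 ((p1_or_p2 _).1 (Or.inl h1))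
      exact ⟨c j, Or.inr ⟨j, hord i j hi' (by rw [hj]; exact h1), hj, rfl⟩⟩
    rcases hpair x hx y hy hxy with (h | ⟨w, hw, h | h⟩) | ⟨h, h'⟩
    · exact ⟨c i, Or.inr ⟨i, le_rfl, by rw [hei, h], rfl⟩⟩
    · rw [h]; exact hP v w hv hw
    · rw [h]; exact hP v' w hv' hw
    · exact ⟨_, Or.inl ⟨gg_adj.2 ⟨hxy, Or.inl ⟨hcoreW x h, hcoreW y h'⟩⟩, rfl⟩⟩
  · intro f f' a hf hf' h h'
    rcases hcolS f a hf h with ⟨h1, h2, h3⟩ | ⟨h1, j, h2, h3⟩ <;>
      rcases hcolS f' a hf' h' with ⟨h1', h2', h3'⟩ | ⟨h1', j', h2', h3'⟩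
    · induction f using Sym2.ind with
      | _ x y =>
        induction f' using Sym2.ind with
        | _ x' y' =>
          exact col_core_inj (hcoreW _ (h2 x (by simp))) (hcoreW _ (h2 y (by simp)))
            (hcoreW _ (h2' x' (by simp))) (hcoreW _ (h2' y' (by simp))) (by rw [h3, h3'])
    · exact absurd (hclash f h1 h2 (by rw [h3]; exact h1')) id
    · exact absurd (hclash f' h1' h2' (by rw [h3']; exact h1)) id
    · rw [← h2, ← h2', hc (h3.trans h3'.symm)]

open Classical in
/-- The number of edges of the starting graph. -/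
lemma gg_card (hn : MM r ≤ n) : (GG r n).edgeSet.ncard ≤ (r - 1) * n + MM r * MM r := by
  set N : Finset (Fin n) := univ.filter (fun w : Fin n => (w : ℕ) < r - 1) with hN
  set K : Finset (Fin n) := univ.filter (fun w : Fin n => (w : ℕ) < MM r) with hK
  have hM := le_MM (r := r)
  have hNc : N.card ≤ r - 1 := by
    have : N = (univ : Finset (Fin (r - 1))).map (Fin.castLEEmb (by omega)) := by
      ext w
      simp only [hN, mem_filter, mem_univ, true_and, mem_map, Fin.castLEEmb_apply]
      constructor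
      · intro h
        exact ⟨⟨w, h⟩, Fin.ext rfl⟩
      · rintro ⟨x, rfl⟩
        exact x.2
    rw [this, card_map, card_univ, Fintype.card_fin]
  have hKc : K.card ≤ MM r := by
    have : K = (univ : Finset (Fin (MM r))).map (Fin.castLEEmb (by omega)) := by
      ext w
      simp only [hK, mem_filter, mem_univ, true_and, mem_map, Fin.castLEEmb_apply]
      constructor
      · intro h
        exact ⟨⟨w, h⟩, Fin.ext rfl⟩
      · rintro ⟨x, rfl⟩
        exact x.2
    rw [this, card_map, card_univ, Fintype.card_fin]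
  have hsub : (GG r n).edgeSet ⊆ (((N ×ˢ (univ : Finset (Fin n))).image (fun p => s(p.1, p.2)) ∪
      (K ×ˢ K).image (fun p => s(p.1, p.2)) : Finset (Sym2 (Fin n))) : Set (Sym2 (Fin n))) := by
    intro f hf
    rw [mem_coe, mem_union, mem_image, mem_image]
    induction f using Sym2.ind with
    | _ x y =>
      rcases (gg_adj.1 hf).2 with h | h | h
      · right
        exact ⟨(x, y), by rw [mem_product]; simp [hK, h.1, h.2], rfl⟩
      · left
        exact ⟨(x, y), by rw [mem_product]; simp [hN, h], rfl⟩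
      · left
        exact ⟨(y, x), by rw [mem_product]; simp [hN, h], Sym2.eq_swap⟩
  calc (GG r n).edgeSet.ncard ≤ _ := Set.ncard_le_ncard hsub (Set.toFinite _)
    _ = _ := Set.ncard_coe_finset _
    _ ≤ ((N ×ˢ (univ : Finset (Fin n))).image (fun p => s(p.1, p.2))).card +
      ((K ×ˢ K).image (fun p => s(p.1, p.2))).card := card_union_le _ _
    _ ≤ (N ×ˢ (univ : Finset (Fin n))).card + (K ×ˢ K).card := by gcongr <;> exact card_image_le
    _ = N.card * n + K.card * K.card := by rw [card_product, card_product, card_univ, Fintype.card_fin]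
    _ ≤ (r - 1) * n + MM r * MM r := by gcongr

end Main

/-- The upper bound, in terms of graphs. -/
theorem exists_weaklySat (r : ℕ) (hr : 3 ≤ r) (n : ℕ) :
    ∃ (G : SimpleGraph (Fin n)) (χ : Sym2 (Fin n) → ℕ), IsWeaklySat r G χ ∧
      G.edgeSet.ncard ≤ (r - 1) * n + MM r * MM r := by
  by_cases hn : MM r ≤ n
  · refine ⟨GG r n, col r n, ?_, gg_card hn⟩
    obtain ⟨m, e, he, hrange, hord⟩ := exists_order r n
    refine ⟨m, e, he, hrange, ?_⟩
    intro c hc i
    rcases (p1_or_p2 (e i)).2 ((hrange (e i)).1 ⟨i, rfl⟩) with h | h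
    · exact phase1 hr hn he hrange c i h
    · exact phase2 hr hn he hrange hord c hc i h
  · refine ⟨⊤, fun _ => 0, ⟨0, fun i => i.elim0, fun i => i.elim0, ?_, fun c _ i => i.elim0⟩, ?_⟩
    · intro f
      constructor
      · rintro ⟨i, _⟩
        exact i.elim0
      · rintro ⟨h1, h2⟩
        exfalso
        apply h2
        rw [SimpleGraph.edgeSet_top]
        exact h1
    · have h1 : (⊤ : SimpleGraph (Fin n)).edgeSet.ncard ≤ n * n := by
        classical
        have hsub : (⊤ : SimpleGraph (Fin n)).edgeSet ⊆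
            (((univ : Finset (Fin n × Fin n)).image (fun p => s(p.1, p.2)) : Finset (Sym2 (Fin n))) :
              Set (Sym2 (Fin n))) := by
          intro f _
          rw [mem_coe, mem_image]
          induction f using Sym2.ind with
          | _ x y => exact ⟨(x, y), mem_univ _, rfl⟩
        calc _ ≤ _ := Set.ncard_le_ncard hsub (Set.toFinite _)
          _ = _ := Set.ncard_coe_finset _
          _ ≤ _ := card_image_le
          _ = n * n := by simp
      push Not at hn
      calc _ ≤ n * n := h1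
        _ ≤ MM r * MM r := Nat.mul_le_mul hn.le hn.le
        _ ≤ _ := Nat.le_add_left _ _

theorem rwsat_le (r : ℕ) (hr : 3 ≤ r) (n : ℕ) : rwsat n r ≤ (r - 1) * n + MM r * MM r := by
  obtain ⟨G, χ, h1, h2⟩ := exists_weaklySat r hr n
  exact le_trans (Nat.sInf_le ⟨G, χ, h1, rfl⟩) h2

end Pool.Agent.R83.WR
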